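import Pool.Agent.MP_d0b2d2_an.Mean

open MeasureTheory Set Filter Topology Metric BoundedContinuousFunction

namespace Pool.Agent.MP_d0b2d2_an

variable {Θ : Type} [MeasurableSpace Θ]

structure Fam (μ : Measure Θ) (a : Θ → ℝ → ℝ) : Prop where
  meas : Measurable (Function.uncurry a)
  bdd : ∀ θ t, |a θ t| ≤ 1
  equi : ∀ ε > 0, ∃ δ > 0, ∀ᵐ θ ∂μ, ∀ t t', dist t t' < δ → |a θ t - a θ t'| ≤ ε

variable {μ : Measure Θ} {a : Θ → ℝ → ℝ}

lemma Fam.restrict (h : Fam μ a) (S : Set Θ) : Fam (μ.restrict S) a :=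
  ⟨h.meas, h.bdd, fun ε hε => by
    obtain ⟨δ, hδ, h'⟩ := h.equi ε hε
    exact ⟨δ, hδ, ae_restrict_of_ae h'⟩⟩

lemma Fam.integrable (h : Fam μ a) (ν : Measure Θ) [IsFiniteMeasure ν] (t : ℝ) :
    Integrable (fun θ => a θ t) ν :=
  integrable_bdd (h.meas.comp (measurable_id.prodMk measurable_const)) fun θ => h.bdd θ t

lemma Fam.uc [IsFiniteMeasure μ] (h : Fam μ a) : UniformContinuous fun t => ∫ θ, a θ t ∂μ := by
  rw [Metric.uniformContinuous_iff]
  intro ε hε
  have hm : 0 ≤ μ.real univ := measureReal_nonneg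
  obtain ⟨δ, hδ, h'⟩ := h.equi (ε / (μ.real univ + 1)) (by positivity)
  refine ⟨δ, hδ, fun t t' htt => ?_⟩
  rw [Real.dist_eq, ← integral_sub (h.integrable μ t) (h.integrable μ t')]
  refine (norm_integral_le_of_norm_le_const (f := fun θ => a θ t - a θ t')
    (C := ε / (μ.real univ + 1)) (h'.mono fun θ hθ => hθ t t' htt)).trans_lt ?_
  rw [div_mul_eq_mul_div, div_lt_iff₀ (by positivity)]
  nlinarith

lemma Fam.abs_le [IsFiniteMeasure μ] (h : Fam μ a) (t : ℝ) : |∫ θ, a θ t ∂μ| ≤ μ.real univ := by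
  simpa using norm_integral_le_of_norm_le_const (μ := μ) (f := fun θ => a θ t) (C := 1)
    (ae_of_all _ fun θ => h.bdd θ t)

noncomputable def Fam.part [IsFiniteMeasure μ] (h : Fam μ a) : ℝ →ᵇ ℝ :=
  ofNormedAddCommGroup (fun t => ∫ θ, a θ t ∂μ) h.uc.continuous (μ.real univ) h.abs_le

@[simp] lemma Fam.part_apply [IsFiniteMeasure μ] (h : Fam μ a) (t : ℝ) :
    h.part t = ∫ θ, a θ t ∂μ := rfl

variable {U : Ultrafilter ℕ} {m : (ℝ →ᵇ ℝ) →L[ℝ] ℝ}

lemma Fam.local_mean [IsProbabilityMeasure μ] (h : Fam μ a) (hm : IsMean U m)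
    (hl : ∀ᵐ θ ∂μ, ∀ ε > 0, ∀ᶠ Λ : ℝ in atTop, ∃ K, ∀ T, 0 ≤ T →
      ∫ t in (0 : ℝ)..T, |(∫ s in (0 : ℝ)..Λ, a θ (t + s)) / Λ| ≤ ε * T + K) :
    ∀ η > 0, ∃ Λ > 0, m |∫ s in (0 : ℝ)..Λ, sh s h.part| ≤ η * Λ := by
  intro η hη
  let φ : ℕ → Θ → ℝ → ℝ := fun Λ θ t => |(∫ s in (0 : ℝ)..Λ, a θ (t + s)) / Λ|
  have hφ : ∀ Λ, Measurable (Function.uncurry (φ Λ)) := fun Λ =>
    ((measurable_ii (f := fun x : (Θ × ℝ) × ℝ => a x.1.1 (x.1.2 + x.2))
      (h.meas.comp (f := fun x : (Θ × ℝ) × ℝ => (x.1.1, x.1.2 + x.2)) (by fun_prop)) 0 Λ).div_const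
      _).abs
  have hφb : ∀ Λ θ t, |φ Λ θ t| ≤ 1 := fun Λ θ t => by
    rw [abs_abs]; exact abs_avN_le (f := fun s => a θ (t + s)) (fun s => h.bdd _ _) Λ
  let S : ℕ → Set Θ := fun Λ => {θ | ∀ᶠ n in atTop, avN (φ Λ θ) n ≤ η / 2}
  have hS : ∀ Λ, MeasurableSet (S Λ) := fun Λ => by
    simp only [S, eventually_atTop, setOf_exists, setOf_forall]
    exact MeasurableSet.iUnion fun N => MeasurableSet.iInter fun n => MeasurableSet.iInter fun _ =>
      measurableSet_le (measurable_avN (hφ Λ) n) measurable_const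
  have ht := tendsto_integral_of_dominated_convergence (μ := μ)
    (F := fun Λ => (S Λ)ᶜ.indicator fun _ => (1 : ℝ)) (f := fun _ => 0) (fun _ => 1)
    (fun Λ => (measurable_const.indicator (hS Λ).compl).aestronglyMeasurable) (integrable_const _)
    (fun Λ => ae_of_all _ fun θ => by
      by_cases e : θ ∈ (S Λ)ᶜ <;> simp [e])
    (by
      filter_upwards [hl] with θ hθ
      refine tendsto_const_nhds.congr' ?_
      filter_upwards [tendsto_natCast_atTop_atTop.eventually (hθ (η / 4) (by linarith))]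
        with Λ ⟨K, hK⟩
      rw [indicator_of_notMem]
      simp only [mem_compl_iff, not_not]
      filter_upwards [avN_le_of_linear (by linarith) hK] with n hn
      linarith)
  rw [integral_zero] at ht
  obtain ⟨Λ, h1, hΛ⟩ := ((ht.eventually_le_const (half_pos hη)).and (eventually_gt_atTop 0)).exists
  have hΛ' : (0 : ℝ) < Λ := by exact_mod_cast hΛ
  refine ⟨Λ, hΛ', ?_⟩
  have ic : Integrable ((S Λ)ᶜ.indicator fun _ => (1 : ℝ)) μ :=
    (integrable_const _).indicator (hS Λ).compl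
  have := hm.le_int μ (hφ Λ) (hφb Λ) (c := fun θ => η / 2 + (S Λ)ᶜ.indicator (fun _ => (1 : ℝ)) θ)
    ((integrable_const _).add ic) (ae_of_all _ fun θ => by
      by_cases e : θ ∈ S Λ
      · filter_upwards [e] with n hn
        simpa [e] using hn
      · refine Eventually.of_forall fun n => ?_
        rw [indicator_of_mem (show θ ∈ (S Λ)ᶜ from e)]
        linarith [(_root_.abs_le.1 (abs_avN_le (hφb Λ θ) n)).2])
    (f := (Λ : ℝ)⁻¹ • |∫ s in (0 : ℝ)..Λ, sh s h.part|) (fun t _ => by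
      simp only [coe_smul, coe_abs, Pi.abs_apply, smul_eq_mul, ii_sh_apply (B := h.part) h.uc, Fam.part_apply]
      rw [integral_ii_swap μ (φ := fun θ s => a θ (t + s))
        (h.meas.comp (f := fun x : Θ × ℝ => (x.1, t + x.2)) (by fun_prop)) (fun θ s => h.bdd _ _)
        hΛ'.le]
      refine le_trans (le_of_eq ?_) abs_integral_le_integral_abs
      rw [integral_div, abs_div, abs_of_pos hΛ', div_eq_inv_mul])
  rw [integral_add (integrable_const _) ic, map_smul, smul_eq_mul, inv_mul_le_iff₀ hΛ'] at this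
  simp only [integral_const, probReal_univ, smul_eq_mul, one_mul] at this
  nlinarith

theorem core [IsProbabilityMeasure μ] (h : Fam μ a)
    (hl : ∀ᵐ θ ∂μ, ∀ ε > 0, ∀ᶠ Λ : ℝ in atTop, ∃ K, ∀ T, 0 ≤ T →
      ∫ t in (0 : ℝ)..T, |(∫ s in (0 : ℝ)..Λ, a θ (t + s)) / Λ| ≤ ε * T + K)
    (hr : ∀ C, Corr C → ∀ ε > 0, ∀ J : ℕ, 0 < J → ∃ (ι : Type) (_ : Countable ι) (I : ι → Set Θ)
      (τ : ι → ℝ), (∀ k, MeasurableSet (I k)) ∧ (∀ᵐ θ ∂μ, ∃ k, θ ∈ I k) ∧
      (∀ k, psiJ C J (-τ k) ≤ 16 * J) ∧ ∀ k, ∀ᵐ θ ∂μ, θ ∈ I k → ∀ j < J, ∃ K, ∀ T, 0 ≤ T →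
        ∫ t in (0 : ℝ)..T, |a θ (t + j * τ k) - a θ t| ≤ ε * T + K) :
    Tendsto (avN fun t => (∫ θ, a θ t ∂μ) ^ 2) atTop (𝓝 0) := by
  classical
  rw [tendsto_iff_ultrafilter]
  intro U hU
  obtain ⟨m, hm⟩ := exists_mean hU
  have hb : ∀ t, |h.part t| ≤ 1 := fun t => by simpa using h.abs_le t
  suffices m (h.part * h.part) = 0 by
    have h1 := hm.lim (h.part * h.part)
    rw [this] at h1
    refine h1.congr fun n => ?_
    congr 1; funext t; simp [pow_two]
  refine le_antisymm (le_of_forall_pos_le_add fun ε hε => ?_) (by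
    simpa using hm.mono (f := 0) (g := h.part * h.part) fun t => mul_self_nonneg _)
  have hC := hm.corr hb h.uc (h.local_mean hm hl)
  obtain ⟨J, hJ⟩ := exists_nat_gt (16 / (ε / 5) ^ 2)
  have hJ0 : 0 < J := by
    have : (0 : ℝ) < J := lt_trans (by positivity) hJ
    exact_mod_cast this
  rw [div_lt_iff₀ (by positivity)] at hJ
  obtain ⟨ι, _, I, τ, hI, hcov, hψ, hrig⟩ := hr _ hC (ε / 10) (by linarith) J hJ0
  have piece : ∀ k, ∀ S, MeasurableSet S → S ⊆ I k →
      m (h.part * (h.restrict S).part) ≤ 2 * (ε / 5) * μ.real S := by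
    intro k S hS hSI
    refine hm.piece hb (fun t => by simpa using (h.restrict S).abs_le t) (by linarith) hJ.le
      (fun j hj => ?_) (hψ k)
    have := hm.le_int (μ.restrict S) (φ := fun θ t => |a θ (t + j * τ k) - a θ t|)
      ((h.meas.comp (f := fun x : Θ × ℝ => (x.1, x.2 + j * τ k)) (by fun_prop)).sub h.meas).abs
      (fun θ t => abs_sub_le_two (h.bdd _ _) (h.bdd _ _)) (c := fun _ => ε / 5)
      (integrable_const _) (by
        filter_upwards [ae_restrict_of_ae (hrig k), ae_restrict_mem hS] with θ h1 h2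
        obtain ⟨K, hK⟩ := h1 (hSI h2) j hj
        filter_upwards [avN_le_of_linear (by linarith) hK] with n hn
        linarith)
      (f := |sh (j * τ k) (h.restrict S).part - (h.restrict S).part|) (fun t _ => by
        simp only [coe_abs, coe_sub, Pi.abs_apply, Pi.sub_apply, sh_apply, Fam.part_apply]
        rw [← integral_sub (h.integrable _ _) (h.integrable _ _)]
        exact abs_integral_le_integral_abs)
    simpa [mul_comm] using this
  have union : ∀ S T, MeasurableSet T → Disjoint S T →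
      (h.restrict (S ∪ T)).part = (h.restrict S).part + (h.restrict T).part := by
    intro S T hT hd
    ext t
    simp only [Fam.part_apply, coe_add, Pi.add_apply]
    exact setIntegral_union hd hT (h.integrable _ _) (h.integrable _ _)
  have hmF : ∀ F : Finset ι, MeasurableSet (⋃ k ∈ F, I k) := fun F =>
    Finset.measurableSet_biUnion _ fun k _ => hI k
  have fin : ∀ F : Finset ι, m (h.part * (h.restrict (⋃ k ∈ F, I k)).part) ≤
      2 * (ε / 5) * μ.real (⋃ k ∈ F, I k) := by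
    intro F
    induction F using Finset.induction_on with
    | empty =>
      have : (h.restrict (⋃ k ∈ (∅ : Finset ι), I k)).part = 0 := by ext t; simp
      rw [this]; simp
    | insert k F hk ih =>
      have e : ⋃ j ∈ insert k F, I j = (⋃ j ∈ F, I j) ∪ (I k \ ⋃ j ∈ F, I j) := by
        rw [Finset.set_biUnion_insert, union_diff_self, union_comm]
      have hd := (hI k).diff (hmF F)
      rw [e, union _ _ hd disjoint_sdiff_right, mul_add, map_add,
        measureReal_union disjoint_sdiff_right hd (measure_ne_top _ _) (measure_ne_top _ _)]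
      linarith [piece k _ hd diff_subset]
  obtain ⟨F, hF⟩ : ∃ F : Finset ι, μ.real (⋃ k ∈ F, I k)ᶜ ≤ ε / 5 := by
    have hmono : Monotone fun F : Finset ι => ⋃ k ∈ F, I k := fun F G hFG =>
      biUnion_subset_biUnion_left hFG
    have ht := tendsto_measure_iUnion_atTop (μ := μ) hmono
    have e : μ (⋃ F : Finset ι, ⋃ k ∈ F, I k) = 1 := by
      rw [← measure_univ (μ := μ)]
      refine measure_congr (ae_eq_univ.2 ?_)
      refine measure_mono_null ?_ (ae_iff.1 hcov)
      rintro θ hθ ⟨k, hk⟩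
      exact hθ (mem_iUnion.2 ⟨{k}, by simpa using hk⟩)
    rw [e] at ht
    have ht2 := (ENNReal.tendsto_toReal ENNReal.one_ne_top).comp ht
    obtain ⟨F, hF⟩ := (ht2.eventually_const_le (show 1 - ε / 5 < (1 : ENNReal).toReal by
      simpa using hε)).exists
    refine ⟨F, ?_⟩
    rw [measureReal_compl (hmF F)]
    simp only [probReal_univ]
    have : μ.real (⋃ k ∈ F, I k) = (ENNReal.toReal ∘ μ ∘ fun F : Finset ι => ⋃ k ∈ F, I k) F := rfl
    linarith
  have e : h.part = (h.restrict (⋃ k ∈ F, I k)).part + (h.restrict (⋃ k ∈ F, I k)ᶜ).part := by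
    rw [← union _ _ (hmF F).compl disjoint_compl_right]
    ext t
    simp only [Fam.part_apply, union_compl_self, Measure.restrict_univ]
  have h1 : m (h.part * (h.restrict (⋃ k ∈ F, I k)ᶜ).part) ≤ ε / 5 := by
    refine (le_abs_self _).trans (hm.abs_le fun t => ?_)
    rw [coe_mul, Pi.mul_apply, abs_mul]
    refine (mul_le_of_le_one_left (abs_nonneg _) (hb t)).trans (le_trans ?_ hF)
    simpa using (h.restrict (⋃ k ∈ F, I k)ᶜ).abs_le t
  have h2 : μ.real (⋃ k ∈ F, I k) ≤ 1 := measureReal_le_one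
  have h3 := fin F
  nth_rewrite 2 [e]
  rw [mul_add, map_add]
  nlinarith

end Pool.Agent.MP_d0b2d2_an
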