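import Mathlib

open MeasureTheory Set Filter Topology

namespace Pool.Agent.MP_d0b2d2_an

/-- The standard torus `ℝ² / ℤ²`. -/
abbrev Tor : Type := UnitAddCircle × UnitAddCircle

/-- The quotient map `ℝ² → ℝ² / ℤ²`. -/
def proj (v : ℝ × ℝ) : Tor := ((v.1 : UnitAddCircle), (v.2 : UnitAddCircle))

/-- `π : X → ℝ²/ℤ²` is a connected covering branched over the finite set `P`. -/
structure IsTorusCover {X : Type} [TopologicalSpace X] (π : X → Tor) (P : Set Tor) : Prop where
  cont : Continuous π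
  finP : P.Finite
  finFib : (π ⁻¹' P).Finite
  cov : IsCoveringMapOn π Pᶜ
  conn : IsConnected (π ⁻¹' Pᶜ)
  dense : Dense (π ⁻¹' Pᶜ)

/-- The image of the unit vector of angle `2πθ` under the matrix with rows `(a, b)`, `(c, d)`. -/
noncomputable def vel (a b c d θ : ℝ) : ℝ × ℝ :=
  (a * Real.cos (2 * Real.pi * θ) + b * Real.sin (2 * Real.pi * θ),
    c * Real.cos (2 * Real.pi * θ) + d * Real.sin (2 * Real.pi * θ))

/-- `γ θ` is a straight-line trajectory from `p` with velocity `vel a b c d θ` for almost every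
`θ`, and `γ` is jointly measurable. -/
def IsRayFamily {X : Type} [TopologicalSpace X] [MeasurableSpace X] (π : X → Tor)
    (a b c d : ℝ) (p : X) (γ : ℝ → ℝ → X) : Prop :=
  Measurable (Function.uncurry γ) ∧
    ∀ᵐ θ ∂(volume.restrict (Ioo (0 : ℝ) 1)), γ θ 0 = p ∧ ContinuousOn (γ θ) (Ici 0) ∧
      ∀ t : ℝ, 0 ≤ t → π (γ θ t) = π p + proj (t • vel a b c d θ)

/-- The mean of `h` for the normalised area measure pulled back from the torus. -/
noncomputable def areaMean {X : Type} (π : X → Tor) (h : X → ℝ) : ℝ :=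
  (∫ z : Tor, ∑ᶠ x ∈ π ⁻¹' {z}, h x) / ∫ z : Tor, ∑ᶠ _x ∈ π ⁻¹' {z}, (1 : ℝ)

end Pool.Agent.MP_d0b2d2_an
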