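import Pool.Agent.MP_d0b2d2_an.Rigid

open MeasureTheory Set Filter Topology Metric

namespace Pool.Agent.MP_d0b2d2_an

lemma card_dvd_le (c : ℤ) (m : ℕ) {d : ℕ} (hd : 0 < d) :
    (((Finset.range m).filter fun j : ℕ => (d : ℤ) ∣ c + j).card : ℝ) ≤ m / d + 1 := by
  have hd' : (0 : ℝ) < d := by exact_mod_cast hd
  refine le_trans ?_ (card_Icc_le (c / d) (l := m / d) (by positivity))
  rw [Nat.cast_le]
  refine Finset.card_le_card_of_injOn (fun j : ℕ => (c + j) / d) ?_ ?_
  · intro j hj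
    simp only [Finset.coe_filter, Finset.mem_range, mem_setOf_eq] at hj
    obtain ⟨hj, k, hk⟩ := hj
    have e : (c : ℝ) + j = d * k := by exact_mod_cast hk
    have hj' : (j : ℝ) ≤ m := by exact_mod_cast hj.le
    simp only [hk, Int.mul_ediv_cancel_left _ (show (d : ℤ) ≠ 0 by positivity), Finset.coe_Icc,
      mem_Icc, Int.ceil_le, Int.le_floor]
    rw [div_le_iff₀ hd', ← add_div, le_div_iff₀ hd']
    constructor <;> linarith [(Nat.cast_nonneg j : (0 : ℝ) ≤ j)]
  · intro j hj j' hj' e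
    simp only [Finset.coe_filter, Finset.mem_range, mem_setOf_eq] at hj hj'
    have := Int.ediv_left_inj hj.2 hj'.2 |>.1 e
    omega

lemma card_noncoprime_le (P : ℕ → ℤ) (R m : ℕ) (hm : m ≤ R) {η : ℝ} (hη : 0 < η) :
    (((Finset.range R ×ˢ Finset.range m).filter
      fun a : ℕ × ℕ => Int.gcd (R + a.1) (P a.1 + a.2) ≠ 1).card : ℝ) ≤
      3 / 4 * (R * m) + 2 * R * (2 * R * η + 1 / η) + 2 * R := by
  set S := Finset.range R ×ˢ Finset.range m
  have hsub : S.filter (fun a : ℕ × ℕ => Int.gcd (R + a.1) (P a.1 + a.2) ≠ 1) ⊆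
      (Finset.Ioc 1 (2 * R)).biUnion fun d => S.filter
        fun a : ℕ × ℕ => (d : ℤ) ∣ R + a.1 ∧ (d : ℤ) ∣ P a.1 + a.2 := by
    intro a ha
    obtain ⟨ha, hg⟩ := Finset.mem_filter.1 ha
    have h1 : a.1 < R := Finset.mem_range.1 (Finset.mem_product.1 ha).1
    have h2 := Int.gcd_dvd_left ((R : ℤ) + a.1) (P a.1 + a.2)
    have h3 := Int.le_of_dvd (by omega) h2
    have h4 := Int.gcd_pos_of_ne_zero_left (P a.1 + a.2) (show (R : ℤ) + a.1 ≠ 0 by omega)
    exact Finset.mem_biUnion.2 ⟨_, Finset.mem_Ioc.2 ⟨by omega, by omega⟩,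
      Finset.mem_filter.2 ⟨ha, h2, Int.gcd_dvd_right _ _⟩⟩
  have hR : (0 : ℝ) ≤ R := Nat.cast_nonneg R
  have hm0 : (0 : ℝ) ≤ m := Nat.cast_nonneg m
  have hm' : (m : ℝ) ≤ R := by exact_mod_cast hm
  have hd : ∀ d ∈ Finset.Ioc 1 (2 * R), ((S.filter
      fun a : ℕ × ℕ => (d : ℤ) ∣ R + a.1 ∧ (d : ℤ) ∣ P a.1 + a.2).card : ℝ) ≤
      (R * m + 2 * R / η) * ((d : ℝ) ^ 2)⁻¹ + (2 * R * η + 1) := by
    intro d hd
    have hd0 : 0 < d := by have := (Finset.mem_Ioc.1 hd).1; omega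
    have hd' : (0 : ℝ) < d := by exact_mod_cast hd0
    have h1 : ((S.filter fun a : ℕ × ℕ => (d : ℤ) ∣ R + a.1 ∧ (d : ℤ) ∣ P a.1 + a.2).card : ℝ) ≤
        (R / d + 1) * (m / d + 1) := by
      have : ((S.filter fun a : ℕ × ℕ => (d : ℤ) ∣ R + a.1 ∧ (d : ℤ) ∣ P a.1 + a.2).card : ℝ) =
          ∑ i ∈ (Finset.range R).filter (fun i : ℕ => (d : ℤ) ∣ R + i),
            (((Finset.range m).filter fun j : ℕ => (d : ℤ) ∣ P i + j).card : ℝ) := by
        rw [Finset.sum_filter, Finset.card_filter, Finset.sum_product]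
        push_cast
        refine Finset.sum_congr rfl fun i _ => ?_
        split_ifs with h <;> simp [h]
      rw [this]
      refine (Finset.sum_le_card_nsmul _ _ _ fun i _ => card_dvd_le _ m hd0).trans ?_
      rw [nsmul_eq_mul]
      exact mul_le_mul_of_nonneg_right (card_dvd_le _ R hd0) (by positivity)
    refine h1.trans ?_
    have h2 : (d : ℝ)⁻¹ ≤ η + 1 / η * ((d : ℝ) ^ 2)⁻¹ := by
      have : η + 1 / η * ((d : ℝ) ^ 2)⁻¹ - (d : ℝ)⁻¹ = ((η * d - 1) ^ 2 + η * d) / (η * d ^ 2) := by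
        field_simp; ring
      have : 0 ≤ ((η * d - 1) ^ 2 + η * d) / (η * d ^ 2) := by positivity
      linarith
    have h3 : (R / d + 1) * (m / d + 1) = R * m * ((d : ℝ) ^ 2)⁻¹ + (R + m) * (d : ℝ)⁻¹ + 1 := by
      field_simp; ring
    have h4 : (R + m) * (d : ℝ)⁻¹ ≤ 2 * R * (η + 1 / η * ((d : ℝ) ^ 2)⁻¹) :=
      mul_le_mul (by linarith) h2 (by positivity) (by positivity)
    rw [h3]
    have : 2 * R / η = 2 * R * (1 / η) := by ring
    rw [this]
    linarith
  have hs : ∑ d ∈ Finset.Ioc 1 (2 * R), ((d : ℝ) ^ 2)⁻¹ ≤ 3 / 4 := by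
    rcases Nat.eq_zero_or_pos R with rfl | hR0
    · simp; norm_num
    · have h1 := sum_Ioc_inv_sq_le_sub (α := ℝ) (k := 2) (n := 2 * R) two_ne_zero (by omega)
      rw [← Finset.insert_Ioc_add_one_left_eq_Ioc (show 1 < 2 * R by omega),
        Finset.sum_insert (by simp)]
      have : (0 : ℝ) ≤ (R : ℝ)⁻¹ := by positivity
      norm_num at h1 ⊢
      linarith
  have h1 : ((S.filter fun a : ℕ × ℕ => Int.gcd (R + a.1) (P a.1 + a.2) ≠ 1).card : ℝ) ≤
      ∑ d ∈ Finset.Ioc 1 (2 * R), ((S.filter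
        fun a : ℕ × ℕ => (d : ℤ) ∣ R + a.1 ∧ (d : ℤ) ∣ P a.1 + a.2).card : ℝ) := by
    exact_mod_cast (Finset.card_le_card hsub).trans Finset.card_biUnion_le
  refine h1.trans ((Finset.sum_le_sum hd).trans ?_)
  rw [Finset.sum_add_distrib, ← Finset.mul_sum, Finset.sum_const, nsmul_eq_mul, Nat.card_Ioc]
  have h2 : ((2 * R - 1 : ℕ) : ℝ) ≤ 2 * R := by exact_mod_cast Nat.sub_le _ _
  have h3 := mul_le_mul_of_nonneg_left hs (show 0 ≤ R * m + 2 * R / η by positivity)
  have h4 := mul_le_mul_of_nonneg_right h2 (show 0 ≤ 2 * R * η + 1 by positivity)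
  have h5 : 2 * R / η = 2 * R * (1 / η) := by ring
  have h6 : 0 ≤ R * (1 / η) := by positivity
  rw [h5] at h3 ⊢
  nlinarith

lemma frac_sep {q q' p p' : ℤ} (hq : 0 < q) (hq' : 0 < q') (h : Int.gcd q p = 1)
    (h' : Int.gcd q' p' = 1) (hne : (q, p) ≠ (q', p')) :
    1 / ((q : ℝ) * q') ≤ |(p : ℝ) / q - p' / q'| := by
  have h0 : p * q' - p' * q ≠ 0 := by
    intro e
    have c1 : IsCoprime q p := Int.isCoprime_iff_gcd_eq_one.2 h
    have c2 : IsCoprime q' p' := Int.isCoprime_iff_gcd_eq_one.2 h'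
    have d1 : q ∣ q' := c1.dvd_of_dvd_mul_left ⟨p', by linarith⟩
    have d2 : q' ∣ q := c2.dvd_of_dvd_mul_left ⟨p, by linarith⟩
    have e1 : q = q' := Int.dvd_antisymm hq.le hq'.le d1 d2
    subst e1
    have : p = p' := mul_right_cancel₀ hq.ne' (by linarith)
    exact hne (by rw [this])
  have a : (0 : ℝ) < q := by exact_mod_cast hq
  have a' : (0 : ℝ) < q' := by exact_mod_cast hq'
  rw [div_sub_div _ _ a.ne' a'.ne', abs_div, abs_of_pos (mul_pos a a')]
  refine div_le_div_of_nonneg_right ?_ (by positivity)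
  rw [mul_comm (q : ℝ)]
  exact_mod_cast Int.one_le_abs h0

theorem ae_good {ψ : ℤ → ℤ → ℝ} (h0 : ∀ q p, 0 ≤ ψ q p) {c : ℝ} (hc : 0 < c)
    (h : ∀ A ρ : ℝ, 0 ≤ A → 0 < ρ → ∀ᶠ q : ℤ in atTop, ∀ x₀ : ℤ, |(x₀ : ℝ)| ≤ A * q → ∀ m : ℕ,
      ρ * q ≤ m → (m : ℝ) ≤ q → ∑ j ∈ Finset.range m, ψ q (x₀ + j) ≤ c * m)
    {K : ℝ} (hK : 1 ≤ K) (Q : ℤ) :
    ∀ᵐ s : ℝ, ∃ q p : ℤ, Q ≤ q ∧ ψ q p ≤ 8 * c ∧ s ∈ Ioo ((p : ℝ) / q) (p / q + 1 / (K * q ^ 2)) := by
  classical
  set E := {s : ℝ | ∃ q p : ℤ, Q ≤ q ∧ ψ q p ≤ 8 * c ∧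
    s ∈ Ioo ((p : ℝ) / q) (p / q + 1 / (K * q ^ 2))} with hE
  have hEo : IsOpen E := by
    simp only [hE, setOf_exists, setOf_and]
    exact isOpen_iUnion fun q => isOpen_iUnion fun p =>
      isOpen_const.inter (isOpen_const.inter isOpen_Ioo)
  have low : ∀ x r : ℝ, 0 < r → r ≤ 1 → r / (128 * K) ≤ volume.real (E ∩ closedBall x r) := by
    intro x r hr hr1
    obtain ⟨q₀, hq₀⟩ := eventually_atTop.1 (h (|x - r| + 1) (r / 4) (by positivity) (by linarith))
    obtain ⟨R, hR⟩ := exists_nat_gt (max (max (q₀ : ℝ) Q) ((64 * (2 / (r / 256) + 2) + 2) / r))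
    rw [max_lt_iff, max_lt_iff, div_lt_iff₀ hr] at hR
    obtain ⟨⟨hR1, hR2⟩, hR3⟩ := hR
    have hp : 0 < 2 / (r / 256) := by positivity
    have hR4 : 2 < R * r := by linarith
    have hR0 : (1 : ℝ) ≤ R := by nlinarith
    set m := ⌊R * r⌋₊ with hm
    have m1 : (m : ℝ) ≤ R * r := Nat.floor_le (by linarith)
    have m2 : R * r / 2 ≤ m := by linarith [Nat.lt_floor_add_one (R * r)]
    have m3 : (m : ℝ) ≤ R := by nlinarith
    let P : ℕ → ℤ := fun i => ⌈((R + i : ℤ) : ℝ) * (x - r)⌉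
    set S := Finset.range R ×ˢ Finset.range m with hS
    have hqi : ∀ i < R, (R : ℝ) ≤ ((R + i : ℤ) : ℝ) ∧ ((R + i : ℤ) : ℝ) ≤ 2 * R := fun i hi => by
      have : (i : ℝ) < R := by exact_mod_cast hi
      push_cast
      constructor <;> linarith [(Nat.cast_nonneg i : (0 : ℝ) ≤ i)]
    have hsum : ∑ a ∈ S, ψ (R + a.1) (P a.1 + a.2) ≤ R * (c * m) := by
      rw [Finset.sum_product]
      have := Finset.sum_le_card_nsmul (Finset.range R)
        (fun i => ∑ j ∈ Finset.range m, ψ (R + i) (P i + j)) (c * m) fun i hi => by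
          obtain ⟨a1, a2⟩ := hqi i (Finset.mem_range.1 hi)
          refine hq₀ _ (by exact_mod_cast (hR1.le.trans a1)) _ ?_ m (by nlinarith) (by linarith)
          have b1 := Int.le_ceil (((R + i : ℤ) : ℝ) * (x - r))
          have b2 := Int.ceil_lt_add_one (((R + i : ℤ) : ℝ) * (x - r))
          have b3 := le_abs_self (x - r)
          have b4 := neg_abs_le (x - r)
          rw [abs_le]
          constructor <;> nlinarith
      simpa using this
    have hbad : ((S.filter fun a => 8 * c < ψ (R + a.1) (P a.1 + a.2)).card : ℝ) ≤ R * m / 8 := by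
      have h1 := Finset.card_nsmul_le_sum (S.filter fun a => 8 * c < ψ (R + a.1) (P a.1 + a.2))
        (fun a => ψ (R + a.1) (P a.1 + a.2)) (8 * c) fun a ha => (Finset.mem_filter.1 ha).2.le
      have h2 := Finset.sum_le_sum_of_subset_of_nonneg (Finset.filter_subset
        (fun a => 8 * c < ψ (R + a.1) (P a.1 + a.2)) S)
        (f := fun a => ψ (R + a.1) (P a.1 + a.2)) fun a _ _ => h0 _ _
      rw [nsmul_eq_mul] at h1
      nlinarith
    have hnc := card_noncoprime_le P R m (by exact_mod_cast m3) (η := r / 256) (by positivity)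
    set G := S.filter fun a => ψ (R + a.1) (P a.1 + a.2) ≤ 8 * c ∧
      Int.gcd (R + a.1) (P a.1 + a.2) = 1 with hG
    have hcard : (R : ℝ) * m / 16 ≤ G.card := by
      have h1 : S ⊆ G ∪ (S.filter (fun a => 8 * c < ψ (R + a.1) (P a.1 + a.2)) ∪
          S.filter fun a : ℕ × ℕ => Int.gcd (R + a.1) (P a.1 + a.2) ≠ 1) := by
        intro a ha
        simp only [hG, Finset.mem_union, Finset.mem_filter, ha, true_and]
        by_cases e : Int.gcd (R + a.1) (P a.1 + a.2) = 1
        · rcases le_or_gt (ψ (R + a.1) (P a.1 + a.2)) (8 * c) with e' | e' <;> simp [e, e']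
        · simp [e]
      have h2 := (Finset.card_le_card h1).trans ((Finset.card_union_le _ _).trans
        (Nat.add_le_add_left (Finset.card_union_le _ _) _))
      rw [hS, Finset.card_product, Finset.card_range, Finset.card_range, ← hS] at h2
      have h3 : (R : ℝ) * m ≤ G.card + (((S.filter fun a => 8 * c < ψ (R + a.1) (P a.1 + a.2)).card : ℝ)
        + (S.filter fun a : ℕ × ℕ => Int.gcd (R + a.1) (P a.1 + a.2) ≠ 1).card) := by
        exact_mod_cast h2
      have h4 : 2 / (r / 256) = 2 * (1 / (r / 256)) := by ring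
      rw [h4] at hR3
      nlinarith [mul_le_mul_of_nonneg_left m2 (show (0 : ℝ) ≤ R by linarith),
        mul_le_mul_of_nonneg_left hR3.le (show (0 : ℝ) ≤ R by linarith)]
    set l := 1 / (K * (2 * R) ^ 2) with hl
    have hl0 : 0 < l := by positivity
    let I : ℕ × ℕ → Set ℝ := fun a => Ioo (((P a.1 + a.2 : ℤ) : ℝ) / ((R + a.1 : ℤ) : ℝ))
      (((P a.1 + a.2 : ℤ) : ℝ) / ((R + a.1 : ℤ) : ℝ) + l)
    have hmem : ∀ a ∈ G, a.1 < R ∧ a.2 < m := fun a ha => by
      have := Finset.mem_product.1 (Finset.mem_filter.1 ha).1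
      exact ⟨Finset.mem_range.1 this.1, Finset.mem_range.1 this.2⟩
    have hl1 : l ≤ 1 / (2 * R * (2 * R)) := by
      refine one_div_le_one_div_of_le (by positivity) ?_
      nlinarith
    have hsub : ⋃ a ∈ G, I a ⊆ E ∩ closedBall x r := by
      refine iUnion₂_subset fun a ha s hs => ⟨?_, ?_⟩
      · obtain ⟨a1, a2⟩ := hqi a.1 (hmem a ha).1
        refine ⟨R + a.1, P a.1 + a.2, by exact_mod_cast (hR2.le.trans a1),
          (Finset.mem_filter.1 ha).2.1, hs.1, hs.2.trans_le (add_le_add_right ?_ _)⟩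
        have a0 : (0 : ℝ) < ((R + a.1 : ℤ) : ℝ) := by linarith
        refine one_div_le_one_div_of_le (mul_pos (by linarith) (pow_pos a0 2)) ?_
        gcongr
      · obtain ⟨a1, a2⟩ := hqi a.1 (hmem a ha).1
        have a3 : (a.2 : ℝ) + 1 ≤ m := by exact_mod_cast (hmem a ha).2
        have a0 : (0 : ℝ) < ((R + a.1 : ℤ) : ℝ) := by linarith
        have b1 := Int.le_ceil (((R + a.1 : ℤ) : ℝ) * (x - r))
        have b2 := Int.ceil_lt_add_one (((R + a.1 : ℤ) : ℝ) * (x - r))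
        have c1 : x - r ≤ ((P a.1 + a.2 : ℤ) : ℝ) / ((R + a.1 : ℤ) : ℝ) := by
          rw [le_div_iff₀ a0, Int.cast_add (P a.1), Int.cast_natCast]
          linarith [(Nat.cast_nonneg a.2 : (0 : ℝ) ≤ a.2)]
        have c2 : ((P a.1 + a.2 : ℤ) : ℝ) / ((R + a.1 : ℤ) : ℝ) ≤ x := by
          rw [div_le_iff₀ a0, Int.cast_add (P a.1), Int.cast_natCast]
          nlinarith
        have c3 : l ≤ r := by
          refine hl1.trans ?_
          rw [div_le_iff₀ (by positivity)]
          nlinarith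
        rw [Real.closedBall_eq_Icc]
        exact ⟨by linarith [hs.1], by linarith [hs.2]⟩
    have hdis : (G : Set (ℕ × ℕ)).PairwiseDisjoint I := by
      intro a ha b hb hab
      obtain ⟨a1, a2⟩ := hqi a.1 (hmem a ha).1
      obtain ⟨b1, b2⟩ := hqi b.1 (hmem b hb).1
      have a0 : (0 : ℝ) < ((R + a.1 : ℤ) : ℝ) := by linarith
      have b0 : (0 : ℝ) < ((R + b.1 : ℤ) : ℝ) := by linarith
      have := frac_sep (by exact_mod_cast a0) (by exact_mod_cast b0) (Finset.mem_filter.1 ha).2.2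
        (Finset.mem_filter.1 hb).2.2 (by
          intro e
          have e1 : a.1 = b.1 := by have := congrArg Prod.fst e; simp only at this; omega
          have e2 := congrArg Prod.snd e
          simp only [e1] at e2
          exact hab (Prod.ext e1 (by omega)))
      have h2 : l ≤ 1 / (((R + a.1 : ℤ) : ℝ) * ((R + b.1 : ℤ) : ℝ)) :=
        hl1.trans (one_div_le_one_div_of_le (by positivity) (by gcongr))
      rw [Function.onFun, Set.disjoint_left]
      intro s h3 h4
      have := h2.trans this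
      rcases le_abs.1 this with h5 | h5 <;> linarith [h3.1, h3.2, h4.1, h4.2]
    refine le_trans ?_ (measureReal_mono hsub
      (ne_top_of_le_ne_top measure_closedBall_lt_top.ne (measure_mono inter_subset_right)))
    rw [measureReal_biUnion_finset hdis (fun _ _ => measurableSet_Ioo)
      fun _ _ => measure_Ioo_lt_top.ne]
    simp only [I, Real.volume_real_Ioo, add_sub_cancel_left, max_eq_left hl0.le, Finset.sum_const,
      nsmul_eq_mul]
    refine le_trans (le_of_eq ?_) (mul_le_mul_of_nonneg_right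
      ((show R * (R * r / 2) / 16 ≤ (R : ℝ) * m / 16 by gcongr).trans hcard) hl0.le)
    rw [hl]; field_simp; ring
  have hd := Besicovitch.ae_tendsto_measure_inter_div (volume : Measure ℝ) Eᶜ
  have : (volume : Measure ℝ).restrict Eᶜ = 0 := by
    rw [← ae_eq_bot, ← eventually_false_iff_eq_bot]
    filter_upwards [hd] with x hx
    have h1 := (ENNReal.tendsto_toReal ENNReal.one_ne_top).comp hx
    have h2 : (1 : ENNReal).toReal ≤ 1 - 1 / (256 * K) := by
      refine le_of_tendsto h1 ?_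
      filter_upwards [Ioc_mem_nhdsGT one_pos] with r hr
      have e1 := low x r hr.1 hr.2
      have e2 := measureReal_inter_add_diff (μ := (volume : Measure ℝ)) (s := closedBall x r)
        hEo.measurableSet measure_closedBall_lt_top.ne
      have e3 : (volume : Measure ℝ).real (closedBall x r) = 2 * r := by
        rw [Measure.real, Real.volume_closedBall, ENNReal.toReal_ofReal (by linarith [hr.1])]
      rw [inter_comm, diff_eq_compl_inter, e3] at e2
      simp only [Function.comp, ENNReal.toReal_div]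
      rw [← Measure.real, ← Measure.real, e3, div_le_iff₀ (by linarith [hr.1])]
      have : (1 - 1 / (256 * K)) * (2 * r) = 2 * r - r / (128 * K) := by field_simp; ring
      linarith
    have : 0 < 1 / (256 * K) := by positivity
    simp only [ENNReal.toReal_one] at h2
    linarith
  rw [Measure.restrict_eq_zero] at this
  exact this

end Pool.Agent.MP_d0b2d2_an
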