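import Pool.Agent.MP_d0b2d2_an.Len

open MeasureTheory Set Filter Topology Metric Real

namespace Pool.Agent.MP_d0b2d2_an

lemma vel_cross (a b c d θ θ' : ℝ) :
    (vel a b c d θ).1 * (vel a b c d θ').2 - (vel a b c d θ).2 * (vel a b c d θ').1 =
      (a * d - b * c) * sin (2 * π * θ' - 2 * π * θ) := by
  simp only [vel, sin_sub]; ring

lemma vel_inj {a b c d : ℝ} (hD : a * d - b * c ≠ 0) {x θ θ' : ℝ} (h : θ ∈ ball x (1 / 4))
    (h' : θ' ∈ ball x (1 / 4))
    (e : (vel a b c d θ).1 * (vel a b c d θ').2 = (vel a b c d θ).2 * (vel a b c d θ').1) :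
    θ = θ' := by
  have h1 := vel_cross a b c d θ θ'
  rw [e, sub_self] at h1
  have h2 := (mul_eq_zero.1 h1.symm).resolve_left hD
  rw [mem_ball, Real.dist_eq, abs_lt] at h h'
  have := (sin_eq_zero_iff_of_lt_of_lt (by nlinarith [pi_pos, h.1, h.2, h'.1, h'.2])
    (by nlinarith [pi_pos, h.1, h.2, h'.1, h'.2])).1 h2
  have h3 : 2 * π * (θ' - θ) = 0 := by linarith
  have h4 := (mul_eq_zero.1 h3).resolve_left (by positivity)
  linarith

lemma continuous_vel (a b c d : ℝ) : Continuous (vel a b c d) := by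
  unfold vel; fun_prop

noncomputable def slp (a b c d θ : ℝ) : ℝ := (vel a b c d θ).2 / (vel a b c d θ).1

lemma measurable_slp (a b c d : ℝ) : Measurable (slp a b c d) :=
  (continuous_vel a b c d).snd.measurable.div (continuous_vel a b c d).fst.measurable

lemma hasDerivAt_slp {a b c d θ : ℝ} (h : (vel a b c d θ).1 ≠ 0) :
    HasDerivAt (slp a b c d) (2 * π * (a * d - b * c) / (vel a b c d θ).1 ^ 2) θ := by
  have hc := ((hasDerivAt_id θ).const_mul (2 * π)).cos
  have hs := ((hasDerivAt_id θ).const_mul (2 * π)).sin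
  have := ((hc.const_mul c).add (hs.const_mul d)).div ((hc.const_mul a).add (hs.const_mul b)) h
  refine HasDerivAt.congr_deriv this ?_
  simp only [id, Pi.add_apply, vel]
  congr 1
  linear_combination (2 * π * (a * d - b * c)) * sin_sq_add_cos_sq (2 * π * θ)

lemma ae_slp {a b c d : ℝ} (hD : a * d - b * c ≠ 0) {p : ℝ → Prop} (hp : ∀ᵐ s, p s) :
    ∀ᵐ θ : ℝ, (vel a b c d θ).1 ≠ 0 ∧ p (slp a b c d θ) := by
  obtain ⟨N, hsub, hN, hN0⟩ := exists_measurable_superset_of_null (ae_iff.1 hp)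
  have h1 : volume {θ : ℝ | (vel a b c d θ).1 = 0} = 0 := by
    refine measure_null_of_locally_null _ fun x _ => ⟨_, inter_mem_nhdsWithin _
      (ball_mem_nhds x (by norm_num : (0 : ℝ) < 1 / 4)), Set.Subsingleton.measure_zero ?_ _⟩
    intro θ h θ' h'
    exact vel_inj hD h.2 h'.2 (by rw [show (vel a b c d θ).1 = 0 from h.1,
      show (vel a b c d θ').1 = 0 from h'.1]; simp)
  have h2 : volume ({θ : ℝ | (vel a b c d θ).1 ≠ 0} ∩ slp a b c d ⁻¹' N) = 0 := by
    refine measure_null_of_locally_null _ fun x _ => ⟨_, inter_mem_nhdsWithin _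
      (ball_mem_nhds x (by norm_num : (0 : ℝ) < 1 / 4)), ?_⟩
    set S := {θ : ℝ | (vel a b c d θ).1 ≠ 0} ∩ slp a b c d ⁻¹' N ∩ ball x (1 / 4)
    have hS : MeasurableSet S := (((isOpen_ne_fun (continuous_vel a b c d).fst
      continuous_const).measurableSet).inter (measurable_slp a b c d hN)).inter measurableSet_ball
    have := lintegral_image_eq_lintegral_abs_deriv_mul hS (f := slp a b c d)
      (fun θ h => (hasDerivAt_slp h.1.1).hasDerivWithinAt) (fun θ h θ' h' e => vel_inj hD h.2 h'.2 (by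
        have e1 : (vel a b c d θ).1 ≠ 0 := h.1.1
        have e2 : (vel a b c d θ').1 ≠ 0 := h'.1.1
        unfold slp at e
        rw [div_eq_div_iff e1 e2] at e
        linarith)) (fun _ => 1)
    rw [setLIntegral_one, measure_mono_null (by rintro _ ⟨θ, h, rfl⟩; exact h.1.2) hN0, eq_comm,
      setLIntegral_eq_zero_iff hS (by
        have := (continuous_vel a b c d).fst.measurable
        fun_prop)] at this
    rw [← Measure.restrict_eq_zero, ← ae_eq_bot, ← eventually_false_iff_eq_bot,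
      ae_restrict_iff' hS]
    filter_upwards [this] with θ h hθ
    have h3 := h hθ
    have e1 : (vel a b c d θ).1 ≠ 0 := hθ.1.1
    simp only [mul_one, ENNReal.ofReal_eq_zero, abs_nonpos_iff] at h3
    exact div_ne_zero (mul_ne_zero (by positivity) hD) (pow_ne_zero 2 e1) h3
  filter_upwards [measure_eq_zero_iff_ae_notMem.1 h1, measure_eq_zero_iff_ae_notMem.1 h2]
    with θ e1 e2
  exact ⟨e1, by_contra fun h => e2 ⟨e1, hsub h⟩⟩

lemma exists_cvx {α β γ : ℝ} (hα : 0 < α) (hΔ : 0 < α * γ - β ^ 2) :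
    ∃ n₁ n₂ g g₁, Cvx (fun s => √(α * s ^ 2 + 2 * β * s + γ)) n₁ n₂ g g₁ ∧
      (∀ s, 0 < √(α * s ^ 2 + 2 * β * s + γ)) ∧
      ∀ s s', |√(α * s ^ 2 + 2 * β * s + γ) - √(α * s' ^ 2 + 2 * β * s' + γ)| ≤ √α * |s - s'| := by
  set n : ℝ → ℝ := fun s => √(α * s ^ 2 + 2 * β * s + γ) with hn
  have hQ : ∀ s, 0 < α * s ^ 2 + 2 * β * s + γ := fun s => by
    have : 0 < α * (α * s ^ 2 + 2 * β * s + γ) := by nlinarith [sq_nonneg (α * s + β)]
    exact (mul_pos_iff_of_pos_left hα).1 this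
  have n0 : ∀ s, 0 < n s := fun s => sqrt_pos.2 (hQ s)
  have n2 : ∀ s, n s ^ 2 = α * s ^ 2 + 2 * β * s + γ := fun s => sq_sqrt (hQ s).le
  have d1 : ∀ s, HasDerivAt n ((α * s + β) / n s) s := fun s => by
    have := (((((hasDerivAt_id s).pow 2).const_mul α).add ((hasDerivAt_id s).const_mul
      (2 * β))).add_const γ).sqrt (hQ s).ne'
    have e : (α * s + β) / n s = (α * (((2 : ℕ) : ℝ) * s ^ (2 - 1) * 1) + 2 * β * 1) / (2 * n s) := by
      have := (n0 s).ne'
      field_simp; norm_num; ring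
    rw [e]; exact this
  have cn : Continuous n := continuous_iff_continuousAt.2 fun s => (d1 s).continuousAt
  refine ⟨fun s => (α * s + β) / n s, fun s => (α * γ - β ^ 2) / n s ^ 3,
    fun s => n s ^ 3 / (α * γ - β ^ 2), fun s => 3 * n s * (α * s + β) / (α * γ - β ^ 2),
    ⟨d1, fun s => ?_, fun s => ?_, ?_, by fun_prop, fun s => ?_⟩, n0, fun s s' => ?_⟩
  · have := (((hasDerivAt_id s).const_mul α).add_const β).div (d1 s) (n0 s).ne'
    have e : (α * γ - β ^ 2) / n s ^ 3 =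
        (α * 1 * n s - (α * s + β) * ((α * s + β) / n s)) / n s ^ 2 := by
      have := (n0 s).ne'
      field_simp
      rw [n2]; ring
    rw [e]; exact this
  · have := ((d1 s).pow 3).div_const (α * γ - β ^ 2)
    have e : 3 * n s * (α * s + β) / (α * γ - β ^ 2) =
        ((3 : ℕ) : ℝ) * n s ^ (3 - 1) * ((α * s + β) / n s) / (α * γ - β ^ 2) := by
      have := (n0 s).ne'
      field_simp; norm_num; ring
    rw [e]; exact this
  · exact continuous_const.div (cn.pow 3) fun s => (pow_pos (n0 s) 3).ne'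
  · have := (n0 s).ne'
    field_simp
  · refine convex_univ.norm_image_sub_le_of_norm_hasDerivWithin_le (C := √α)
      (fun x _ => (d1 x).hasDerivWithinAt) (fun x _ => ?_) (mem_univ s') (mem_univ s)
    rw [Real.norm_eq_abs, abs_div, abs_of_pos (n0 x), div_le_iff₀ (n0 x), hn, ← sqrt_mul hα.le]
    exact abs_le_sqrt (by nlinarith)

/-- the flat length of the vector `(1, s)` -/
noncomputable def len (a b c d s : ℝ) : ℝ :=
  √((a ^ 2 + b ^ 2) / (a * d - b * c) ^ 2 * s ^ 2 + 2 * (-(a * c + b * d) / (a * d - b * c) ^ 2) * s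
    + (c ^ 2 + d ^ 2) / (a * d - b * c) ^ 2)

lemma len_cvx {a b c d : ℝ} (hD : a * d - b * c ≠ 0) : ∃ n₁ n₂ g g₁ L, 0 ≤ L ∧
    Cvx (len a b c d) n₁ n₂ g g₁ ∧ (∀ s, 0 < len a b c d s) ∧
      ∀ s s', |len a b c d s - len a b c d s'| ≤ L * |s - s'| := by
  have h1 : 0 < a ^ 2 + b ^ 2 := by
    by_contra h
    have ha : a = 0 := by nlinarith [sq_nonneg a, sq_nonneg b]
    have hb : b = 0 := by nlinarith [sq_nonneg a, sq_nonneg b]
    exact hD (by rw [ha, hb]; ring)
  obtain ⟨n₁, n₂, g, g₁, h, h'⟩ := exists_cvx (α := (a ^ 2 + b ^ 2) / (a * d - b * c) ^ 2)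
    (β := -(a * c + b * d) / (a * d - b * c) ^ 2) (γ := (c ^ 2 + d ^ 2) / (a * d - b * c) ^ 2)
    (by positivity) (by
      have : (a ^ 2 + b ^ 2) / (a * d - b * c) ^ 2 * ((c ^ 2 + d ^ 2) / (a * d - b * c) ^ 2) -
          (-(a * c + b * d) / (a * d - b * c) ^ 2) ^ 2 = 1 / (a * d - b * c) ^ 2 := by
        field_simp; ring
      rw [this]; positivity)
  exact ⟨n₁, n₂, g, g₁, _, sqrt_nonneg _, h, h'⟩

lemma len_slp {a b c d : ℝ} (hD : a * d - b * c ≠ 0) {θ : ℝ} (h : (vel a b c d θ).1 ≠ 0) :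
    |(vel a b c d θ).1| * len a b c d (slp a b c d θ) = 1 := by
  rw [← sqrt_sq_eq_abs, len, ← sqrt_mul (sq_nonneg _), sqrt_eq_one, slp]
  field_simp
  simp only [vel]
  linear_combination (a * d - b * c) ^ 2 * sin_sq_add_cos_sq (2 * π * θ)

lemma norm_vel_le (a b c d θ : ℝ) : ‖vel a b c d θ‖ ≤ |a| + |b| + |c| + |d| := by
  have h : ∀ x y : ℝ, |x * cos (2 * π * θ) + y * sin (2 * π * θ)| ≤ |x| + |y| := fun x y => by
    refine (abs_add_le _ _).trans (add_le_add ?_ ?_) <;> rw [abs_mul]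
    · exact mul_le_of_le_one_right (abs_nonneg _) (abs_cos_le_one _)
    · exact mul_le_of_le_one_right (abs_nonneg _) (abs_sin_le_one _)
  rw [Prod.norm_def, max_le_iff]
  exact ⟨by linarith [h a b, abs_nonneg c, abs_nonneg d, Real.norm_eq_abs (vel a b c d θ).1,
    show |(vel a b c d θ).1| ≤ |a| + |b| from h a b],
    by linarith [abs_nonneg a, abs_nonneg b, Real.norm_eq_abs (vel a b c d θ).2,
    show |(vel a b c d θ).2| ≤ |c| + |d| from h c d]⟩

lemma approx {w : ℝ × ℝ} {n : ℝ → ℝ} {L W K : ℝ} (hL : 0 ≤ L) (hK : 1 ≤ K)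
    (hn : ∀ s s', |n s - n s'| ≤ L * |s - s'|) (hw : w.1 ≠ 0) (hW : ‖w‖ ≤ W)
    (h1 : |w.1| * n (w.2 / w.1) = 1) {q p : ℤ} (hq : 0 < q)
    (hs : w.2 / w.1 ∈ Ioo ((p : ℝ) / q) (p / q + 1 / (K * q ^ 2))) (hp : 0 < n (p / q)) :
    ∃ k l : ℤ, k * w.2 - l * w.1 ≠ 0 ∧ q * n (p / q) * |k * w.2 - l * w.1| ≤ (1 + L * W) / K ∧
      ‖(q * n (p / q)) • w - ((k : ℝ), (l : ℝ))‖ ≤ (1 + L * W) / q := by
  set s := w.2 / w.1 with hsd
  have hq1 : (1 : ℝ) ≤ q := by exact_mod_cast hq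
  have hq0 : (0 : ℝ) < q := by linarith
  have hw2 : w.2 = s * w.1 := (div_mul_cancel₀ _ hw).symm
  obtain ⟨σ, hσ, hσ'⟩ : ∃ σ : ℤ, (σ : ℝ) * w.1 = |w.1| ∧ |(σ : ℝ)| = 1 := by
    rcases le_total 0 w.1 with h | h
    · exact ⟨1, by simp [abs_of_nonneg h], by simp⟩
    · exact ⟨-1, by simp [abs_of_nonpos h], by simp⟩
  have hw0 : 0 < |w.1| := abs_pos.2 hw
  have hW1 : |w.1| ≤ W := (norm_fst_le w).trans hW
  have hW0 : 0 ≤ W := (norm_nonneg _).trans hW
  have a1 : 0 < q * s - p := by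
    have := hs.1; rw [div_lt_iff₀ hq0] at this; linarith
  have a0 : s - p / q ≤ 1 / (K * q ^ 2) := by linarith [hs.2]
  have a2 : q * s - p ≤ 1 / (K * q) := by
    have h2 := mul_le_mul_of_nonneg_left a0 hq0.le
    have e1 : q * (s - p / q) = q * s - p := by field_simp
    have e2 : (q : ℝ) * (1 / (K * q ^ 2)) = 1 / (K * q) := by field_simp
    linarith
  have a3 : |n (p / q) - n s| ≤ L * (1 / q ^ 2) := by
    refine (hn _ _).trans (mul_le_mul_of_nonneg_left ?_ hL)
    rw [abs_sub_comm, abs_of_pos (by linarith [hs.1])]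
    exact a0.trans (one_div_le_one_div_of_le (by positivity) (by nlinarith))
  have a4 : 1 / (q : ℝ) ^ 2 ≤ 1 := by rw [div_le_one (by positivity)]; nlinarith
  have e1 : ((σ * q : ℤ) : ℝ) * w.2 - (σ * p : ℤ) * w.1 = |w.1| * (q * s - p) := by
    push_cast; rw [hw2, ← hσ]; ring
  refine ⟨σ * q, σ * p, by rw [e1]; positivity, ?_, ?_⟩
  · rw [e1, abs_of_pos (mul_pos hw0 a1)]
    have b1 : n (p / q) * |w.1| ≤ 1 + L * W := by
      have : n (p / q) ≤ n s + L := by nlinarith [(abs_le.1 a3).2]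
      nlinarith [mul_le_mul_of_nonneg_right this hw0.le, mul_le_mul_of_nonneg_left hW1 hL]
    calc _ = n (p / q) * |w.1| * (q * (q * s - p)) := by ring
      _ ≤ (1 + L * W) * (q * (1 / (K * q))) := by gcongr
      _ = _ := by field_simp
  · have σ2 : (σ : ℝ) * σ = 1 := by rw [← abs_mul_abs_self, hσ', one_mul]
    have e3 : n s * w.1 = σ := by
      have : σ * (σ * w.1 * n s) = σ := by rw [hσ, h1, mul_one]
      rw [← this]; linear_combination (-(n s * w.1)) * σ2
    have e2 : (q * n (p / q)) • w - (((σ * q : ℤ) : ℝ), ((σ * p : ℤ) : ℝ)) =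
        (q * (n (p / q) - n s)) • w + (0, σ * (q * s - p)) := by
      ext
      · simp only [Prod.fst_sub, Prod.smul_fst, smul_eq_mul, Prod.fst_add]
        push_cast; linear_combination q * e3
      · simp only [Prod.snd_sub, Prod.smul_snd, smul_eq_mul, Prod.snd_add]
        push_cast; rw [hw2]; linear_combination q * s * e3
    rw [e2]
    refine (norm_add_le _ _).trans ?_
    have b1 : ‖(q * (n (p / q) - n s)) • w‖ ≤ q * (L * (1 / q ^ 2)) * W := by
      rw [norm_smul, Real.norm_eq_abs, abs_mul, abs_of_pos hq0]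
      gcongr
    have b2 : ‖((0, σ * (q * s - p)) : ℝ × ℝ)‖ ≤ 1 / q := by
      rw [Prod.norm_def, norm_zero, max_eq_right (norm_nonneg _), Real.norm_eq_abs, abs_mul, hσ',
        one_mul, abs_of_pos a1]
      exact a2.trans (one_div_le_one_div_of_le hq0 (by nlinarith))
    have : (1 + L * W) / q = q * (L * (1 / q ^ 2)) * W + 1 / q := by field_simp; ring
    linarith

end Pool.Agent.MP_d0b2d2_an
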