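import Pool.Agent.MP_d0b2d2_an.Gen.RS

/-!
Equidistribution of pairs of trajectories on a product of two translation surfaces.
-/

set_option autoImplicit false

section StPart

open MeasureTheory Set Filter Topology

namespace Pool.Agent.MP_d0b2d2_an.Gen

/-- `σ` lies in windows of arbitrarily high level whose return time is good for `a` -/
def DjHit (th : ℕ → ℝ → Prop) (T l : ℕ → ℕ → ℝ) (p : ℕ → ℝ) (a : ℕ → ℝ → ℝ) (σ : ℝ) : Prop :=
  ∀ i : ℕ, ∃ J : ℕ, 1 ≤ J ∧ ∀ K : ℕ, ∃ k : ℕ, K ≤ k ∧ ∃ j : ℕ, th k (j / 4 ^ k) ∧ l k j ≤ σ ∧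
    σ ≤ l k j + p J / 4 ^ k ∧ a J (T k j) ≤ 1 / ((i : ℝ) + 1)

open Classical in
/-- Most slopes lie in infinitely many good windows. -/
def SDjMeas : Prop :=
  ∀ (th : ℕ → ℝ → Prop) (T l : ℕ → ℕ → ℝ) (p : ℕ → ℝ) (a : ℕ → ℝ → ℝ) (η₁ : ℝ),
    (∀ J, 1 ≤ J → 0 < p J) → (∀ k, dens k (fun σ => ¬ th k σ) ≤ η₁) →
    (∀ J k j : ℕ, th k (j / 4 ^ k) →
      (j : ℝ) / 4 ^ k ≤ l k j ∧ l k j + p J / 4 ^ k ≤ (j + 1) / 4 ^ k) →
    (∀ J k j : ℕ, th k (j / 4 ^ k) → 0 ≤ a J (T k j)) →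
    (∀ η > (0 : ℝ), ∃ J : ℕ, 1 ≤ J ∧ ∀ K : ℕ, ∃ k : ℕ, K ≤ k ∧
      ∑ j ∈ (Finset.range (4 ^ k)).filter (fun j : ℕ => th k (j / 4 ^ k)),
        1 / 4 ^ k * a J (T k j) ≤ η) →
    orthN {σ | ¬ DjHit th T l p a σ} ≤ ENNReal.ofReal η₁

/-- From products of functions along integer times to all continuous functions and real times. -/
def SDjTens : Prop :=
  ∀ (X Y : Type) [TopologicalSpace X] [T2Space X] [CompactSpace X] [MeasurableSpace X]
    [BorelSpace X] [SecondCountableTopology X] [TopologicalSpace Y] [T2Space Y] [CompactSpace Y]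
    [MeasurableSpace Y] [BorelSpace Y] [SecondCountableTopology Y] (μ : Measure X)
    [IsProbabilityMeasure μ] (ν : Measure Y) [IsProbabilityMeasure ν] (γ : ℝ → X) (γ' : ℝ → Y),
    Measurable γ → Measurable γ' →
    (∀ (f : C(X, ℝ)) (g : C(Y, ℝ)), Tendsto (avN fun t => f (γ t) * g (γ' t)) atTop
      (𝓝 ((∫ x, f x ∂μ) * ∫ y, g y ∂ν))) →
    ∀ H : C(X × Y, ℝ), Tendsto (fun T : ℝ => (∫ t in (0 : ℝ)..T, H (γ t, γ' t)) / T) atTop
      (𝓝 (∫ x, ∫ y, H (x, y) ∂ν ∂μ))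

/-- Time averages are not changed by an affine change of the time. -/
def SDjTime : Prop :=
  ∀ (F G : ℝ → ℝ) (M a b L : ℝ), Measurable G → (∀ t, |G t| ≤ M) → 0 < a → 0 ≤ b →
    (∀ t, 0 ≤ t → F t = G t) →
    Tendsto (fun T : ℝ => (∫ t in (0 : ℝ)..T, G (a * t + b)) / T) atTop (𝓝 L) →
    Tendsto (fun T : ℝ => (∫ t in (0 : ℝ)..T, F t) / T) atTop (𝓝 L)

/-- From the slopes of the eight sectors to the angles. -/
def SDjSect : Prop :=
  ∀ P : ℝ → ℝ → Prop, (∀ c, ∀ᵐ σ ∂orthN, P c σ) → ∀ᵐ θ ∂orthN, ∃ j : ℕ,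
    θ ∈ Ioo (((j : ℝ) + 1) / 8 - 1 / 8) (((j : ℝ) + 1) / 8) ∧
      P (((j : ℝ) + 1) / 8) (Real.tan (2 * Real.pi * (((j : ℝ) + 1) / 8 - θ)))

end Pool.Agent.MP_d0b2d2_an.Gen

end StPart

section MeasPart

open MeasureTheory Set Filter Topology

namespace Pool.Agent.MP_d0b2d2_an.Gen

/-- the slopes that miss all good windows of level at least `K` -/
def miss_Meas (th : ℕ → ℝ → Prop) (T l : ℕ → ℕ → ℝ) (p : ℕ → ℝ) (a : ℕ → ℝ → ℝ) (i J K : ℕ) :
    Set ℝ :=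
  {σ | ¬ ∃ k : ℕ, K ≤ k ∧ ∃ j : ℕ, th k (j / 4 ^ k) ∧ l k j ≤ σ ∧
    σ ≤ l k j + p J / 4 ^ k ∧ a J (T k j) ≤ 1 / ((i : ℝ) + 1)}

theorem meas_miss_Meas (th : ℕ → ℝ → Prop) (T l : ℕ → ℕ → ℝ) (p : ℕ → ℝ) (a : ℕ → ℝ → ℝ)
    (i J K : ℕ) : MeasurableSet (miss_Meas th T l p a i J K) := by
  have : miss_Meas th T l p a i J K = (⋃ k : ℕ, ⋃ j : ℕ,
      ⋃ _ : K ≤ k ∧ th k (j / 4 ^ k) ∧ a J (T k j) ≤ 1 / ((i : ℝ) + 1),
        Icc (l k j) (l k j + p J / 4 ^ k))ᶜ := by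
    ext σ
    simp only [miss_Meas, mem_ofPred_eq, mem_compl_iff, mem_iUnion, mem_Icc, exists_prop]
    refine not_congr ⟨?_, ?_⟩
    · rintro ⟨k, h1, j, h2, h3, h4, h5⟩
      exact ⟨k, j, ⟨h1, h2, h5⟩, h3, h4⟩
    · rintro ⟨k, j, ⟨h1, h2, h5⟩, h3, h4⟩
      exact ⟨k, h1, j, h2, h3, h4, h5⟩
  rw [this]
  exact (MeasurableSet.iUnion fun _ => MeasurableSet.iUnion fun _ =>
    MeasurableSet.iUnion fun _ => measurableSet_Icc).compl

theorem floor_grid_Meas (k j : ℕ) : ⌊(4 : ℝ) ^ k * ((j : ℝ) / 4 ^ k)⌋₊ = j := by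
  rw [mul_div_cancel₀ _ (by positivity), Nat.floor_natCast]

open Classical in
theorem bound_Meas {th : ℕ → ℝ → Prop} {T l : ℕ → ℕ → ℝ} {p : ℕ → ℝ} {a : ℕ → ℝ → ℝ} {η₁ κ : ℝ}
    {i J : ℕ} (hp : 0 < p J) (hd : ∀ k, dens k (fun σ => ¬ th k σ) ≤ η₁)
    (hl : ∀ k j : ℕ, th k (j / 4 ^ k) →
      (j : ℝ) / 4 ^ k ≤ l k j ∧ l k j + p J / 4 ^ k ≤ (j + 1) / 4 ^ k)
    (ha : ∀ k j : ℕ, th k (j / 4 ^ k) → 0 ≤ a J (T k j))
    (hJ : ∀ K : ℕ, ∃ k : ℕ, K ≤ k ∧
      ∑ j ∈ (Finset.range (4 ^ k)).filter (fun j : ℕ => th k (j / 4 ^ k)),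
        1 / 4 ^ k * a J (T k j) ≤ κ * (1 / ((i : ℝ) + 1))) (K : ℕ) :
    orthN.real (miss_Meas th T l p a i J K) ≤ η₁ + κ := by
  have hE := meas_miss_Meas th T l p a i J K
  have hg := orthBd_ind hE
  have hg0 : ∀ σ, 0 ≤ (miss_Meas th T l p a i J K).indicator (1 : ℝ → ℝ) σ := fun σ =>
    indicator_nonneg (fun _ _ => zero_le_one) σ
  refine le_of_forall_pos_le_add fun ε hε => ?_
  obtain ⟨K₀, hK₀⟩ := eventually_atTop.1 (orth_cells hg (mul_pos hp hε))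
  obtain ⟨k, hk, hsum⟩ := hJ (max K K₀)
  set P : ℝ → Prop := fun σ => th k σ ∧ a J (T k ⌊4 ^ k * σ⌋₊) ≤ 1 / ((i : ℝ) + 1) with hP
  obtain ⟨z, b1, hz⟩ : ∃ z : Finset ℕ,
      ∫ σ, (miss_Meas th T l p a i J K).indicator (1 : ℝ → ℝ) σ ∂orthN ≤
        ∫ σ in {σ | σ ∈ Ico (0 : ℝ) 1 ∧ ¬ P (tr k σ)},
          (miss_Meas th T l p a i J K).indicator (1 : ℝ → ℝ) σ ∂orthN +
        ∑ j ∈ z, ∫ σ in orthCell k j,
          (miss_Meas th T l p a i J K).indicator (1 : ℝ → ℝ) σ ∂orthN ∧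
      ∀ j ∈ z, j < 4 ^ k ∧ P (j / 4 ^ k) :=
    ⟨_, orth_split hg hg0 k P, fun j hj => by
      simpa only [Finset.mem_filter, Finset.mem_range] using hj⟩
  have b2 := hK₀ k ((le_max_right _ _).trans hk) z (l k) (p J) hp fun j hj =>
    ⟨(hz j hj).1, hl k j (hz j hj).2.1⟩
  have b3 : ∑ j ∈ z, ∫ σ in Ico (l k j) (l k j + p J / 4 ^ k),
      (miss_Meas th T l p a i J K).indicator (1 : ℝ → ℝ) σ ∂orthN = 0 := by
    refine Finset.sum_eq_zero fun j hj => setIntegral_eq_zero_of_forall_eq_zero fun σ hσ => ?_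
    have h1 := (hz j hj).2
    have h2 := h1.2
    rw [floor_grid_Meas] at h2
    have h3 : σ ∉ miss_Meas th T l p a i J K := fun h =>
      h ⟨k, (le_max_left _ _).trans hk, j, h1.1, hσ.1, hσ.2.le, h2⟩
    exact indicator_of_notMem h3 _
  rw [b3, zero_add] at b2
  have b4 := le_of_mul_le_mul_left b2 hp
  obtain ⟨hm, hv⟩ := volume_tr k fun σ => ¬ P σ
  have b5 : ∫ σ in {σ | σ ∈ Ico (0 : ℝ) 1 ∧ ¬ P (tr k σ)},
      (miss_Meas th T l p a i J K).indicator (1 : ℝ → ℝ) σ ∂orthN ≤ dens k fun σ => ¬ P σ := by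
    refine (setIntegral_mono_on hg.int.integrableOn (integrable_const (1 : ℝ)).integrableOn hm
      fun σ _ => indicator_le_self' (fun _ _ => zero_le_one) σ).trans (le_of_eq ?_)
    rw [setIntegral_const, smul_eq_mul, mul_one, orthN_eq, measureReal_restrict_apply hm,
      inter_eq_left.2 fun σ h => h.1, hv]
  have ht : (0 : ℝ) < 1 / ((i : ℝ) + 1) := by positivity
  have b6 := dens_markov (m := k)
    (f := fun τ => if th k τ then max 0 (a J (T k ⌊4 ^ k * τ⌋₊)) else 0)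
    (fun τ => by split_ifs <;> simp) (A := κ * (1 / ((i : ℝ) + 1))) ht (by
      rw [← Finset.sum_filter, ← Finset.mul_sum, one_div_mul_eq_div,
        div_le_iff₀ (by positivity), mul_comm _ ((4 : ℝ) ^ k)] at *
      refine le_trans (le_of_eq (Finset.sum_congr rfl fun j hj => ?_)) hsum
      rw [floor_grid_Meas, max_eq_right (ha k j (Finset.mem_filter.1 hj).2)])
  rw [mul_div_cancel_right₀ _ ht.ne'] at b6
  have b7 : (dens k fun σ => ¬ P σ) ≤ η₁ + κ := by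
    refine le_trans (dens_mono fun j _ h => ?_) ((dens_or k _ _).trans (add_le_add (hd k) b6))
    by_cases h1 : th k (j / 4 ^ k)
    · refine Or.inr ?_
      rw [if_pos h1]
      exact le_max_of_le_right (not_le.1 fun h2 => h ⟨h1, h2⟩).le
    · exact Or.inl h1
  rw [integral_indicator_one hE] at b1
  linarith

theorem s_djMeas : SDjMeas := by
  intro th T l p a η₁ hp hd hl ha hs
  have hη : 0 ≤ η₁ := (dens_nonneg 0 _).trans (hd 0)
  set Bad : ℕ → Set ℝ := fun i => {σ | ∀ J, 1 ≤ J → ∃ K, σ ∈ miss_Meas th T l p a i J K} with hBad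
  have hmono : Monotone Bad := by
    intro i i' hi σ h J hJ
    obtain ⟨K, hK⟩ := h J hJ
    refine ⟨K, fun ⟨k, h1, j, h2, h3, h4, h5⟩ => hK ⟨k, h1, j, h2, h3, h4, h5.trans ?_⟩⟩
    have : (i : ℝ) ≤ i' := by exact_mod_cast hi
    gcongr
  have hsub : {σ | ¬ DjHit th T l p a σ} ⊆ ⋃ i, Bad i := by
    intro σ hσ
    by_contra hn
    refine hσ fun i => ?_
    by_contra h1
    refine hn (mem_iUnion.2 ⟨i, fun J hJ => ?_⟩)
    by_contra h2
    refine h1 ⟨J, hJ, fun K => ?_⟩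
    by_contra h3
    exact h2 ⟨K, h3⟩
  refine (measure_mono hsub).trans ?_
  rw [hmono.measure_iUnion]
  refine iSup_le fun i => ENNReal.le_of_forall_pos_le_add fun κ hκ _ => ?_
  have hκ' : (0 : ℝ) < κ := hκ
  obtain ⟨J, hJ, hK⟩ := hs (κ * (1 / ((i : ℝ) + 1))) (by positivity)
  have hm2 : Monotone (miss_Meas th T l p a i J) := fun K K' h σ hσ ⟨k, h1, h2⟩ =>
    hσ ⟨k, h.trans h1, h2⟩
  have hsub2 : Bad i ⊆ ⋃ K, miss_Meas th T l p a i J K := fun σ h => mem_iUnion.2 (h J hJ)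
  refine (measure_mono hsub2).trans ?_
  rw [hm2.measure_iUnion]
  refine iSup_le fun K => ?_
  rw [← ofReal_measureReal (measure_ne_top _ _), ← ENNReal.ofReal_coe_nnreal,
    ← ENNReal.ofReal_add hη hκ'.le]
  exact ENNReal.ofReal_le_ofReal (bound_Meas (hp J hJ) hd (hl J) (ha J) hK K)

end Pool.Agent.MP_d0b2d2_an.Gen

end MeasPart

section TensPart

open MeasureTheory Set Filter Topology

namespace Pool.Agent.MP_d0b2d2_an.Gen

theorem real_Tens {F : ℝ → ℝ} {M L : ℝ} (hF : Measurable F) (hM : ∀ t, |F t| ≤ M)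
    (h : Tendsto (avN F) atTop (𝓝 L)) :
    Tendsto (fun T : ℝ => (∫ t in (0 : ℝ)..T, F t) / T) atTop (𝓝 L) := by
  have h1 := (h.comp (tendsto_nat_floor_atTop (α := ℝ))).mul (tendsto_nat_floor_div_atTop (R := ℝ))
  have h2 : Tendsto (fun T : ℝ => (∫ t in (⌊T⌋₊ : ℝ)..T, F t) / T) atTop (𝓝 0) := by
    refine squeeze_zero_norm' ?_ (tendsto_const_nhds (x := M).div_atTop tendsto_id)
    filter_upwards [eventually_gt_atTop 0] with T hT
    rw [norm_div, Real.norm_of_nonneg hT.le]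
    refine div_le_div_of_nonneg_right ?_ hT.le
    refine (intervalIntegral.norm_integral_le_of_norm_le_const (C := M) fun s _ => hM s).trans ?_
    refine mul_le_of_le_one_right ((abs_nonneg _).trans (hM 0)) (abs_le.2 ⟨?_, ?_⟩)
    · linarith [Nat.floor_le hT.le]
    · linarith [Nat.lt_floor_add_one T]
  have h3 := h1.add h2
  rw [mul_one, add_zero] at h3
  refine h3.congr' ?_
  filter_upwards [eventually_ge_atTop 1] with T hT
  have hn : ((⌊T⌋₊ : ℕ) : ℝ) ≠ 0 := Nat.cast_ne_zero.2 (Nat.floor_pos.2 hT).ne'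
  rw [Function.comp, avN, div_mul_div_cancel₀ hn, ← add_div,
    intervalIntegral.integral_add_adjacent_intervals (ii_bdd hF hM _ _) (ii_bdd hF hM _ _)]

/-- the products of a function of the first and a function of the second coordinate -/
def prods_Tens (X Y : Type) [TopologicalSpace X] [TopologicalSpace Y] : Set C(X × Y, ℝ) :=
  {H | ∃ (f : C(X, ℝ)) (g : C(Y, ℝ)), ∀ p, H p = f p.1 * g p.2}

theorem dense_Tens {X Y : Type} [TopologicalSpace X] [T2Space X] [CompactSpace X]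
    [TopologicalSpace Y] [T2Space Y] [CompactSpace Y] (H : C(X × Y, ℝ)) {ε : ℝ} (hε : 0 < ε) :
    ∃ G ∈ Submodule.span ℝ (prods_Tens X Y), ‖G - H‖ < ε := by
  let A : Subalgebra ℝ C(X × Y, ℝ) := (Submodule.span ℝ (prods_Tens X Y)).toSubalgebra
    (Submodule.subset_span ⟨1, 1, fun p => by simp⟩) fun a b ha hb => by
      have h := Submodule.mul_mem_mul ha hb
      rw [Submodule.span_mul_span] at h
      refine Submodule.span_mono ?_ h
      rintro _ ⟨u, ⟨f, g, hu⟩, v, ⟨f', g', hv⟩, rfl⟩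
      exact ⟨f * f', g * g', fun p => by
        simp only [ContinuousMap.mul_apply, hu, hv]
        ring⟩
  have hA : A.SeparatesPoints := by
    rintro ⟨x, y⟩ ⟨x', y'⟩ hne
    by_cases hx : x = x'
    · have hy : y ≠ y' := fun e => hne (by rw [hx, e])
      obtain ⟨g, g0, g1, -⟩ := exists_continuous_zero_one_of_isClosed (isClosed_singleton (x := y))
        (isClosed_singleton (x := y')) (disjoint_singleton.2 hy)
      refine ⟨_, ⟨g.comp ContinuousMap.snd, Submodule.subset_span ⟨1, g, fun p => by simp⟩, rfl⟩,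
        ?_⟩
      simp [g0 (mem_singleton y), g1 (mem_singleton y')]
    · obtain ⟨f, f0, f1, -⟩ := exists_continuous_zero_one_of_isClosed (isClosed_singleton (x := x))
        (isClosed_singleton (x := x')) (disjoint_singleton.2 hx)
      refine ⟨_, ⟨f.comp ContinuousMap.fst, Submodule.subset_span ⟨f, 1, fun p => by simp⟩, rfl⟩,
        ?_⟩
      simp [f0 (mem_singleton x), f1 (mem_singleton x')]
  obtain ⟨G, hG⟩ :=
    ContinuousMap.exists_mem_subalgebra_near_continuousMap_of_separatesPoints A hA H ε hε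
  exact ⟨G.1, G.2, hG⟩

theorem s_djTens : SDjTens := by
  intro X Y _ _ _ _ _ _ _ _ _ _ _ _ μ _ ν _ γ γ' hγ hγ' h H
  have hm : ∀ G : C(X × Y, ℝ), Measurable fun t => G (γ t, γ' t) := fun G =>
    G.continuous.measurable.comp (hγ.prodMk hγ')
  have hb : ∀ (G : C(X × Y, ℝ)) p, |G p| ≤ ‖G‖ := fun G p => G.norm_coe_le_norm p
  have hi : ∀ G : C(X × Y, ℝ), Integrable G (μ.prod ν) := fun G =>
    integrable_bdd G.continuous.measurable (hb G)
  have hj : ∀ (G : C(X × Y, ℝ)) (n : ℕ), IntervalIntegrable (fun t => G (γ t, γ' t)) volume 0 n :=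
    fun G n => ii_bdd (hm G) (fun t => hb G _) _ _
  have h1 : ∀ G ∈ Submodule.span ℝ (prods_Tens X Y),
      Tendsto (avN fun t => G (γ t, γ' t)) atTop (𝓝 (∫ p, G p ∂μ.prod ν)) := by
    intro G hG
    induction hG using Submodule.span_induction with
    | mem G hG =>
      obtain ⟨f, g, hG⟩ := hG
      simp only [hG]
      rw [integral_prod_mul (fun x => f x) fun y => g y]
      exact h f g
    | zero =>
      refine (tendsto_const_nhds (x := (0 : ℝ))).congr' (Eventually.of_forall fun n => ?_) |>.trans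
        (le_of_eq ?_) <;> simp [avN]
    | add G G' _ _ h1 h2 =>
      simp only [ContinuousMap.add_apply]
      rw [integral_add (hi G) (hi G')]
      refine (h1.add h2).congr fun n => ?_
      rw [avN, avN, avN, intervalIntegral.integral_add (hj G n) (hj G' n), add_div]
    | smul c G _ h1 =>
      simp only [ContinuousMap.smul_apply, smul_eq_mul]
      rw [integral_const_mul]
      refine (h1.const_mul c).congr fun n => ?_
      rw [avN, avN, intervalIntegral.integral_const_mul, mul_div_assoc]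
  rw [← integral_prod _ (hi H)]
  refine real_Tens (hm H) (fun t => hb H _) (Metric.tendsto_nhds.2 fun ε hε => ?_)
  obtain ⟨G, hG, hd⟩ := dense_Tens H (show 0 < ε / 3 by positivity)
  filter_upwards [Metric.tendsto_nhds.1 (h1 G hG) (ε / 3) (by positivity)] with n hn
  have e1 := abs_avN_le (f := fun t => (G - H) (γ t, γ' t)) (fun t => hb (G - H) _) n
  have e2 : ‖∫ p, (G - H) p ∂μ.prod ν‖ ≤ ‖G - H‖ := by
    simpa using norm_integral_le_of_norm_le_const (μ := μ.prod ν) (f := fun p => (G - H) p)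
      (Eventually.of_forall fun p => (G - H).norm_coe_le_norm p)
  simp only [ContinuousMap.sub_apply] at e1 e2
  rw [avN, intervalIntegral.integral_sub (hj G n) (hj H n), sub_div] at e1
  rw [integral_sub (hi G) (hi H), Real.norm_eq_abs] at e2
  rw [Real.dist_eq, avN, abs_lt] at hn ⊢
  rw [abs_le] at e1 e2
  constructor <;> linarith [hn.1, hn.2, e1.1, e1.2, e2.1, e2.2]

end Pool.Agent.MP_d0b2d2_an.Gen

end TensPart

section TimePart

open MeasureTheory Set Filter Topology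

namespace Pool.Agent.MP_d0b2d2_an.Gen

theorem s_djTime : SDjTime := by
  intro F G M a b L hG hM ha hb hF h
  have hS : Tendsto (fun T : ℝ => (T - b) / a) atTop atTop :=
    (tendsto_atTop_add_const_right _ (-b) tendsto_id).atTop_div_const ha
  have h1 : ∀ c : ℝ, Tendsto (fun T : ℝ => c / T) atTop (𝓝 0) := fun c =>
    tendsto_const_nhds.div_atTop tendsto_id
  have h2 := (h1 (∫ t in (0 : ℝ)..b, G t)).add ((h.comp hS).mul ((h1 b).const_sub 1))
  rw [zero_add, sub_zero, mul_one] at h2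
  refine h2.congr' ?_
  filter_upwards [eventually_gt_atTop b] with T hT
  have hT0 : 0 < T := hb.trans_lt hT
  have h3 : ∫ t in (0 : ℝ)..T, F t = ∫ t in (0 : ℝ)..T, G t :=
    intervalIntegral.integral_congr fun t ht => hF t (by
      rw [uIcc_of_le hT0.le] at ht; exact ht.1)
  have h4 := intervalIntegral.integral_comp_mul_add (a := 0) (b := (T - b) / a) G ha.ne' b
  rw [mul_zero, zero_add, mul_div_cancel₀ _ ha.ne', sub_add_cancel, smul_eq_mul] at h4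
  have h5 : T - b ≠ 0 := (sub_pos.2 hT).ne'
  simp only [Function.comp]
  rw [h3, h4, ← intervalIntegral.integral_add_adjacent_intervals (ii_bdd hG hM 0 b)
    (ii_bdd hG hM b T)]
  field_simp

lemma sect_Time (c : ℝ) {Q : ℝ → Prop} (h : ∀ᵐ σ ∂(volume.restrict (Ioo (0 : ℝ) 1)), Q σ) :
    ∀ᵐ θ : ℝ, θ ∈ Ioo (c - 1 / 8) c → Q (Real.tan (2 * Real.pi * (c - θ))) := by
  have hp := Real.pi_pos
  rw [ae_restrict_iff' measurableSet_Ioo, ae_iff] at h
  rw [ae_iff]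
  have hd : DifferentiableOn ℝ (fun σ : ℝ => c - Real.arctan σ / (2 * Real.pi))
      {σ | ¬(σ ∈ Ioo (0 : ℝ) 1 → Q σ)} :=
    ((Real.differentiable_arctan.div_const _).const_sub c).differentiableOn
  refine measure_mono_null (fun θ hθ => ?_)
    (addHaar_image_eq_zero_of_differentiableOn_of_addHaar_eq_zero volume hd h)
  obtain ⟨h0, hQ⟩ := Classical.not_imp.1 hθ
  have h1 : 0 < 2 * Real.pi * (c - θ) := mul_pos (by positivity) (by linarith [h0.2])
  have h2 : 2 * Real.pi * (c - θ) < Real.pi / 4 := by nlinarith [h0.1]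
  have h3 : Real.arctan (Real.tan (2 * Real.pi * (c - θ))) = 2 * Real.pi * (c - θ) :=
    Real.arctan_tan (by linarith) (by linarith)
  refine ⟨Real.tan (2 * Real.pi * (c - θ)), fun h4 => hQ (h4 ⟨?_, ?_⟩), ?_⟩
  · rw [← Real.arctan_lt_arctan_iff, h3, Real.arctan_zero]; exact h1
  · rw [← Real.arctan_lt_arctan_iff, h3, Real.arctan_one]; exact h2
  · simp only
    rw [h3]; field_simp; ring

theorem s_djSect : SDjSect := by
  intro P hP
  have h1 := ae_all_iff.2 fun j : ℕ => sect_Time (((j : ℝ) + 1) / 8) (hP (((j : ℝ) + 1) / 8))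
  have h2 : ∀ᵐ θ : ℝ, θ ∉ range fun j : ℕ => (j : ℝ) / 8 :=
    (countable_range _).ae_notMem volume
  refine (ae_restrict_iff' measurableSet_Ioo).2 ?_
  filter_upwards [h1, h2] with θ a1 a2 a3
  have h3 := Nat.floor_le (show 0 ≤ 8 * θ by linarith [a3.1])
  have h4 := Nat.lt_floor_add_one (8 * θ)
  have h5 : (⌊8 * θ⌋₊ : ℝ) / 8 ≠ θ := fun h => a2 ⟨_, h⟩
  have h6 : θ ∈ Ioo (((⌊8 * θ⌋₊ : ℝ) + 1) / 8 - 1 / 8) (((⌊8 * θ⌋₊ : ℝ) + 1) / 8) :=
    ⟨lt_of_le_of_ne (by linarith) fun h => h5 (by linarith), by linarith⟩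
  exact ⟨_, h6, a1 _ h6⟩

end Pool.Agent.MP_d0b2d2_an.Gen

end TimePart

section MainAPart

open MeasureTheory Set Filter Topology Metric

namespace Pool.Agent.MP_d0b2d2_an.Gen

/-- bounded signals whose averages along progressions have the mean squares `a` -/
def DjSig (B : ℝ → ℝ) (a : ℕ → ℝ → ℝ) : Prop := Measurable B ∧ (∀ t, |B t| ≤ 1) ∧
  ∀ (J : ℕ) (T : ℝ), Tendsto (avN fun t => ((∑ i ∈ Finset.range J, B (t + i * T)) / J) ^ 2)
    atTop (𝓝 (a J T))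

/-- uniformly continuous signals with uniformly small long averages -/
def DjFlat (B : ℝ → ℝ) : Prop :=
  (∀ η > 0, ∃ s > 0, ∀ t t', 0 < t → 0 < t' → |t - t'| < s → |B t - B t'| ≤ η) ∧
  ∀ η > 0, ∃ L > 0, ∀ t, 0 < t → |∫ s in t..t + L, B s| ≤ η * L

/-- relations that are measurable in both arguments -/
def DjMs (R : ℝ → (ℕ → ℝ → ℝ) → Prop) : Prop :=
  ∀ (s : ℝ × ℝ → ℝ) (a : ℝ × ℝ → ℕ → ℝ → ℝ), Measurable s → (∀ J T, Measurable fun z => a z J T) →
    Measurable fun z => R (s z) (a z)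

/-- the unit vector in direction `2 π θ` -/
noncomputable abbrev djEx (θ : ℝ) : ℂ := Complex.exp (((2 * Real.pi * θ : ℝ) : ℂ) * Complex.I)

lemma DjSig.nonneg {B : ℝ → ℝ} {a : ℕ → ℝ → ℝ} (h : DjSig B a) (J : ℕ) (T : ℝ) : 0 ≤ a J T :=
  ge_of_tendsto' (h.2.2 J T) (circle_avN_nonneg fun _ => sq_nonneg _)

lemma djMs_hit (th : ℕ → ℝ → Prop) (T l : ℕ → ℕ → ℝ) (p : ℕ → ℝ) :
    DjMs fun σ a => DjHit th T l p a σ := fun s a hs ha => by
  unfold DjHit
  exact Measurable.forall fun i => Measurable.exists fun J => measurable_const.and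
    (Measurable.forall fun K => Measurable.exists fun k => measurable_const.and
      (Measurable.exists fun j => measurable_const.and
        ((measurableSet_setOfPred.1 (measurableSet_le measurable_const hs)).and
          ((measurableSet_setOfPred.1 (measurableSet_le hs measurable_const)).and
            (measurableSet_setOfPred.1 (measurableSet_le (ha _ _) measurable_const))))))

lemma dj_avN_add {f g : ℝ → ℝ} (hf : OrthBd f) (hg : OrthBd g) (n : ℕ) :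
    avN (fun t => f t + g t) n = avN f n + avN g n := by
  unfold avN
  rw [intervalIntegral.integral_add (hf.ii _ _) (hg.ii _ _), add_div]

lemma dj_phi_tan {c θ : ℝ} (h : θ ∈ Ioo (c - 1 / 8) c) :
    circlePhi c (Real.tan (2 * Real.pi * (c - θ))) = θ := by
  have hp := Real.pi_pos
  have h1 : 0 < 2 * Real.pi * (c - θ) := mul_pos (by positivity) (by linarith [h.2])
  have h2 : 2 * Real.pi * (c - θ) < Real.pi / 4 := by nlinarith [h.1]
  unfold circlePhi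
  rw [Real.arctan_tan (by linarith) (by linarith)]
  field_simp
  ring

namespace TS

variable {X : Type} [TopologicalSpace X] [T2Space X] [CompactSpace X] [MeasurableSpace X]
  [BorelSpace X] [SecondCountableTopology X] {μ : Measure X} [IsProbabilityMeasure μ]

/-- all trajectories with velocity `e` are orthogonal to all signals of type `a` -/
def DjOrth (S : TS X μ) (e : ℂ) (a : ℕ → ℝ → ℝ) : Prop :=
  ∀ B, DjSig B a → ∀ γ : ℝ → X, Measurable γ → S.IsRay e γ → ∀ f : C(X, ℝ),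
    Tendsto (avN fun t => B t * f (γ t)) atTop (𝓝 0)

/-- cylinders of fixed area almost parallel to `e` whose return times are good for `a` -/
def DjRig (S : TS X μ) (e : ℂ) (a : ℕ → ℝ → ℝ) : Prop :=
  ∃ c > (0 : ℝ), ∃ C > (0 : ℝ), ∀ i : ℕ, ∃ J : ℕ, 1 ≤ J ∧ ∀ K : ℕ, ∃ k : ℕ, K ≤ k ∧
    ∃ (x : X) (v : ℂ) (T : ℝ), S.IsCyl x v c ∧ 2 ^ k / C ≤ T ∧ ‖T • e - v‖ ≤ C / 2 ^ k ∧
      J * |wedge (T • e) v| ≤ c ∧ a J T ≤ 1 / ((i : ℝ) + 1)

lemma dj_point {S : TS X μ} {e : ℂ} {a : ℕ → ℝ → ℝ} (hU : S.UE e) (h : S.DjRig e a) :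
    S.DjOrth e a := by
  rintro B ⟨hB, hb, ha⟩ γ hγ hr f
  obtain ⟨c, hc, C, hC, h⟩ := h
  have := orth μ (γ := fun _ => γ) (hγ.comp measurable_snd) hB hb
    (ae_of_all _ fun _ f => rig_port_cont hU hr hγ f) (fun f s σ₀ η hη => ?_)
    (fun η₁ hη₁ => ⟨2 * c, by positivity, fun η hη => ?_⟩) (ρ := fun _ => 1) continuous_const f
  · simpa using this
  · obtain ⟨f', r, hr0, h⟩ := S.shift_approx f (s • e) hη
    refine ⟨f', 1, one_pos, ae_of_all _ fun σ _ => ?_⟩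
    have h4 := port_shift hU hr hγ ![s, 0] ⟨fun x => (f (x 0) - f' (x 1)) ^ 2, by fun_prop⟩
    simp only [ContinuousMap.coe_mk, Matrix.cons_val_zero, Matrix.cons_val_one, add_zero,
      zero_smul, S.mv_zero] at h4
    exact h4.eventually_le_const (h _ (by simpa using hr0))
  · obtain ⟨i, hi⟩ := exists_nat_one_div_lt hη
    obtain ⟨J, hJ, h⟩ := h i
    choose k hk x v T h1 h2 h3 h4 h5 using h
    refine ⟨1, J, fun K _ => T K, fun K j => j / 4 ^ K, fun _ _ => True, one_pos, hJ, fun K => ?_,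
      fun K j _ => ⟨le_rfl, by rw [add_div]⟩, ae_of_all _ fun σ f η' hη' => ?_,
      fun K₁ => ⟨{K₁}, by simp, by simp, ?_⟩⟩
    · simpa [dens] using hη₁.le
    · filter_upwards [(tendsto_atTop_mono hk tendsto_id).eventually
        (sector_rig hU hr hγ f hη' hC hJ)] with K hK j _ _ _
      exact hK _ _ _ _ (h1 K) (h2 K) (h3 K) (h4 K)
    · filter_upwards [(ha J (T K₁)).eventually_le_const ((h5 K₁).trans_lt hi)] with n hn
      simpa using hn

open Classical in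
lemma dj_win (S : TS X μ) {η₁ : ℝ} (hη₁ : 0 < η₁) :
    ∃ (th : ℕ → ℝ → Prop) (T l : ℕ → ℕ → ℝ) (p : ℕ → ℝ), (∀ J, 1 ≤ J → 0 < p J) ∧
      (∀ k, dens k (fun σ => ¬ th k σ) ≤ η₁) ∧
      (∀ J k j : ℕ, th k (j / 4 ^ k) →
        (j : ℝ) / 4 ^ k ≤ l k j ∧ l k j + p J / 4 ^ k ≤ (j + 1) / 4 ^ k) ∧
      (∀ σ a, DjHit th T l p a σ → S.DjRig (ed σ) a) ∧
      ∀ B a, DjSig B a → DjFlat B → ∀ η > (0 : ℝ), ∃ J : ℕ, 1 ≤ J ∧ ∀ K : ℕ, ∃ k : ℕ, K ≤ k ∧
        ∑ j ∈ (Finset.range (4 ^ k)).filter (fun j : ℕ => th k (j / 4 ^ k)),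
          1 / 4 ^ k * a J (T k j) ≤ η := by
  obtain ⟨C₁, a, ha, hnd⟩ := S.nondiv
  obtain ⟨m, hm⟩ := ((sector_tendsto C₁ ha).eventually_le_const hη₁).exists
  have δ0 : 0 < 1 / ((m : ℝ) + 1) := by positivity
  generalize 1 / ((m : ℝ) + 1) = δ at hm δ0
  obtain ⟨c, hc, C, hC, hw⟩ := S.cyl_window δ0
  obtain ⟨r, D, -, hD⟩ := S.exists_resData
  obtain ⟨th, hth⟩ : ∃ th : ℕ → ℝ → Prop, ∀ k σ,
    th k σ ↔ σ ≤ 1 ∧ (S.map (zm σ k) (sl_zm σ k)).Thick δ := ⟨_, fun _ _ => Iff.rfl⟩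
  obtain ⟨x₀, -⟩ := S.ne
  have ex : ∀ k j : ℕ, ∃ (x : X) (v : ℂ) (l : ℝ), th k (j / 4 ^ k) → S.IsCyl x v c ∧
      δ ≤ ‖zm (j / 4 ^ k) k v‖ ∧ ‖zm (j / 4 ^ k) k v‖ ≤ C ∧ (j : ℝ) / 4 ^ k ≤ l ∧
      l + 1 / 4 / 4 ^ k ≤ j / 4 ^ k + 1 / 4 ^ k ∧ 2 ^ k / C ≤ dot v (ed (j / 4 ^ k)) ∧
      ∀ σ p : ℝ, p ≤ 1 / 4 → l ≤ σ → σ ≤ l + p / 4 ^ k →
        ‖dot v (ed (j / 4 ^ k)) • ed σ - v‖ ≤ C / 2 ^ k ∧
        |wedge (dot v (ed (j / 4 ^ k)) • ed σ) v| ≤ C * p := fun k j => by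
    by_cases h : th k (j / 4 ^ k)
    · obtain ⟨x, v, l, h1⟩ := hw _ k (by positivity) ((hth _ _).1 h).1 ((hth _ _).1 h).2
      exact ⟨x, v, l, fun _ => h1⟩
    · exact ⟨x₀, 0, 0, fun h' => absurd h' h⟩
  choose x v l hx using ex
  refine ⟨th, fun k j => dot (v k j) (ed (j / 4 ^ k)), l, fun J => min (1 / 4) (c / (J * C)),
    fun J hJ => ?_, fun k => le_trans (dens_mono fun j hj h h' => h ((hth _ _).2 ⟨?_, h'⟩))
      ((hnd k δ δ0).trans hm), fun J k j h => ⟨(hx k j h).2.2.2.1, ?_⟩,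
    fun σ a h => ⟨c, hc, C, hC, fun i => ?_⟩, ?_⟩
  · have J0 : (0 : ℝ) < J := by exact_mod_cast hJ
    positivity
  · rw [div_le_one (by positivity)]; exact_mod_cast hj.le
  · rw [add_div]
    refine le_trans ?_ (hx k j h).2.2.2.2.1
    gcongr
    exact min_le_left _ _
  · obtain ⟨J, hJ, h⟩ := h i
    have J0 : (0 : ℝ) < J := by exact_mod_cast hJ
    refine ⟨J, hJ, fun K => ?_⟩
    obtain ⟨k, hk, j, h, a1, a2, a3⟩ := h K
    obtain ⟨b1, -, -, -, -, b2, b3⟩ := hx k j h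
    obtain ⟨b4, b5⟩ := b3 σ _ (min_le_left _ _) a1 a2
    refine ⟨k, hk, _, _, _, b1, b2, b4, (mul_le_mul_of_nonneg_left (b5.trans
      (mul_le_mul_of_nonneg_left (min_le_right _ _) hC.le)) J0.le).trans_eq ?_, a3⟩
    field_simp
  rintro B a ⟨hB, hb, hs⟩ ⟨huc, hlm⟩ η hη
  obtain ⟨am, bm, ham, hsp⟩ := spectral hB hb huc hlm (η := η / 5) (by positivity)
  obtain ⟨ε, hε, M, K₀, hM, hres⟩ := D.resonance (bm := bm) (C₀ := max C (C / √(2 * c))) ham δ0
    (η := η / 10) (by positivity)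
  obtain ⟨J, hJ, hsp⟩ := hsp ε hε
  refine ⟨J, hJ, fun K₁ => ?_⟩
  obtain ⟨K, hK⟩ : ∃ K, K = K₁ + K₀ + 1 := ⟨_, rfl⟩
  have K2 : 2 * K ≤ M * K := Nat.mul_le_mul_right K hM
  have := hsp (Σ _ : ℕ, ℕ) ((Finset.Ico K (M * K)).sigma fun k =>
    (Finset.range (4 ^ k)).filter (fun j : ℕ => th k (j / 4 ^ k)))
    (fun i => dot (v i.1 i.2) (ed (i.2 / 4 ^ i.1))) (fun i => 1 / 4 ^ i.1)
    (fun i hi => le_trans (by positivity)
      (hx _ _ (Finset.mem_filter.1 (Finset.mem_sigma.1 hi).2).2).2.2.2.2.2.1)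
    (fun i _ => by positivity) (Finset.Ico K (M * K)).card ?_ ?_
  · have h1 := le_of_tendsto (tendsto_finsetSum _ fun i _ => (hs J _).const_mul _) this
    rw [Finset.sum_sigma, show 5 * (η / 5) = η by ring, mul_comm η, ← nsmul_eq_mul,
      ← Finset.sum_const] at h1
    obtain ⟨k, hk, h2⟩ := Finset.exists_le_of_sum_le (Finset.nonempty_Ico.2 (by omega)) h1
    exact ⟨k, by have := (Finset.mem_Ico.1 hk).1; omega, h2⟩
  · rw [Finset.sum_sigma, Finset.card_eq_sum_ones, Nat.cast_sum]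
    refine Finset.sum_le_sum fun k _ => ?_
    simp only [Finset.sum_const, nsmul_eq_mul, Nat.cast_one]
    rw [mul_one_div, div_le_one (by positivity)]
    exact_mod_cast (Finset.card_filter_le _ _).trans_eq (Finset.card_range _)
  · intro ξ h1 h2
    rw [Finset.sum_filter, Finset.sum_sigma]
    refine le_trans (Finset.sum_le_sum fun k _ => ?_) ((hres K (by omega) ξ h1 h2).trans ?_)
    · rw [dens_eq_sum, Finset.sum_div, Finset.sum_filter]
      refine Finset.sum_le_sum fun j _ => ?_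
      split_ifs with a1 a2 a3
      · exact le_rfl
      · refine absurd ?_ a3
        obtain ⟨b1, b2, b3, -⟩ := hx k j a1
        obtain ⟨u, u1, u2⟩ := hD _ _ _ b1
        obtain ⟨n, hn⟩ := a2
        refine ⟨u, n, (u2 _ _).trans (le_trans ?_ (le_max_right _ _)), u1 ▸ b2,
          u1 ▸ b3.trans (le_max_left _ _), u1 ▸ hn⟩
        gcongr
      all_goals positivity
    · rw [Nat.card_Ico, Nat.cast_sub (by omega)]
      have : (2 : ℝ) * K ≤ M * K := by exact_mod_cast K2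
      push_cast
      nlinarith

lemma dj_sector (hM : SDjMeas) (S : TS X μ) : ∃ R : ℝ → (ℕ → ℝ → ℝ) → Prop, DjMs R ∧
    (∀ σ a, R σ a → S.DjRig (ed σ) a) ∧ ∀ B a, DjSig B a → DjFlat B → ∀ᵐ σ ∂orthN, R σ a := by
  choose th T l p h1 h2 h3 h4 h5 using fun m : ℕ =>
    S.dj_win (η₁ := 1 / ((m : ℝ) + 1)) (by positivity)
  refine ⟨fun σ a => ∃ m, DjHit (th m) (T m) (l m) (p m) a σ, fun s a hs ha =>
    Measurable.exists fun m => djMs_hit _ _ _ _ s a hs ha, fun σ a ⟨m, h⟩ => h4 m σ a h,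
    fun B a hB hF => ?_⟩
  rw [ae_iff, ← le_zero_iff, ← ENNReal.ofReal_zero]
  refine ge_of_tendsto' (ENNReal.tendsto_ofReal tendsto_one_div_add_atTop_nhds_zero_nat)
    fun m => le_trans (measure_mono fun σ hσ h => hσ ⟨m, h⟩)
      (hM _ _ _ _ a _ (h1 m) (h2 m) (h3 m) (fun J k j _ => hB.nonneg _ _) (h5 m B a hB hF))

omit [T2Space X] [CompactSpace X] [BorelSpace X] [SecondCountableTopology X]
  [IsProbabilityMeasure μ] in
lemma dj_map_ue (S : TS X μ) (g : ℂ ≃L[ℝ] ℂ) (hg : Sl (g : ℂ →L[ℝ] ℂ)) (e : ℂ) :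
    (S.map g hg).UE (g e) ↔ S.UE e := by
  simp only [UE, map, map_smul, ContinuousLinearEquiv.symm_apply_apply]

omit [T2Space X] [CompactSpace X] [BorelSpace X] [SecondCountableTopology X]
  [IsProbabilityMeasure μ] in
lemma dj_map_ray (S : TS X μ) (g : ℂ ≃L[ℝ] ℂ) (hg : Sl (g : ℂ →L[ℝ] ℂ)) (e : ℂ) (γ : ℝ → X) :
    (S.map g hg).IsRay (g e) γ ↔ S.IsRay e γ := by
  simp only [IsRay, map, map_smul, ContinuousLinearEquiv.symm_apply_apply]

lemma dj_ue (hS : SDjSect) (S : TS X μ) : ∀ᵐ θ ∂orthN, S.UE (djEx θ) := by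
  filter_upwards [hS (fun c σ => (S.map (circleRot c) (circle_rot_sl c)).UE (ed σ))
    fun c => ae_ue _] with θ ⟨j, h1, h2⟩
  rwa [← circle_rot_ed, dj_map_ue, dj_phi_tan h1] at h2

lemma dj_circle (hM : SDjMeas) (hS : SDjSect) (S : TS X μ) :
    ∃ R : ℝ → (ℕ → ℝ → ℝ) → Prop, DjMs R ∧
      (∀ θ a, R θ a → S.UE (djEx θ) → S.DjOrth (djEx θ) a) ∧
      ∀ B a, DjSig B a → DjFlat B → ∀ᵐ θ ∂orthN, R θ a := by
  choose R h1 h2 h3 using fun c : ℝ => dj_sector hM (S.map (circleRot c) (circle_rot_sl c))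
  refine ⟨fun θ a => ∃ j : ℕ, θ ∈ Ioo (((j : ℝ) + 1) / 8 - 1 / 8) (((j : ℝ) + 1) / 8) ∧
    R (((j : ℝ) + 1) / 8) (Real.tan (2 * Real.pi * (((j : ℝ) + 1) / 8 - θ))) a,
    fun s a hs ha => Measurable.exists fun j =>
      (measurableSet_setOfPred.1 (hs measurableSet_Ioo)).and (h1 _ _ a ?_ ha),
    fun θ a ⟨j, a1, a2⟩ hU B hB γ hγ hr => ?_,
    fun B a hB hF => hS (fun c σ => R c σ a) fun c => h3 c B a hB hF⟩
  · simp only [Real.tan_eq_sin_div_cos]
    fun_prop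
  · have a3 := h2 _ _ _ a2
    rw [← circle_rot_ed, dj_phi_tan a1] at a3
    exact dj_point ((S.dj_map_ue _ _ _).2 hU) a3 B hB γ hγ ((S.dj_map_ray _ _ _ _).2 hr)

end TS

end Pool.Agent.MP_d0b2d2_an.Gen

end MainAPart

section MainBPart

open MeasureTheory Set Filter Topology Metric

namespace Pool.Agent.MP_d0b2d2_an.Gen

namespace TS

variable {X : Type} [TopologicalSpace X] [T2Space X] [CompactSpace X] [MeasurableSpace X]
  [BorelSpace X] [SecondCountableTopology X] {Y : Type} [TopologicalSpace Y] [T2Space Y]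
  [CompactSpace Y] [MeasurableSpace Y] [BorelSpace Y] [SecondCountableTopology Y]

omit [T2Space X] [CompactSpace X] [BorelSpace X] [SecondCountableTopology X] in
lemma dj_ue_smul {μ : Measure X} {S : TS X μ} {e : ℂ} (h : S.UE e) {r : ℝ} (hr : 0 < r) :
    S.UE (r • e) := fun f η hη => by
  obtain ⟨L₀, hL⟩ := h f η hη
  refine ⟨L₀ / r, fun L h1 x h2 => ?_⟩
  rw [div_le_iff₀ hr] at h1
  rw [smul_smul] at h2
  have h3 := hL _ h1 x h2
  have e1 := intervalIntegral.integral_comp_mul_right (a := 0) (b := L)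
    (fun t : ℝ => f (S.mv x (t • e))) hr.ne'
  simp only [smul_smul]
  rw [e1, zero_mul, smul_eq_mul, show r⁻¹ * (∫ t in (0 : ℝ)..L * r, f (S.mv x (t • e))) -
    L * ∫ q, f q ∂μ = r⁻¹ * ((∫ t in (0 : ℝ)..L * r, f (S.mv x (t • e))) - L * r * ∫ q, f q ∂μ) by
      field_simp, abs_mul, abs_of_pos (inv_pos.2 hr), inv_mul_le_iff₀ hr]
  linarith

/-- the mean squares of the averages of `g` along progressions -/
noncomputable def djA {ν : Measure Y} (S : TS Y ν) (g : C(Y, ℝ)) (e : ℂ) (J : ℕ) (T : ℝ) : ℝ :=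
  ∫ q, ((∑ i ∈ Finset.range J, g (S.mv q ((i * T) • e))) / J) ^ 2 ∂ν

variable {μ : Measure X} {ν : Measure Y}

section Prob

variable [IsProbabilityMeasure μ] [IsProbabilityMeasure ν]

lemma dj_sig {S : TS Y ν} {e : ℂ} {γ : ℝ → Y} (hU : S.UE e) (h : S.IsRay e γ) (hγ : Measurable γ)
    {g : C(Y, ℝ)} (hg : ∀ q, |g q| ≤ 1) : DjSig (fun t => g (γ t)) (S.djA g e) := by
  refine ⟨g.continuous.measurable.comp hγ, fun t => hg _, fun J T => ?_⟩
  have h4 := port_shift hU h hγ (fun i : Fin J => ((i : ℕ) : ℝ) * T)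
    ⟨fun x => ((∑ i, g (x i)) / J) ^ 2, by fun_prop⟩
  simp only [ContinuousMap.coe_mk] at h4
  unfold djA
  simp_rw [Finset.sum_range]
  exact h4

lemma dj_flat {S : TS Y ν} {e : ℂ} {γ : ℝ → Y} (hU : S.UE e) (h : S.IsRay e γ)
    {g : C(Y, ℝ)} (hg : ∫ q, g q ∂ν = 0) : DjFlat fun t => g (γ t) := by
  refine ⟨fun η hη => ?_, fun η hη => ?_⟩
  · obtain ⟨r, hr0, h1⟩ := S.equicont g hη
    refine ⟨r / (‖e‖ + 1), by positivity, fun t t' a1 a2 a3 => ?_⟩
    rw [lt_div_iff₀ (by positivity)] at a3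
    have h2 := h1 (γ t') ((t - t') • e) (by
      rw [norm_smul, Real.norm_eq_abs]; nlinarith [abs_nonneg (t - t')])
    rwa [(h.shift a2 (by linarith)).2, add_sub_cancel, Real.dist_eq] at h2
  · obtain ⟨L₀, hL⟩ := ray_mean hU h g hη
    refine ⟨max L₀ 1, lt_max_of_lt_right one_pos, fun t ht => ?_⟩
    simpa [hg] using hL _ (le_max_left L₀ 1) t ht

lemma dj_exists (S : TS Y ν) (e : ℂ) : ∃ γ : ℝ → Y, Measurable γ ∧ S.IsRay e γ := by
  obtain ⟨q, hq⟩ := (S.ae_ok_line e).exists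
  refine ⟨fun t => S.mv q (t • e), S.measurable_mv.comp (f := fun t : ℝ => (q, t • e))
    (by fun_prop), fun t _ s _ => ?_⟩
  simpa only [add_sub_cancel_left] using line_ok (hq t) (hq (t + s))

omit [T2Space Y] [CompactSpace Y] in
lemma dj_meas (S : TS Y ν) (g : C(Y, ℝ)) {e : ℝ × ℝ → ℂ} (he : Measurable e) (J : ℕ) (T : ℝ) :
    Measurable fun z => S.djA g (e z) J T := by
  have h1 : ∀ c : ℝ, Measurable fun w : (ℝ × ℝ) × Y => g (S.mv w.2 (c • e w.1)) := fun c =>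
    g.continuous.measurable.comp (S.measurable_mv.comp
      (f := fun w : (ℝ × ℝ) × Y => (w.2, c • e w.1)) (by fun_prop))
  have : Measurable fun w : (ℝ × ℝ) × Y =>
      ((∑ i ∈ Finset.range J, g (S.mv w.2 (((i : ℝ) * T) • e w.1))) / J) ^ 2 :=
    ((Finset.measurable_fun_sum _ fun i _ => h1 _).div_const _).pow_const 2
  exact this.stronglyMeasurable.integral_prod_right'.measurable

lemma dj_one (hM : SDjMeas) (hS : SDjSect) (S : TS X μ) (S' : TS Y ν) {r : ℝ} (hr : 0 < r)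
    {g : C(Y, ℝ)} (hg : ∀ q, |g q| ≤ 1) (h0 : ∫ q, g q ∂ν = 0) :
    ∀ᵐ z ∂(orthN.prod orthN), S.DjOrth (djEx z.1) (S'.djA g (r • djEx z.2)) := by
  obtain ⟨R, h1, h2, h3⟩ := dj_circle hM hS S
  have m1 := h1 Prod.snd (fun z => S'.djA g (r • djEx z.1)) measurable_snd
    (S'.dj_meas g (by fun_prop))
  have m2 := h1 Prod.fst (fun z => S'.djA g (r • djEx z.2)) measurable_fst
    (S'.dj_meas g (by fun_prop))
  have a1 : ∀ᵐ φ ∂orthN, ∀ᵐ θ ∂orthN, R θ (S'.djA g (r • djEx φ)) := by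
    filter_upwards [dj_ue hS S'] with φ hφ
    obtain ⟨γ, b1, b2⟩ := S'.dj_exists (r • djEx φ)
    exact h3 _ _ (dj_sig (dj_ue_smul hφ hr) b2 b1 hg) (dj_flat (dj_ue_smul hφ hr) b2 h0)
  have a2 := (Measure.ae_ae_comm (μ := orthN) (ν := orthN)
    (p := fun φ θ => R θ (S'.djA g (r • djEx φ))) (measurableSet_setOfPred.2 m1)).1 a1
  filter_upwards [(Measure.ae_prod_iff_ae_ae (μ := orthN) (ν := orthN)
    (measurableSet_setOfPred.2 m2)).2 a2,
    Measure.quasiMeasurePreserving_fst.ae (dj_ue hS S)] with z b1 b2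
  exact h2 _ _ b1 b2

lemma dj_pair (hM : SDjMeas) (hS : SDjSect) (S : TS X μ) (S' : TS Y ν) {r : ℝ} (hr : 0 < r) :
    ∀ᵐ z ∂(orthN.prod orthN), ∀ (γ : ℝ → X) (γ' : ℝ → Y), Measurable γ → Measurable γ' →
      S.IsRay (djEx z.1) γ → S'.IsRay (r • djEx z.2) γ' → ∀ (f : C(X, ℝ)) (g : C(Y, ℝ)),
      Tendsto (avN fun t => f (γ t) * g (γ' t)) atTop (𝓝 ((∫ x, f x ∂μ) * ∫ y, g y ∂ν)) := by
  let s := TopologicalSpace.denseSeq C(Y, ℝ)
  have il : ∀ h : C(Y, ℝ), Integrable h ν := fun h =>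
    integrable_bdd h.continuous.measurable h.norm_coe_le_norm
  have hm : ∀ h : C(Y, ℝ), |∫ q, h q ∂ν| ≤ ‖h‖ := fun h => by
    simpa using norm_integral_le_of_norm_le_const (μ := ν) (ae_of_all _ h.norm_coe_le_norm)
  let u : ℕ → C(Y, ℝ) := fun i =>
    (2 * ‖s i‖ + 1)⁻¹ • (s i - ContinuousMap.const Y (∫ q, s i q ∂ν))
  have u1 : ∀ i q, u i q = (2 * ‖s i‖ + 1)⁻¹ * (s i q - ∫ q, s i q ∂ν) := fun i q => rfl
  have u2 : ∀ i q, |u i q| ≤ 1 := fun i q => by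
    rw [u1, abs_mul, abs_of_pos (by positivity), inv_mul_le_iff₀ (by positivity)]
    have : |s i q| ≤ ‖s i‖ := (s i).norm_coe_le_norm q
    linarith [abs_sub (s i q) (∫ q, s i q ∂ν), hm (s i)]
  have u3 : ∀ i, ∫ q, u i q ∂ν = 0 := fun i => by
    simp only [u1]
    rw [integral_const_mul, integral_sub (il _) (integrable_const _)]
    simp
  filter_upwards [ae_all_iff.2 fun i => dj_one hM hS S S' hr (u2 i) (u3 i),
    Measure.quasiMeasurePreserving_fst.ae (dj_ue hS S),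
    Measure.quasiMeasurePreserving_snd.ae (dj_ue hS S')] with z a1 a2 a3 γ γ' m1 m2 r1 r2 f g
  have b1 : OrthBd fun t => f (γ t) :=
    ⟨f.continuous.measurable.comp m1, ‖f‖, fun t => f.norm_coe_le_norm _⟩
  have b2 : ∀ h : C(Y, ℝ), OrthBd fun t => h (γ' t) := fun h =>
    ⟨h.continuous.measurable.comp m2, ‖h‖, fun t => h.norm_coe_le_norm _⟩
  have key : ∀ i, Tendsto (avN fun t => f (γ t) * s i (γ' t)) atTop
      (𝓝 ((∫ x, f x ∂μ) * ∫ y, s i y ∂ν)) := fun i => by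
    have c1 := ((a1 i _ (dj_sig (dj_ue_smul a3 hr) r2 m2 (u2 i)) γ m1 r1 f).const_mul
      (2 * ‖s i‖ + 1)).add ((rig_port_cont a2 r1 m1 f).const_mul (∫ y, s i y ∂ν))
    rw [mul_zero, zero_add, mul_comm _ (∫ x, f x ∂μ)] at c1
    refine c1.congr fun n => ?_
    rw [← orth_avN_mul, ← orth_avN_mul, ← dj_avN_add ((orthBd_const _).mul ((b2 _).mul b1))
      ((orthBd_const _).mul b1)]
    congr 1
    funext t
    rw [u1]
    field_simp
    ring
  refine Metric.tendsto_nhds.2 fun ε hε => ?_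
  obtain ⟨i, hi⟩ := (TopologicalSpace.denseRange_denseSeq C(Y, ℝ)).exists_dist_lt g
    (show 0 < ε / (3 * (‖f‖ + 1)) by positivity)
  rw [dist_eq_norm, lt_div_iff₀ (by positivity)] at hi
  filter_upwards [Metric.tendsto_nhds.1 (key i) (ε / 3) (by positivity)] with n hn
  have e1 : avN (fun t => f (γ t) * g (γ' t)) n = avN (fun t => f (γ t) * s i (γ' t)) n +
      avN (fun t => f (γ t) * (g - s i) (γ' t)) n := by
    rw [← dj_avN_add (b1.mul (b2 _)) (b1.mul (b2 _))]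
    congr 1
    funext t
    rw [ContinuousMap.sub_apply]
    ring
  have e2 : |avN (fun t => f (γ t) * (g - s i) (γ' t)) n| ≤ ‖f‖ * ‖g - s i‖ :=
    abs_avN_le (fun t => by
      rw [abs_mul]
      exact mul_le_mul (f.norm_coe_le_norm _) ((g - s i).norm_coe_le_norm _) (abs_nonneg _)
        (norm_nonneg _)) n
  have e3 : ∫ y, g y ∂ν = ∫ y, s i y ∂ν + ∫ y, (g - s i) y ∂ν := by
    rw [← integral_add (il _) (il _)]
    simp
  have e4 : |(∫ x, f x ∂μ) * ∫ y, (g - s i) y ∂ν| ≤ ‖f‖ * ‖g - s i‖ := by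
    rw [abs_mul]
    refine mul_le_mul ?_ (hm _) (abs_nonneg _) (norm_nonneg _)
    simpa using norm_integral_le_of_norm_le_const (μ := μ) (ae_of_all _ f.norm_coe_le_norm)
  have e5 : ‖f‖ * ‖g - s i‖ < ε / 3 := by nlinarith [norm_nonneg (g - s i)]
  rw [Real.dist_eq, abs_lt] at hn ⊢
  rw [abs_le] at e2 e4
  rw [e1, e3, mul_add]
  constructor <;> linarith [hn.1, hn.2, e2.1, e2.2, e4.1, e4.2]

end Prob

lemma dj_any (hM : SDjMeas) (hS : SDjSect) (hT : SDjTens) (hI : SDjTime) (S : TS X μ)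
    (S' : TS Y ν) : ∀ᵐ z ∂(orthN.prod orthN), ∀ (γ : ℝ → X) (γ' : ℝ → Y), Measurable γ →
      Measurable γ' → ∀ b : ℝ, 0 ≤ b → S.IsRay (djEx z.1) (fun t => γ (t + b)) →
      S'.IsRay (djEx z.2) (fun t => γ' (t + b)) → ∀ H : C(X × Y, ℝ),
      Tendsto (fun T : ℝ => (∫ t in (0 : ℝ)..T, H (γ t, γ' t)) / T) atTop
        (𝓝 ((∫ x, ∫ y, H (x, y) ∂ν ∂μ) / (μ.real univ * ν.real univ))) := by
  have := S.isFiniteMeasure
  have := S'.isFiniteMeasure
  have h0 := S.measure_pos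
  have h0' := S'.measure_pos
  have hA : 0 < μ.real univ := ENNReal.toReal_pos h0 (measure_ne_top _ _)
  have hA' : 0 < ν.real univ := ENNReal.toReal_pos h0' (measure_ne_top _ _)
  have ha : 0 < √(μ.real univ) := Real.sqrt_pos.2 hA
  have ha' : 0 < √(ν.real univ) := Real.sqrt_pos.2 hA'
  have hc : (μ univ)⁻¹ * ENNReal.ofReal (√(μ.real univ) ^ 2) = 1 := by
    rw [Real.sq_sqrt hA.le, ofReal_measureReal, ENNReal.inv_mul_cancel h0 (measure_ne_top _ _)]
  have hc' : (ν univ)⁻¹ * ENNReal.ofReal (√(ν.real univ) ^ 2) = 1 := by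
    rw [Real.sq_sqrt hA'.le, ofReal_measureReal, ENNReal.inv_mul_cancel h0' (measure_ne_top _ _)]
  have : IsProbabilityMeasure ((μ univ)⁻¹ • μ) :=
    ⟨by rw [Measure.smul_apply, smul_eq_mul, ENNReal.inv_mul_cancel h0 (measure_ne_top _ _)]⟩
  have : IsProbabilityMeasure ((ν univ)⁻¹ • ν) :=
    ⟨by rw [Measure.smul_apply, smul_eq_mul, ENNReal.inv_mul_cancel h0' (measure_ne_top _ _)]⟩
  generalize √(μ.real univ) = a at ha hc
  generalize √(ν.real univ) = a' at ha' hc'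
  filter_upwards [dj_pair hM hS (S.circleScale ha hc) (S'.circleScale ha' hc') (div_pos ha ha')]
    with z hz γ γ' m1 m2 b hb r1 r2 H
  have m3 : Measurable fun t : ℝ => a * t + b := by fun_prop
  have c1 := hT X Y _ _ _ _ (m1.comp m3) (m2.comp m3) (hz _ _ (m1.comp m3) (m2.comp m3)
    (fun t ht s hs => ?_) fun t ht s hs => ?_) H
  · refine hI _ (fun t => H (γ t, γ' t)) ‖H‖ a b _ (H.continuous.measurable.comp (m1.prodMk m2))
      (fun t => H.norm_coe_le_norm _) ha hb (fun _ _ => rfl) ?_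
    simp only [integral_smul_measure, ENNReal.toReal_inv, smul_eq_mul, integral_const_mul] at c1
    convert c1 using 2
    · rfl
    · simp only [Measure.real]
      ring
  · have := r1 _ (mul_pos ha ht) _ (mul_nonneg ha.le hs)
    simpa only [circleScale, smul_smul, mul_add, Function.comp_apply] using this
  · have := r2 _ (mul_pos ha ht) _ (mul_nonneg ha.le hs)
    have e : a' * (s * (a / a')) = a * s := by field_simp
    simpa only [circleScale, smul_smul, mul_add, Function.comp_apply, e] using this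

end TS

namespace TransSurf

variable {X : Type} [TopologicalSpace X] [T2Space X] [CompactSpace X] [MeasurableSpace X]
  [BorelSpace X] [SecondCountableTopology X] {Y : Type} [TopologicalSpace Y] [T2Space Y]
  [CompactSpace Y] [MeasurableSpace Y] [BorelSpace Y] [SecondCountableTopology Y]

omit [CompactSpace X] [BorelSpace X] [SecondCountableTopology X] in
/-- a trajectory passes the marked point at most once -/
lemma dj_tail (S : TransSurf X) {p₀ : X} {lam : Measure X} {T : TS X lam}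
    (h1 : ∀ x, x ∈ T.Sg ↔ (2 ≤ S.ord x ∨ x = p₀))
    (h2 : ∀ x ∉ T.Sg, ∀ᶠ y in 𝓝 (0 : ℂ),
      T.mv x y ∈ (S.chart x).source ∧ S.chart x (T.mv x y) = y)
    {p : X} {γ : ℝ → X} {e : ℂ} (he : e ≠ 0) (hγ : S.IsRay p e γ)
    (hg : ¬ ∃ r : ℝ, 0 < r ∧ ∃ x, T.IsSC x (r • e)) :
    ∃ b ≥ (0 : ℝ), ∀ b' ≥ b, T.IsRay e fun t => γ (max (t + b') 0) := by
  obtain ⟨b, hb, h⟩ : ∃ b ≥ (0 : ℝ), ∀ t > b, γ t ≠ p₀ := by
    by_cases h : ∃ b ≥ (0 : ℝ), γ b = p₀
    · obtain ⟨b, hb, h⟩ := h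
      have : S.IsRay p₀ e fun t => γ (t + b) := by
        refine ⟨by simpa using h, hγ.2.1.comp (by fun_prop) fun t ht => add_nonneg ht hb,
          fun t ht => ⟨(hγ.2.2 _ (by linarith)).1, ?_⟩⟩
        filter_upwards [((continuous_add_const b).tendsto t).eventually
          (hγ.2.2 (t + b) (by linarith)).2] with s hs
        rw [hs, add_sub_add_right_eq_sub]
      refine ⟨b, hb, fun t ht => ?_⟩
      simpa using S.rays_ne h1 h2 he this hg (sub_pos.2 ht)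
    · exact ⟨0, le_rfl, fun t ht e => h ⟨t, ht.le, e⟩⟩
  refine ⟨b, hb, fun b' hb' t ht s hs => ?_⟩
  have := rays_dev (T := T) (γ := γ) he (convex_Ioi b) (t₀ := t + b') (show b < t + b' by linarith)
    (fun u hu => S.rays_loc h2
      (S.rays_reg h1 (hγ.2.2 u (hb.trans_lt hu)).1 (h u hu))
      ((hγ.2.1 u (hb.trans_lt hu).le).mono fun v hv => (hb.trans_lt hv).le)
      ((hγ.2.2 u (hb.trans_lt hu)).2.filter_mono nhdsWithin_le_nhds))
    (t + s + b') (show b < t + s + b' by linarith)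
  rw [show t + s + b' - (t + b') = s by ring] at this
  simp only
  rwa [max_eq_left (by linarith), max_eq_left (by linarith)]

variable [ConnectedSpace X] [ConnectedSpace Y]

lemma dj_surf (hM : SDjMeas) (hS : SDjSect) (hT : SDjTens) (hI : SDjTime) (S : TransSurf X)
    (S' : TransSurf Y) {lam : Measure X} {mu : Measure Y} (hl : S.IsArea lam) (hm : S'.IsArea mu) :
    ((0 < lam univ ∧ lam univ < ⊤) ∧ (0 < mu univ ∧ mu univ < ⊤)) ∧ ∀ᵐ z ∂(orthN.prod orthN),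
      (∃ p γ, S.IsRay p (djEx z.1) γ) ∧ (∃ q γ', S'.IsRay q (djEx z.2) γ') ∧
      ∀ p q γ γ', S.IsRay p (djEx z.1) γ → S'.IsRay q (djEx z.2) γ' → ∀ H : C(X × Y, ℝ),
        Tendsto (fun T : ℝ => (∫ t in (0 : ℝ)..T, H (γ t, γ' t)) / T) atTop
          (𝓝 ((∫ x, ∫ y, H (x, y) ∂mu ∂lam) / ((lam univ).toReal * (mu univ).toReal))) := by
  obtain ⟨p₀⟩ : Nonempty X := inferInstance
  obtain ⟨q₀⟩ : Nonempty Y := inferInstance
  obtain ⟨T, h1, h2⟩ := S.exists_TS p₀ hl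
  obtain ⟨T', h1', h2'⟩ := S'.exists_TS q₀ hm
  have := T.isFiniteMeasure
  have := T'.isFiniteMeasure
  obtain ⟨Γ, -, g1⟩ := S.exists_rays h1 h2
  obtain ⟨Γ', -, g2⟩ := S'.exists_rays h1' h2'
  refine ⟨⟨⟨pos_iff_ne_zero.2 T.measure_pos, measure_lt_top _ _⟩,
    pos_iff_ne_zero.2 T'.measure_pos, measure_lt_top _ _⟩, ?_⟩
  filter_upwards [TS.dj_any hM hS hT hI T T', Measure.quasiMeasurePreserving_fst.ae g1,
    Measure.quasiMeasurePreserving_snd.ae g2, Measure.quasiMeasurePreserving_fst.ae (rays_good T),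
    Measure.quasiMeasurePreserving_snd.ae (rays_good T')] with z a1 a2 a3 a4 a5
  refine ⟨⟨_, _, a2⟩, ⟨_, _, a3⟩, fun p q γ γ' r1 r2 H => ?_⟩
  obtain ⟨b, hb, c1⟩ := S.dj_tail h1 h2 (Complex.exp_ne_zero _) r1 a4
  obtain ⟨b', -, c2⟩ := S'.dj_tail h1' h2' (Complex.exp_ne_zero _) r2 a5
  have m1 : Continuous fun t : ℝ => γ (max t 0) :=
    r1.2.1.comp_continuous (by fun_prop) fun t => le_max_right t 0
  have m2 : Continuous fun t : ℝ => γ' (max t 0) :=
    r2.2.1.comp_continuous (by fun_prop) fun t => le_max_right t 0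
  refine (a1 _ _ m1.measurable m2.measurable (max b b') (le_max_of_le_left hb)
    (c1 _ (le_max_left _ _)) (c2 _ (le_max_right _ _)) H).congr' ?_
  filter_upwards [eventually_ge_atTop 0] with t ht
  congr 1
  refine intervalIntegral.integral_congr fun u hu => ?_
  rw [uIcc_of_le ht] at hu
  simp only [max_eq_left hu.1]

end TransSurf

theorem dj_form (hM : SDjMeas) (hS : SDjSect) (hT : SDjTens) (hI : SDjTime)
    (X : Type) [TopologicalSpace X] [CompactSpace X] [T2Space X] [ConnectedSpace X]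
    [ChartedSpace ℂ X] [IsManifold (modelWithCornersSelf ℂ ℂ) 1 X] [MeasurableSpace X]
    [BorelSpace X] (ω : HolForm X) (hω : ∃ x, ω.coeff x (chartAt ℂ x x) ≠ 0)
    (Y : Type) [TopologicalSpace Y] [CompactSpace Y] [T2Space Y] [ConnectedSpace Y]
    [ChartedSpace ℂ Y] [IsManifold (modelWithCornersSelf ℂ ℂ) 1 Y] [MeasurableSpace Y]
    [BorelSpace Y] (η : HolForm Y) (hη : ∃ y, η.coeff y (chartAt ℂ y y) ≠ 0) :
    (∃ lam : Measure X, ω.IsArea lam) ∧ (∃ mu : Measure Y, η.IsArea mu) ∧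
    ∀ (lam : Measure X) (mu : Measure Y), ω.IsArea lam → η.IsArea mu →
      ((0 < lam univ ∧ lam univ < ⊤) ∧ (0 < mu univ ∧ mu univ < ⊤)) ∧
      ∀ᵐ z ∂(volume.restrict (Ioo (0 : ℝ) 1 ×ˢ Ioo (0 : ℝ) 1)),
        (∃ p γ, ω.IsRay p (Complex.exp (((2 * Real.pi * z.1 : ℝ) : ℂ) * Complex.I)) γ) ∧
        (∃ q γ', η.IsRay q (Complex.exp (((2 * Real.pi * z.2 : ℝ) : ℂ) * Complex.I)) γ') ∧
        ∀ (p : X) (q : Y) (γ : ℝ → X) (γ' : ℝ → Y),
          ω.IsRay p (Complex.exp (((2 * Real.pi * z.1 : ℝ) : ℂ) * Complex.I)) γ →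
          η.IsRay q (Complex.exp (((2 * Real.pi * z.2 : ℝ) : ℂ) * Complex.I)) γ' →
          ∀ H : C(X × Y, ℝ), Tendsto (fun T : ℝ => (∫ t in (0 : ℝ)..T, H (γ t, γ' t)) / T) atTop
            (𝓝 ((∫ x, ∫ y, H (x, y) ∂mu ∂lam) / ((lam univ).toReal * (mu univ).toReal))) := by
  have := ChartedSpace.secondCountable_of_sigmaCompact ℂ X
  have := ChartedSpace.secondCountable_of_sigmaCompact ℂ Y
  obtain ⟨S, h1⟩ := ω.rs_exists hω
  obtain ⟨S', h2⟩ := η.rs_exists hη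
  refine ⟨S.exists_area.imp fun _ => h1.area_to, S'.exists_area.imp fun _ => h2.area_to,
    fun lam mu hl hm => ?_⟩
  obtain ⟨a1, a2⟩ := TransSurf.dj_surf hM hS hT hI S S' (h1.area_of hl) (h2.area_of hm)
  refine ⟨a1, ?_⟩
  rw [Measure.volume_eq_prod, ← Measure.prod_restrict]
  filter_upwards [a2] with z ⟨⟨p, γ, b1⟩, ⟨q, γ', b2⟩, b3⟩
  exact ⟨⟨p, γ, h1.ray_to b1⟩, ⟨q, γ', h2.ray_to b2⟩, fun p q γ γ' c1 c2 =>
    b3 p q γ γ' (h1.ray_of (Complex.exp_ne_zero _) c1) (h2.ray_of (Complex.exp_ne_zero _) c2)⟩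

end Pool.Agent.MP_d0b2d2_an.Gen

end MainBPart
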