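import Pool.Agent.MP_d0b2d2_an.Ergo

open MeasureTheory Set Filter Topology Metric

namespace Pool.Agent.MP_d0b2d2_an

lemma long_avg {φ : ℝ → ℝ} (hφ : Measurable φ) {M : ℝ} (hM : ∀ t, |φ t| ≤ M) {S c : ℝ}
    (hS : 0 < S) (h : ∀ t, 0 ≤ t → ∫ s in t..t + S, φ s ≤ c * S) {T : ℝ} (hT : 0 ≤ T) :
    ∫ s in (0 : ℝ)..T, φ s ≤ c * T + (M + |c|) * S := by
  set n := ⌊T / S⌋₊
  have h1 : n * S ≤ T := by
    have := Nat.floor_le (div_nonneg hT hS.le)
    rwa [le_div_iff₀ hS] at this
  have h2 : T < n * S + S := by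
    have := Nat.lt_floor_add_one (T / S)
    rw [div_lt_iff₀ hS] at this; linarith
  have h3 := intervalIntegral.sum_integral_adjacent_intervals (f := φ)
    (μ := volume) (a := fun k : ℕ => k * S) (n := n) fun k _ => ii_bdd hφ hM _ _
  have h4 : ∑ k ∈ Finset.range n, ∫ s in ((k : ℕ) : ℝ) * S..((k + 1 : ℕ) : ℝ) * S, φ s ≤
      ∑ k ∈ Finset.range n, c * S := Finset.sum_le_sum fun k _ => by
    have := h (k * S) (by positivity)
    rwa [show ((k + 1 : ℕ) : ℝ) * S = k * S + S by push_cast; ring]
  rw [h3] at h4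
  simp only [Nat.cast_zero, zero_mul, Finset.sum_const, Finset.card_range, nsmul_eq_mul] at h4
  rw [← intervalIntegral.integral_add_adjacent_intervals (ii_bdd hφ hM 0 (n * S))
    (ii_bdd hφ hM _ T)]
  have h5 := intervalIntegral.norm_integral_le_of_norm_le_const (a := n * S) (b := T)
    (f := φ) (C := M) fun s _ => hM _
  have hM0 : 0 ≤ M := (abs_nonneg _).trans (hM 0)
  rw [Real.norm_eq_abs, abs_of_nonneg (by linarith : 0 ≤ T - n * S)] at h5
  have h6 : c * (n * S - T) ≤ |c| * S := by
    have : |n * S - T| ≤ S := abs_le.2 ⟨by linarith, by linarith⟩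
    calc _ ≤ |c * (n * S - T)| := le_abs_self _
      _ ≤ _ := by rw [abs_mul]; exact mul_le_mul_of_nonneg_left this (abs_nonneg _)
  nlinarith [le_abs_self (∫ s in (n : ℝ) * S..T, φ s)]

lemma exists_majorant {g : Tor → ℝ} {U : Set Tor} (hU : IsOpen U) (hU' : ∀ᵐ z, z ∈ U)
    (hg : ∀ z ∈ U, ContinuousAt g z) {M : ℝ} (hM0 : 0 < M) (hM : ∀ z, |g z| ≤ M) {ε : ℝ}
    (hε : 0 < ε) : ∃ G : Tor → ℝ, Continuous G ∧ (∀ z, g z ≤ G z) ∧ ∫ z, G z ≤ ∫ z, g z + ε := by
  obtain ⟨K, hKU, hK, hKε⟩ := hU.measurableSet.exists_isClosed_sdiff_lt (μ := volume)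
    (measure_ne_top _ _) (ε := ENNReal.ofReal (ε / (2 * M))) (by simp; positivity)
  obtain ⟨χ, h0, h1, h01⟩ := exists_continuous_zero_one_of_isClosed hU.isClosed_compl hK
    (disjoint_compl_left_iff_subset.2 hKU)
  have hc : Continuous fun z => M + χ z * (g z - M) := by
    refine continuous_const.add (continuous_iff_continuousAt.2 fun z => ?_)
    by_cases hz : z ∈ U
    · exact χ.continuous.continuousAt.mul ((hg z hz).sub continuousAt_const)
    · have e : χ z = 0 := h0 hz
      rw [ContinuousAt, e, zero_mul]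
      refine bdd_le_mul_tendsto_zero' (2 * M) ?_ ?_ |>.congr (fun y => mul_comm _ _)
      · exact Eventually.of_forall fun y => by
          simpa using abs_sub_le_two (hM y) (abs_of_pos hM0).le
      · rw [← e]; exact χ.continuous.tendsto z
  have hgm : AEStronglyMeasurable g := by
    have : ContinuousOn g U := fun z hz => (hg z hz).continuousWithinAt
    have h2 := this.aestronglyMeasurable (μ := volume) hU.measurableSet
    rwa [Measure.restrict_eq_self_of_ae_mem hU'] at h2
  have hgi : Integrable g := Integrable.of_bound hgm M (ae_of_all _ hM)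
  refine ⟨_, hc, fun z => ?_, ?_⟩
  · nlinarith [(h01 z).2, (abs_le.1 (hM z)).2]
  · have hv : (volume : Measure Tor).real Kᶜ ≤ ε / (2 * M) := by
      have : volume Kᶜ ≤ volume (U \ K) := by
        refine measure_mono_ae ?_
        filter_upwards [hU'] with z hz hz' using ⟨hz, hz'⟩
      exact ENNReal.toReal_le_of_le_ofReal (by positivity) (this.trans hKε.le)
    calc _ ≤ ∫ z, (g z + Kᶜ.indicator (fun _ => 2 * M) z) := by
          refine integral_mono (hc.integrable_of_hasCompactSupport (HasCompactSupport.of_compactSpace _))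
            (hgi.add ((integrable_const _).indicator hK.measurableSet.compl)) fun z => ?_
          by_cases hz : z ∈ K
          · have e : χ z = 1 := h1 hz
            simp [e, hz]
          · simp only [mem_compl_iff, hz, not_false_eq_true, indicator_of_mem]
            nlinarith [(h01 z).1, (abs_le.1 (hM z)).1, (abs_le.1 (hM z)).2]
      _ ≤ _ := by
          rw [integral_add hgi ((integrable_const _).indicator hK.measurableSet.compl),
            integral_indicator hK.measurableSet.compl, setIntegral_const, smul_eq_mul, integral_add hgi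
            (integrable_const _)]
          rw [le_div_iff₀ (by positivity)] at hv
          simpa using hv

lemma exists_bound {X : Type} [TopologicalSpace X] [CompactSpace X] {h : X → ℝ}
    (hh : Continuous h) : ∃ M > 0, ∀ x, |h x| ≤ M := by
  obtain ⟨C, hC⟩ := (isCompact_univ (X := X)).exists_bound_of_continuousOn hh.continuousOn
  exact ⟨|C| + 1, by positivity, fun x => by
    linarith [hC x (mem_univ _), le_abs_self C, Real.norm_eq_abs (h x)]⟩

variable {X : Type} [TopologicalSpace X] {π : X → Tor} {P : Set Tor}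
variable [CompactSpace X] [MeasurableSpace X] [BorelSpace X] [SecondCountableTopology X]

lemma integral_comp_pi (H : IsTorusCover π P) {g : Tor → ℝ} (hg : Measurable g) {M : ℝ}
    (hM : ∀ z, |g z| ≤ M) : ∫ x, g (π x) ∂lam H = deg H * ∫ z, g z := by
  rw [integral_lam H (f := fun x => g (π x)) (hg.comp H.cont.measurable) (fun x => hM _),
    ← integral_const_mul]
  refine integral_congr_ae ?_
  filter_upwards [ae_notMem_P H.finP] with z hz
  rw [← card_fib H hz, ← nsmul_eq_mul, ← Finset.sum_const]
  refine Finset.sum_congr rfl fun x hx => ?_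
  rw [(mem_fib H).1 hx]

/-- equidistribution on the base torus -/
lemma base_equi (H : IsTorusCover π P) {w : ℝ × ℝ} (hw : Thick P w) {g : Tor → ℝ}
    (hg : Continuous g) {ε : ℝ} (hε : 0 < ε) : ∃ S > 0, ∀ z,
      ∫ s in (0 : ℝ)..S, g (z + proj (s • w)) ≤ ((∫ z, g z) + ε) * S := by
  have hd : (0 : ℝ) < deg H := by exact_mod_cast deg_pos H
  let g₀ : Tor → ℝ := fun z => g z - ∫ z, g z
  have hg₀ : Continuous g₀ := hg.sub continuous_const
  obtain ⟨M, hM0, hM⟩ := exists_bound hg₀
  obtain ⟨δ, hδ, hu⟩ := Metric.uniformContinuous_iff.1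
    (CompactSpace.uniformContinuous_of_continuous hg₀) (ε / 2) (by linarith)
  set V := (volume : Measure Tor).real (ball 0 δ) with hV
  have hV0 : 0 < V := ENNReal.toReal_pos (measure_ball_pos _ _ hδ).ne' (measure_ne_top _ _)
  have h0 : ∫ x, g₀ (π x) ∂lam H = 0 := by
    rw [integral_comp_pi H hg₀.measurable hM, integral_sub
      (hg.integrable_of_hasCompactSupport (HasCompactSupport.of_compactSpace _)) (integrable_const _)]
    simp
  obtain ⟨S, hS, hS'⟩ := ergodic_of_thick H hw (h := fun x => g₀ (π x)) (hg₀.comp H.cont) hM0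
    (fun x => hM _) h0 (ε := deg H * (V * (ε / 2))) (by positivity)
  let A : Tor → ℝ := fun z => (∫ s in (0 : ℝ)..S, g₀ (z + proj (s • w))) / S
  have hcs : ∀ z, Continuous fun s : ℝ => g₀ (z + proj (s • w)) := fun z =>
    hg₀.comp (continuous_const.add (continuous_proj.comp (by fun_prop)))
  have hAm : Measurable A := (measurable_ii (f := fun a : Tor × ℝ => g₀ (a.1 + proj (a.2 • w)))
    (hg₀.comp (continuous_fst.add (continuous_proj.comp (by fun_prop)))).measurable 0 S).div_const S
  have hAb : ∀ z, |(|A z|)| ≤ M := fun z => by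
    rw [abs_abs, abs_div, abs_of_pos hS, div_le_iff₀ hS]
    have := intervalIntegral.norm_integral_le_of_norm_le_const (a := 0) (b := S)
      (f := fun s => g₀ (z + proj (s • w))) (C := M) fun s _ => hM _
    simpa [abs_of_pos hS] using this
  have e1 : ∫ x, |av H w (fun x => g₀ (π x)) 0 S x| ∂lam H = deg H * ∫ z, |A z| := by
    rw [← integral_comp_pi H hAm.abs hAb]
    refine integral_congr_ae ?_
    filter_upwards [ae_Line H w] with x hx
    simp only [av, A, zero_add, mv_proj H (hx.ok _)]
  rw [e1] at hS'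
  have e2 : ∫ z, |A z| ≤ V * (ε / 2) := le_of_mul_le_mul_left hS' hd
  refine ⟨S, hS, fun z => ?_⟩
  have e3 : ∀ z' ∈ ball z δ, A z - ε / 2 ≤ |A z'| := by
    intro z' hz'
    refine le_trans ?_ (le_abs_self _)
    have := intervalIntegral.norm_integral_le_of_norm_le_const (a := 0) (b := S)
      (f := fun s => g₀ (z + proj (s • w)) - g₀ (z' + proj (s • w))) (C := ε / 2) fun s _ =>
        (hu (by rw [dist_add_right, dist_comm]; exact hz')).le
    rw [intervalIntegral.integral_sub ((hcs z).intervalIntegrable _ _)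
      ((hcs z').intervalIntegrable _ _), Real.norm_eq_abs, sub_zero, abs_of_pos hS] at this
    have := (abs_le.1 this).2
    simp only [A]
    rw [sub_le_iff_le_add, div_le_iff₀ hS, add_mul, div_mul_cancel₀ _ hS.ne']
    linarith
  have e4 : V * (A z - ε / 2) ≤ ∫ z, |A z| := by
    calc _ = ∫ z' in ball z δ, (A z - ε / 2) := by
          rw [setIntegral_const, smul_eq_mul, Measure.addHaar_real_ball_center]
      _ ≤ ∫ z' in ball z δ, |A z'| := setIntegral_mono_on (integrable_const _)
          (integrable_bdd hAm.abs hAb) measurableSet_ball e3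
      _ ≤ _ := setIntegral_le_integral (integrable_bdd hAm.abs hAb)
          (ae_of_all _ fun _ => abs_nonneg _)
  have e5 : A z ≤ ε := by linarith [le_of_mul_le_mul_left (e4.trans e2) hV0]
  simp only [A, g₀] at e5
  have hc : Continuous fun s : ℝ => g (z + proj (s • w)) :=
    hg.comp (continuous_const.add (continuous_proj.comp (by fun_prop)))
  rw [div_le_iff₀ hS, intervalIntegral.integral_sub (hc.intervalIntegrable _ _)
    intervalIntegrable_const] at e5
  simp only [intervalIntegral.integral_const, sub_zero, smul_eq_mul] at e5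
  linarith

lemma base_equi' (H : IsTorusCover π P) {w : ℝ × ℝ} (hw : Thick P w) {g : Tor → ℝ}
    (hg : Continuous g) {ε : ℝ} (hε : 0 < ε) (z : Tor) : ∃ K, ∀ T, 0 ≤ T →
      ∫ s in (0 : ℝ)..T, g (z + proj (s • w)) ≤ ((∫ z, g z) + ε) * T + K := by
  obtain ⟨S, hS, h⟩ := base_equi H hw hg hε
  obtain ⟨M, -, hM⟩ := exists_bound hg
  refine ⟨_, fun T hT => long_avg (hg.comp (continuous_const.add
    (continuous_proj.comp (by fun_prop)))).measurable (fun t => hM _) hS (fun t _ => ?_) hT⟩
  have := h (z + proj (t • w))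
  have e : ∀ s : ℝ, z + proj (t • w) + proj (s • w) = z + proj ((t + s) • w) := fun s => by
    rw [add_smul, proj_add, add_assoc]
  simp_rw [e] at this
  rw [intervalIntegral.integral_comp_add_left (fun s => g (z + proj (s • w))), add_zero] at this
  exact this

lemma continuousAt_fs (H : IsTorusCover π P) {f : X → ℝ} {z : Tor} (hz : z ∉ P)
    (hf : ∀ x, π x = z → ContinuousAt f x) : ContinuousAt (fun z => ∑ x ∈ fib H z, f x) z := by
  have hc : Continuous fun c => z + proj c := continuous_const.add continuous_proj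
  have hm := ((isOpenMap_add_left z).comp isOpenMap_proj).map_nhds_eq (x := 0) hc.continuousAt
  simp only [Function.comp, proj_zero, add_zero] at hm
  rw [ContinuousAt, ← hm, tendsto_map'_iff]
  have h1 : Tendsto (fun c => ∑ x ∈ fib H z, f (mv H x c)) (𝓝 0) (𝓝 (∑ x ∈ fib H z, f x)) :=
    tendsto_finset_sum _ fun x hx => (hf x ((mem_fib H).1 hx)).tendsto.comp
      (tendsto_mv_zero H (by rw [(mem_fib H).1 hx]; exact hz))
  refine h1.congr' ?_
  have h2 : ∀ᶠ c in 𝓝 (0 : ℝ × ℝ), Ok P z c :=
    ((isOpen_ok H.finP).preimage (f := fun c => (z, c)) (by fun_prop)).mem_nhds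
      fun s _ => by simpa [proj_zero] using hz
  filter_upwards [h2] with c hc using sum_fib_mv H f hc

lemma ergodic_large (H : IsTorusCover π P) {w : ℝ × ℝ} (hw : Thick P w) {h : X → ℝ}
    (hh : Continuous h) {M : ℝ} (hM0 : 0 < M) (hM : ∀ x, |h x| ≤ M) (h0 : ∫ x, h x ∂lam H = 0)
    {ε : ℝ} (hε : 0 < ε) : ∀ᶠ Λ in atTop, ∫ x, |av H w h 0 Λ x| ∂lam H ≤ ε := by
  obtain ⟨S, hS, hS'⟩ := ergodic_of_thick H hw hh hM0 hM h0 (half_pos hε)
  have ht : Tendsto (fun Λ : ℝ => deg H * (M * S) / Λ) atTop (𝓝 0) :=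
    tendsto_const_nhds.div_atTop tendsto_id
  filter_upwards [ht.eventually_le_const (half_pos hε), eventually_ge_atTop S] with Λ h1 h2
  have hΛ : 0 < Λ := hS.trans_le h2
  set n := ⌊Λ / S⌋₊
  have n1 : n * S ≤ Λ := by
    have := Nat.floor_le (div_nonneg hΛ.le hS.le)
    rwa [le_div_iff₀ hS] at this
  have n2 : Λ < n * S + S := by
    have := Nat.lt_floor_add_one (Λ / S)
    rw [div_lt_iff₀ hS] at this; linarith
  have n3 : 0 < n := Nat.floor_pos.2 ((one_le_div hS).2 h2)
  have n4 : (0 : ℝ) < n := by exact_mod_cast n3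
  have ma := fun a S => measurable_av H w hh.measurable a S
  have ia : ∀ a, Integrable (fun x => |av H w h a S x|) (lam H) := fun a =>
    (integrable_bdd (ma a S) (abs_av_le H w hM a hS)).abs
  have ea : ∀ a, ∫ x, |av H w h (a + 0) S x| ∂lam H = ∫ x, |av H w h 0 S x| ∂lam H := by
    intro a
    rw [← integral_comp_mv H (a • w) (ma 0 S).abs]
    refine integral_congr_ae ?_
    filter_upwards [ae_Line H w] with x hx
    rw [av_flow H h hx]
  calc _ ≤ ∫ x, ((∑ k ∈ Finset.range n, |av H w h (k * S + 0) S x|) * (S / Λ) + M * S / Λ)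
        ∂lam H := by
        refine integral_mono_of_nonneg (ae_of_all _ fun _ => abs_nonneg _)
          (((integrable_finset_sum _ fun k _ => ia _).mul_const _).add (integrable_const _))
          (ae_of_all _ fun x => ?_)
        have c1 := Finset.abs_sum_le_sum_abs (fun k : ℕ => av H w h (k * S + 0) S x) (Finset.range n)
        rw [av_sum H w hh.measurable hM 0 hS x n3] at c1
        have c2 := intervalIntegral.norm_integral_le_of_norm_le_const (a := n * S) (b := Λ)
          (f := fun s => h (mv H x (s • w))) (C := M) fun s _ => hM _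
        rw [Real.norm_eq_abs, abs_of_nonneg (by linarith : 0 ≤ Λ - n * S)] at c2
        have c3 : av H w h 0 Λ x = (n * av H w h 0 (n * S) x * S +
            ∫ s in n * S..Λ, h (mv H x (s • w))) / Λ := by
          unfold av
          rw [zero_add, zero_add, ← intervalIntegral.integral_add_adjacent_intervals
            (ii_fl H w hh.measurable hM x 0 (n * S)) (ii_fl H w hh.measurable hM x _ Λ)]
          field_simp
        beta_reduce
        rw [c3, abs_div, abs_of_pos hΛ, ← mul_div_assoc, ← add_div]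
        refine div_le_div_of_nonneg_right ((abs_add_le _ _).trans (add_le_add ?_ ?_)) hΛ.le
        · rw [abs_mul _ S, abs_of_pos hS]; exact mul_le_mul_of_nonneg_right c1 hS.le
        · nlinarith
    _ ≤ ε := by
        rw [integral_add ((integrable_finset_sum _ fun k _ => ia _).mul_const _) (integrable_const _),
          integral_mul_const, integral_finset_sum _ fun k _ => ia _, integral_const, lam_real_univ]
        simp only [ea, Finset.sum_const, Finset.card_range, nsmul_eq_mul, smul_eq_mul]
        have : n * (∫ x, |av H w h 0 S x| ∂lam H) * (S / Λ) ≤ ε / 2 := by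
          rw [← mul_div_assoc, div_le_iff₀ hΛ]
          have : n * S * ∫ x, |av H w h 0 S x| ∂lam H ≤ Λ * (ε / 2) :=
            mul_le_mul n1 hS' (integral_nonneg fun _ => abs_nonneg _) hΛ.le
          linarith
        rw [mul_div_assoc] at h1
        linarith

/-- a forward trajectory avoiding the branch points at positive times -/
structure Traj (π : X → Tor) (P : Set Tor) (w : ℝ × ℝ) (z₀ : Tor) (g : ℝ → X) : Prop where
  cont : ContinuousOn g (Ici 0)
  pr : ∀ t : ℝ, 0 ≤ t → π (g t) = z₀ + proj (t • w)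
  avoid : ∀ t : ℝ, 0 < t → z₀ + proj (t • w) ∉ P

omit [CompactSpace X] [MeasurableSpace X] [BorelSpace X] [SecondCountableTopology X] in
lemma Traj.eq_mv (H : IsTorusCover π P) {w : ℝ × ℝ} {z₀ : Tor} {g : ℝ → X} (hg : Traj π P w z₀ g)
    {t s : ℝ} (ht : 0 < t) (hs : 0 ≤ s) : g (t + s) = mv H (g t) (s • w) :=
  traj_eq_mv H hs (hg.cont.mono fun r hr => ht.le.trans hr.1)
    (fun r hr => hg.pr r (ht.le.trans hr.1)) fun r hr => hg.avoid r (ht.trans_le hr.1)

/-- local means along every trajectory are small -/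
theorem traj_local_mean (H : IsTorusCover π P) {w : ℝ × ℝ} (hw : Thick P w) {h : X → ℝ}
    (hh : Continuous h) {M : ℝ} (hM0 : 0 < M) (hM : ∀ x, |h x| ≤ M) (h0 : ∫ x, h x ∂lam H = 0)
    {z₀ : Tor} {g : ℝ → X} (hg : Traj π P w z₀ g) {ε : ℝ} (hε : 0 < ε) :
    ∀ᶠ Λ in atTop, ∃ K, ∀ T, 0 ≤ T →
      ∫ t in (0 : ℝ)..T, |(∫ s in (0 : ℝ)..Λ, h (g (t + s))) / Λ| ≤ ε * T + K := by
  have hd : (0 : ℝ) < deg H := by exact_mod_cast deg_pos H
  filter_upwards [ergodic_large H hw hh hM0 hM h0 (ε := ε / 3) (by linarith),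
    eventually_gt_atTop 0] with Λ h1 hΛ
  have ba := abs_av_le H w hM 0 hΛ
  have ma := measurable_av H w hh.measurable 0 Λ
  let U : Set Tor := {z | Ok P z (Λ • w)}
  have hU : IsOpen U := (isOpen_ok H.finP).preimage (f := fun z => (z, Λ • w)) (by fun_prop)
  let F : Tor → ℝ := U.indicator fun z => ∑ x ∈ fib H z, |av H w h 0 Λ x|
  have hF : ∀ z, |F z| ≤ deg H * M := by
    intro z
    by_cases hz : z ∈ U
    · simp only [F, indicator_of_mem hz]
      rw [abs_of_nonneg (Finset.sum_nonneg fun _ _ => abs_nonneg _), ← card_fib H hz.notMem,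
        ← nsmul_eq_mul]
      exact Finset.sum_le_card_nsmul _ _ _ fun x _ => ba x
    · simp only [F, indicator_of_notMem hz, abs_zero]; positivity
  obtain ⟨G, hG, hFG, hGi⟩ := exists_majorant (g := F) hU (ae_ok H.finP _) (fun z hz => by
    refine (continuousAt_fs H (f := fun x => |av H w h 0 Λ x|) hz.notMem fun x hx =>
      (continuousAt_av H w hh hM hΛ (hx ▸ hz)).abs).congr ?_
    filter_upwards [hU.mem_nhds hz] with z' hz'
    simp only [F, indicator_of_mem hz']) (by positivity) hF (ε := ε / 3) (by linarith)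
  have e1 : ∫ z, (F z + ε / 3) ≤ ε / 3 + ε / 3 := by
    have : ∀ᵐ z, F z = ∑ x ∈ fib H z, |av H w h 0 Λ x| := by
      filter_upwards [ae_ok H.finP (Λ • w)] with z hz
      exact indicator_of_mem (show z ∈ U from hz) _
    rw [integral_add (Integrable.of_bound ((aemeasurable_fs_real H ma.abs).congr
      (EventuallyEq.symm this)).aestronglyMeasurable _ (ae_of_all _ hF)) (integrable_const _),
      integral_congr_ae this, ← integral_lam H ma.abs (M := M) (by simpa using ba)]
    simpa using h1
  obtain ⟨K, hK⟩ := base_equi' H hw hG (ε := ε / 3) (by linarith) z₀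
  refine ⟨K, fun T hT => ?_⟩
  have e2 : ((∫ z, G z) + ε / 3) * T ≤ ε * T := mul_le_mul_of_nonneg_right (by linarith) hT
  refine le_trans ?_ ((hK T hT).trans (by linarith))
  rw [intervalIntegral.integral_of_le hT, intervalIntegral.integral_of_le hT]
  refine integral_mono_of_nonneg (ae_of_all _ fun _ => abs_nonneg _)
    ((hG.comp (continuous_const.add (continuous_proj.comp (by fun_prop)))).integrableOn_Ioc) ?_
  filter_upwards [ae_restrict_mem measurableSet_Ioc] with t ht
  have hz : z₀ + proj (t • w) ∈ U := fun s hs => by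
    rw [add_assoc, ← proj_add, smul_smul, ← add_smul]
    exact hg.avoid _ (by nlinarith [ht.1, hs.1])
  refine le_trans ?_ (hFG _)
  simp only [F, indicator_of_mem hz]
  refine le_trans (le_of_eq ?_) (Finset.single_le_sum (f := fun x => |av H w h 0 Λ x|)
    (fun _ _ => abs_nonneg _) ((mem_fib H).2 (hg.pr t ht.1.le)))
  unfold av
  rw [zero_add]
  congr 2
  refine intervalIntegral.integral_congr fun s hs => ?_
  rw [uIcc_of_le hΛ.le] at hs
  simp only [hg.eq_mv H ht.1 hs.1]

end Pool.Agent.MP_d0b2d2_an
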