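import Pool.Agent.MP_d0b2d2_an.Poinc

open MeasureTheory Set Filter Topology Metric

namespace Pool.Agent.MP_d0b2d2_an

variable {X : Type} [TopologicalSpace X] {π : X → Tor} {P : Set Tor}

def Line (P : Set Tor) (w : ℝ × ℝ) (z : Tor) : Prop := ∀ t : ℝ, z + proj (t • w) ∉ P

lemma convex_line (w : ℝ × ℝ) : Convex ℝ (range fun s : ℝ => s • w) := by
  rw [← image_univ]
  exact convex_univ.is_linear_image (IsLinearMap.isLinearMap_smul' w)

lemma Line.flow (H : IsTorusCover π P) {w : ℝ × ℝ} {x : X} (h : Line P w (π x)) (s t : ℝ) :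
    mv H (mv H x (s • w)) (t • w) = mv H x ((s + t) • w) := by
  rw [add_smul]
  exact mv_mv H (convex_line w) ⟨0, by simp⟩ (by rintro _ ⟨t, rfl⟩; exact h t) ⟨s, rfl⟩
    ⟨s + t, add_smul _ _ _⟩

lemma Line.ok {w : ℝ × ℝ} {z : Tor} (h : Line P w z) (t : ℝ) : Ok P z (t • w) := fun s _ => by
  rw [smul_smul]; exact h _

lemma Ok.smul {z : Tor} {u : ℝ × ℝ} (h : Ok P z u) {t : ℝ} (ht : t ∈ Icc (0 : ℝ) 1) :
    Ok P z (t • u) := fun s hs => by
  rw [smul_smul]
  exact h _ ⟨mul_nonneg hs.1 ht.1, mul_le_one₀ hs.2 ht.1 ht.2⟩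

/-- the average along the flow segment `[a, a + S]` -/
noncomputable def av (H : IsTorusCover π P) (w : ℝ × ℝ) (h : X → ℝ) (a S : ℝ) (x : X) : ℝ :=
  (∫ s in a..a + S, h (mv H x (s • w))) / S

lemma abs_av_le (H : IsTorusCover π P) (w : ℝ × ℝ) {h : X → ℝ} {M : ℝ} (hM : ∀ x, |h x| ≤ M)
    (a : ℝ) {S : ℝ} (hS : 0 < S) (x : X) : |av H w h a S x| ≤ M := by
  unfold av
  rw [abs_div, abs_of_pos hS, div_le_iff₀ hS]
  have := intervalIntegral.norm_integral_le_of_norm_le_const (a := a) (b := a + S)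
    (f := fun s => h (mv H x (s • w))) (C := M) fun s _ => hM _
  simpa [abs_of_pos hS] using this

lemma av_flow (H : IsTorusCover π P) {w : ℝ × ℝ} (h : X → ℝ) {x : X} (hx : Line P w (π x))
    (a S b : ℝ) : av H w h a S (mv H x (b • w)) = av H w h (b + a) S x := by
  unfold av
  simp_rw [hx.flow H]
  rw [intervalIntegral.integral_comp_add_left (fun s => h (mv H x (s • w))), add_assoc]

variable [CompactSpace X] [MeasurableSpace X] [BorelSpace X] [SecondCountableTopology X]

lemma measurable_fl (H : IsTorusCover π P) (w : ℝ × ℝ) {h : X → ℝ} (hh : Measurable h) :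
    Measurable fun a : X × ℝ => h (mv H a.1 (a.2 • w)) :=
  hh.comp (measurable_mv₂ H measurable_fst (measurable_snd.smul_const w))

lemma ii_bdd {f : ℝ → ℝ} (hf : Measurable f) {M : ℝ} (hM : ∀ x, |f x| ≤ M) (a b : ℝ) :
    IntervalIntegrable f volume a b := by
  rw [intervalIntegrable_iff]
  exact Measure.integrableOn_of_bounded (M := M) (by simp [uIoc]) hf.aestronglyMeasurable
    (ae_of_all _ hM)

lemma measurable_ii {A : Type} [MeasurableSpace A] {f : A × ℝ → ℝ} (hf : Measurable f) (a b : ℝ) :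
    Measurable fun x => ∫ s in a..b, f (x, s) := by
  unfold intervalIntegral
  exact (hf.stronglyMeasurable.integral_prod_right').measurable.sub
    (hf.stronglyMeasurable.integral_prod_right').measurable

lemma measurable_av (H : IsTorusCover π P) (w : ℝ × ℝ) {h : X → ℝ} (hh : Measurable h) (a S : ℝ) :
    Measurable (av H w h a S) :=
  (measurable_ii (measurable_fl H w hh) a (a + S)).div_const S

lemma ii_fl (H : IsTorusCover π P) (w : ℝ × ℝ) {h : X → ℝ} (hh : Measurable h) {M : ℝ}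
    (hM : ∀ x, |h x| ≤ M) (x : X) (a b : ℝ) :
    IntervalIntegrable (fun s : ℝ => h (mv H x (s • w))) volume a b :=
  ii_bdd ((measurable_fl H w hh).comp (measurable_const.prodMk measurable_id)) (fun _ => hM _) a b

lemma av_sub_le (H : IsTorusCover π P) (w : ℝ × ℝ) {h : X → ℝ} (hh : Measurable h) {M : ℝ}
    (hM : ∀ x, |h x| ≤ M) (a : ℝ) {S : ℝ} (hS : 0 < S) (x : X) :
    |av H w h a S x - av H w h 0 S x| ≤ 2 * M * |a| / S := by
  unfold av
  rw [← sub_div, abs_div, abs_of_pos hS]
  refine div_le_div_of_nonneg_right ?_ hS.le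
  rw [intervalIntegral.integral_interval_sub_interval_comm' (ii_fl H w hh hM x _ _)
    (ii_fl H w hh hM x _ _) (ii_fl H w hh hM x _ _)]
  have h1 := intervalIntegral.norm_integral_le_of_norm_le_const (a := 0 + S) (b := a + S)
    (f := fun s => h (mv H x (s • w))) (C := M) fun s _ => hM _
  have h2 := intervalIntegral.norm_integral_le_of_norm_le_const (a := 0) (b := a)
    (f := fun s => h (mv H x (s • w))) (C := M) fun s _ => hM _
  simp only [Real.norm_eq_abs, add_sub_add_right_eq_sub, sub_zero] at h1 h2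
  linarith [abs_sub (∫ s in 0 + S..a + S, h (mv H x (s • w))) (∫ s in 0..a, h (mv H x (s • w)))]

lemma av_sum (H : IsTorusCover π P) (w : ℝ × ℝ) {h : X → ℝ} (hh : Measurable h) {M : ℝ}
    (hM : ∀ x, |h x| ≤ M) (a : ℝ) {S : ℝ} (hS : 0 < S) (x : X) {n : ℕ} (hn : 0 < n) :
    ∑ k ∈ Finset.range n, av H w h (k * S + a) S x = n * av H w h a (n * S) x := by
  unfold av
  have := intervalIntegral.sum_integral_adjacent_intervals (f := fun s => h (mv H x (s • w)))
    (μ := volume) (a := fun k : ℕ => k * S + a) (n := n) fun k _ => ii_fl H w hh hM x _ _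
  rw [← Finset.sum_div]
  have e : ∀ k : ℕ, (k : ℝ) * S + a + S = ((k + 1 : ℕ) : ℝ) * S + a := fun k => by push_cast; ring
  simp_rw [e]
  rw [this]
  have : (n : ℝ) ≠ 0 := by positivity
  simp only [Nat.cast_zero, zero_mul, zero_add, add_comm a]
  field_simp

lemma integral_comp_mv (H : IsTorusCover π P) (u : ℝ × ℝ) {f : X → ℝ} (hf : Measurable f) :
    ∫ x, f (mv H x u) ∂lam H = ∫ x, f x ∂lam H := by
  have hp := measurePreserving_mv H u
  conv_rhs => rw [← hp.map_eq]
  rw [integral_map hp.measurable.aemeasurable hf.aestronglyMeasurable]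

lemma ae_Line (H : IsTorusCover π P) (w : ℝ × ℝ) : ∀ᵐ x ∂lam H, Line P w (π x) :=
  ae_lam H (ae_line H.finP w)

lemma integrable_sq {f : X → ℝ} {μ : Measure X} [IsFiniteMeasure μ] (hf : Measurable f) {M : ℝ}
    (hM : ∀ x, |f x| ≤ M) : Integrable (fun x => f x ^ 2) μ :=
  integrable_bdd (hf.pow_const 2) (M := M ^ 2) fun x => by
    rw [abs_pow]; exact pow_le_pow_left₀ (abs_nonneg _) (hM x) 2

/-- near invariance of long averages -/
lemma near_inv_sq (H : IsTorusCover π P) (w : ℝ × ℝ) {h : X → ℝ} (hh : Measurable h) {M : ℝ}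
    (hM : ∀ x, |h x| ≤ M) {η : ℝ} (hη : 0 < η) : ∃ S > 0, ∀ a : ℝ,
      ∫ x, (av H w h 0 S x - av H w h a S x) ^ 2 ∂lam H ≤ 4 * η := by
  let E : Ioi (0 : ℝ) → ℝ := fun S => ∫ x, av H w h 0 S x ^ 2 ∂lam H
  have hb : BddBelow (range E) := ⟨0, by
    rintro _ ⟨S, rfl⟩; exact integral_nonneg fun x => sq_nonneg _⟩
  haveI : Nonempty (Ioi (0 : ℝ)) := ⟨⟨1, by simp⟩⟩
  obtain ⟨⟨S, hS⟩, hSE⟩ := exists_lt_of_ciInf_lt (show ⨅ S, E S < (⨅ S, E S) + η by linarith)
  have hS : 0 < S := hS
  refine ⟨S, hS, fun a => ?_⟩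
  have hM0 : 0 ≤ M := by
    obtain ⟨x, -⟩ := H.conn.nonempty
    exact (abs_nonneg _).trans (hM x)
  have ma := fun a S => measurable_av H w hh a S
  have ba := fun a S hS => abs_av_le H w hM a (S := S) hS
  have b2 : ∀ a b S, 0 < S → ∀ x, |av H w h a S x + av H w h b S x| ≤ 2 * M := fun a b S hS x => by
    linarith [abs_add_le (av H w h a S x) (av H w h b S x), ba a S hS x, ba b S hS x]
  have sh : ∀ b : ℝ, ∫ x, (av H w h (b + 0) S x + av H w h (b + a) S x) ^ 2 ∂lam H =
      ∫ x, (av H w h 0 S x + av H w h a S x) ^ 2 ∂lam H := by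
    intro b
    rw [← integral_comp_mv H (b • w) (((ma 0 S).fun_add (ma a S)).pow_const 2)]
    refine integral_congr_ae ?_
    filter_upwards [ae_Line H w] with x hx
    rw [av_flow H h hx, av_flow H h hx]
  have key : 4 * (⨅ S, E S) ≤ ∫ x, (av H w h 0 S x + av H w h a S x) ^ 2 ∂lam H := by
    have ht : Tendsto (fun n : ℕ => 4 * (⨅ S, E S) - deg H * (4 * M * (2 * M * |a| / S)) / n)
        atTop (𝓝 (4 * (⨅ S, E S) - 0)) :=
      tendsto_const_nhds.sub (tendsto_const_div_atTop_nhds_zero_nat _)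
    rw [sub_zero] at ht
    refine le_of_tendsto ht ?_
    filter_upwards [eventually_gt_atTop 0] with n hn
    have hn' : (0 : ℝ) < n := by exact_mod_cast hn
    have hnS : 0 < n * S := by positivity
    have h1 : ⨅ S, E S ≤ ∫ x, av H w h 0 (n * S) x ^ 2 ∂lam H := ciInf_le hb ⟨n * S, hnS⟩
    have h2 : ∫ x, (4 * av H w h 0 (n * S) x ^ 2 - 4 * M * (2 * M * |a| / S) / n) ∂lam H ≤
        ∫ x, (∑ k ∈ Finset.range n,
          (av H w h (k * S + 0) S x + av H w h (k * S + a) S x) ^ 2) / n ∂lam H := by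
      refine integral_mono (((integrable_sq (ma _ _) (ba _ _ hnS)).const_mul 4).sub
        (integrable_const _)) ((integrable_finset_sum _ fun k _ =>
          integrable_sq ((ma _ _).fun_add (ma _ _)) (b2 _ _ _ hS)).div_const _) fun x => ?_
      have c1 := sq_sum_le_card_mul_sum_sq (s := Finset.range n)
        (f := fun k => av H w h (k * S + 0) S x + av H w h (k * S + a) S x)
      rw [Finset.sum_add_distrib, av_sum H w hh hM 0 hS x hn, av_sum H w hh hM a hS x hn,
        Finset.card_range] at c1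
      have c2 := av_sub_le H w hh hM a hnS x
      have c3 := ba 0 _ hnS x
      have c4 : 2 * M * |a| / (n * S) = 2 * M * |a| / S / n := by field_simp
      rw [c4] at c2
      beta_reduce
      rw [le_div_iff₀ hn']
      refine le_of_mul_le_mul_left (le_trans ?_ c1) hn'
      set u := av H w h 0 (n * S) x
      set v := av H w h a (n * S) x
      set d := 2 * M * |a| / S
      have c5 : |u * (v - u)| ≤ M * (d / n) := by
        rw [abs_mul]; exact mul_le_mul c3 c2 (abs_nonneg _) hM0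
      have c6 : 4 * u ^ 2 - 4 * M * d / n ≤ (u + v) ^ 2 := by
        have : 4 * M * d / n = 4 * (M * (d / n)) := by ring
        nlinarith [neg_abs_le (u * (v - u)), sq_nonneg (v - u)]
      nlinarith [mul_le_mul_of_nonneg_left c6 (mul_pos hn' hn').le]
    rw [integral_sub ((integrable_sq (ma _ _) (ba _ _ hnS)).const_mul 4) (integrable_const _),
      integral_const_mul, integral_const, lam_real_univ, integral_div, integral_finset_sum _
        fun k _ => integrable_sq ((ma _ _).fun_add (ma _ _)) (b2 _ _ _ hS)] at h2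
    simp only [sh, Finset.sum_const, Finset.card_range, nsmul_eq_mul, smul_eq_mul] at h2
    rw [mul_div_cancel_left₀ _ hn'.ne'] at h2
    have : deg H * (4 * M * (2 * M * |a| / S)) / n = deg H * (4 * M * (2 * M * |a| / S) / n) := by
      ring
    linarith
  have ea : ∫ x, av H w h a S x ^ 2 ∂lam H = ∫ x, av H w h 0 S x ^ 2 ∂lam H := by
    rw [← integral_comp_mv H (a • w) ((ma 0 S).pow_const 2)]
    refine integral_congr_ae ?_
    filter_upwards [ae_Line H w] with x hx
    rw [av_flow H h hx, add_zero]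
  have e : ∀ x, (av H w h 0 S x - av H w h a S x) ^ 2 = 2 * av H w h 0 S x ^ 2 +
      2 * av H w h a S x ^ 2 - (av H w h 0 S x + av H w h a S x) ^ 2 := fun x => by ring
  have i1 := (integrable_sq (μ := lam H) (ma 0 S) (ba 0 S hS)).const_mul 2
  have i2 := (integrable_sq (μ := lam H) (ma a S) (ba a S hS)).const_mul 2
  simp_rw [e]
  have i3 : Integrable (fun x => 2 * av H w h 0 S x ^ 2 + 2 * av H w h a S x ^ 2) (lam H) :=
    i1.add i2
  rw [integral_sub i3 (integrable_sq ((ma _ _).fun_add (ma _ _)) (b2 _ _ _ hS)),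
    integral_add i1 i2, integral_const_mul, integral_const_mul, ea]
  have : E ⟨S, hS⟩ = ∫ x, av H w h 0 S x ^ 2 ∂lam H := rfl
  linarith

lemma near_inv (H : IsTorusCover π P) (w : ℝ × ℝ) {h : X → ℝ} (hh : Measurable h) {M : ℝ}
    (hM : ∀ x, |h x| ≤ M) {κ : ℝ} (hκ : 0 < κ) : ∃ S > 0, ∀ a : ℝ,
      Gam H (av H w h 0 S) (a • w) ≤ κ := by
  have hd : (0 : ℝ) < deg H := by exact_mod_cast deg_pos H
  obtain ⟨S, hS, hS'⟩ := near_inv_sq H w hh hM (η := κ ^ 2 / deg H / 4) (by positivity)
  refine ⟨S, hS, fun a => ?_⟩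
  have ma := fun a => measurable_av H w hh a S
  have b2 : ∀ x, |av H w h 0 S x - av H w h a S x| ≤ 2 * M := fun x => by
    simpa using abs_sub_le_two (abs_av_le H w hM 0 hS x) (abs_av_le H w hM a hS x)
  have i1 := integrable_sq (μ := lam H) ((ma 0).fun_sub (ma a)) b2
  calc _ ≤ ∫ x, (κ / deg H / 2 + deg H / κ / 2 * (av H w h 0 S x - av H w h a S x) ^ 2) ∂lam H := by
        refine integral_mono_of_nonneg (ae_of_all _ fun _ => abs_nonneg _)
          ((integrable_const _).add (i1.const_mul _)) ?_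
        filter_upwards [ae_Line H w] with x hx
        rw [av_flow H h hx, add_zero, ← sq_abs]
        set u := |av H w h 0 S x - av H w h a S x|
        have : κ / deg H / 2 + deg H / κ / 2 * u ^ 2 - u = (κ - deg H * u) ^ 2 / (2 * κ * deg H) := by
          field_simp; ring
        have : 0 ≤ (κ - deg H * u) ^ 2 / (2 * κ * deg H) := by positivity
        linarith
    _ ≤ κ := by
        rw [integral_add (integrable_const _) (i1.const_mul _), integral_const_mul, integral_const,
          lam_real_univ, smul_eq_mul]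
        have := mul_le_mul_of_nonneg_left (hS' a) (show 0 ≤ deg H / κ / 2 by positivity)
        have e : deg H * (κ / deg H / 2) + deg H / κ / 2 * (4 * (κ ^ 2 / deg H / 4)) = κ := by
          field_simp; ring
        linarith

lemma continuousAt_av (H : IsTorusCover π P) (w : ℝ × ℝ) {h : X → ℝ} (hh : Continuous h) {M : ℝ}
    (hM : ∀ x, |h x| ≤ M) {S : ℝ} (hS : 0 < S) {x : X} (hx : Ok P (π x) (S • w)) :
    ContinuousAt (av H w h 0 S) x := by
  refine ContinuousAt.div_const ?_ S
  refine intervalIntegral.continuousAt_of_dominated_interval (bound := fun _ => M)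
    (Eventually.of_forall fun y => ?_) (Eventually.of_forall fun y => ae_of_all _ fun s _ => hM _)
    intervalIntegrable_const (ae_of_all _ fun s hs => ?_)
  · exact ((measurable_fl H w hh.measurable).comp
      (measurable_const.prodMk measurable_id)).aestronglyMeasurable
  · rw [zero_add, uIoc_of_le hS.le] at hs
    have h1 := hx.smul (t := s / S) ⟨div_nonneg hs.1.le hS.le, (div_le_one hS).2 hs.2⟩
    rw [smul_smul, div_mul_cancel₀ _ hS.ne'] at h1
    exact hh.continuousAt.comp ((mv_continuousAt H h1).comp_of_eq (f := fun y => (y, s • w))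
      (Continuous.continuousAt (by fun_prop)) rfl)

lemma tendsto_mv_zero (H : IsTorusCover π P) {x : X} (hx : π x ∉ P) :
    Tendsto (mv H x) (𝓝 0) (𝓝 x) := by
  have := (mv_continuousAt H (x := x) (u := 0) fun s _ => by simpa [proj_zero] using hx).comp_of_eq
    (f := fun u => (x, u)) (Continuous.continuousAt (by fun_prop)) rfl
  simpa [ContinuousAt, mv_zero, Function.comp_def] using this

lemma tendsto_Gam (H : IsTorusCover π P) {f : X → ℝ} (hf : Measurable f) {M : ℝ}
    (hM : ∀ x, |f x| ≤ M) (hc : ∀ᵐ x ∂lam H, ContinuousAt f x) :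
    Tendsto (Gam H f) (𝓝 0) (𝓝 0) := by
  have := tendsto_integral_filter_of_dominated_convergence (μ := lam H) (l := 𝓝 (0 : ℝ × ℝ))
    (F := fun u x => |f x - f (mv H x u)|) (f := fun _ => (0 : ℝ)) (fun _ => 2 * M)
    (Eventually.of_forall fun u => (measurable_disp H hf u).aestronglyMeasurable)
    (Eventually.of_forall fun u => ae_of_all _ fun x => abs_sub_le_two (hM _) (hM _))
    (integrable_const _) ?_
  · rw [integral_zero] at this; exact this
  · filter_upwards [hc, ae_lam H (ae_notMem_P H.finP)] with x h1 h2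
    have := ((tendsto_const_nhds (x := f x)).sub (h1.tendsto.comp (tendsto_mv_zero H h2))).abs
    simpa using this

lemma integral_av (H : IsTorusCover π P) (w : ℝ × ℝ) {h : X → ℝ} (hh : Measurable h) {M : ℝ}
    (hM : ∀ x, |h x| ≤ M) (h0 : ∫ x, h x ∂lam H = 0) {S : ℝ} (hS : 0 < S) :
    ∫ x, av H w h 0 S x ∂lam H = 0 := by
  unfold av
  simp_rw [zero_add, intervalIntegral.integral_of_le hS.le]
  rw [integral_div, integral_integral_swap (integrable_bdd (measurable_fl H w hh) fun _ => hM _)]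
  simp [integral_comp_mv H _ hh, h0]

/-- directions along which the renormalised surfaces return to a thick part -/
def Thick (P : Set Tor) (w : ℝ × ℝ) : Prop :=
  ∃ δ > 0, ∀ η > 0, ∃ G : (ℝ × ℝ) ≃L[ℝ] (ℝ × ℝ), MeasurePreserving G volume volume ∧ Sep P G δ ∧
    (∀ a, ∃ t : ℝ, G (a, 0) = t • w) ∧ ∀ b, |b| < δ → ‖G (0, b)‖ < η

theorem ergodic_of_thick (H : IsTorusCover π P) {w : ℝ × ℝ} (hw : Thick P w) {h : X → ℝ}
    (hh : Continuous h) {M : ℝ} (hM0 : 0 < M) (hM : ∀ x, |h x| ≤ M) (h0 : ∫ x, h x ∂lam H = 0)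
    {ε : ℝ} (hε : 0 < ε) : ∃ S > 0, ∫ x, |av H w h 0 S x| ∂lam H ≤ ε := by
  obtain ⟨δ, hδ, hw⟩ := hw
  obtain ⟨κ, hκ, hp⟩ := poincare H hM0 hδ hε
  obtain ⟨S, hS, hS'⟩ := near_inv H w hh.measurable hM hκ
  have ma := measurable_av H w hh.measurable 0 S
  have ba := abs_av_le H w hM 0 hS
  have ht := tendsto_Gam H ma ba (by
    filter_upwards [ae_Line H w] with x hx using continuousAt_av H w hh hM hS (hx.ok S))
  obtain ⟨η, hη, hb⟩ := Metric.eventually_nhds_iff.1 (ht.eventually_le_const hκ)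
  obtain ⟨G, hG, hs, h1, h2⟩ := hw η hη
  refine ⟨S, hS, hp G hG hs _ ma ba (integral_av H w hh.measurable hM h0 hS) ?_⟩
  rintro ⟨a, b⟩ hc (rfl | rfl)
  · refine hb ?_
    rw [dist_zero_right]
    exact h2 b ((norm_snd_le ((0, b) : ℝ × ℝ)).trans_lt hc)
  · obtain ⟨t, ht⟩ := h1 a
    rw [ht]; exact hS' t

end Pool.Agent.MP_d0b2d2_an
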