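import Pool.Agent.MP_d0b2d2_an.Main

open MeasureTheory Set Filter Topology Metric

namespace Pool.Agent.MP_d0b2d2_an

lemma exists_isolated {P : Set Tor} (hP : P.Finite) (q : Tor) :
    ∃ r > 0, ∀ y : ℝ × ℝ, ‖y‖ < r → y ≠ 0 → q + proj y ∉ P := by
  have h1 : IsOpen ((fun y => q + proj y) ⁻¹' (P \ {q})ᶜ) :=
    (hP.diff.isClosed.isOpen_compl).preimage (continuous_const.add continuous_proj)
  obtain ⟨r, hr, h2⟩ := Metric.isOpen_iff.1 h1 0 (by simp [proj_zero])
  refine ⟨min r 1, lt_min hr one_pos, fun y hy hy0 hq => ?_⟩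
  rw [lt_min_iff] at hy
  refine h2 (show y ∈ ball 0 r by simpa using hy.1) ⟨hq, fun e => hy0 ?_⟩
  obtain ⟨k, l, rfl⟩ := (proj_eq_zero_iff y).1 (by simpa using e)
  have h3 := hy.2
  rw [Prod.norm_def, max_lt_iff, Real.norm_eq_abs, Real.norm_eq_abs] at h3
  have hk : k = 0 := Int.abs_lt_one_iff.1 (by exact_mod_cast (show |(k : ℝ)| < 1 from h3.1))
  have hl : l = 0 := Int.abs_lt_one_iff.1 (by exact_mod_cast (show |(l : ℝ)| < 1 from h3.2))
  simp [hk, hl]

lemma vel_ne_zero {a b c d : ℝ} (hD : a * d - b * c ≠ 0) (θ : ℝ) : vel a b c d θ ≠ 0 := by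
  intro h
  have h1 := vel_cross a b c d θ (θ + 1 / 4)
  rw [h, show 2 * Real.pi * (θ + 1 / 4) - 2 * Real.pi * θ = Real.pi / 2 by ring,
    Real.sin_pi_div_two] at h1
  simp at h1
  exact hD h1.symm

lemma vel_fract (a b c d θ θ₀ : ℝ) : vel a b c d (θ₀ + Int.fract (θ - θ₀)) = vel a b c d θ := by
  have : 2 * Real.pi * (θ₀ + Int.fract (θ - θ₀)) = 2 * Real.pi * θ - ⌊θ - θ₀⌋ * (2 * Real.pi) := by
    rw [Int.fract]; ring
  simp only [vel, this, Real.cos_sub_int_mul_two_pi, Real.sin_sub_int_mul_two_pi]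

lemma polar {a b c d : ℝ} (hD : a * d - b * c ≠ 0) {η : ℝ} (hη : 0 < η) :
    ∀ᶠ y in 𝓝 (0 : ℝ × ℝ), ∃ t θ : ℝ, 0 ≤ t ∧ t < η ∧ y = t • vel a b c d θ := by
  let z : ℝ × ℝ → ℂ := fun y => (((d * y.1 - b * y.2) / (a * d - b * c) : ℝ) : ℂ) +
    (((a * y.2 - c * y.1) / (a * d - b * c) : ℝ) : ℂ) * Complex.I
  have hz : Continuous fun y => ‖z y‖ := by fun_prop
  filter_upwards [hz.continuousAt.eventually_lt continuousAt_const (show ‖z 0‖ < η by simpa [z])]
    with y hy
  refine ⟨‖z y‖, Complex.arg (z y) / (2 * Real.pi), norm_nonneg _, hy, ?_⟩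
  have h1 := Complex.norm_mul_cos_arg (z y)
  have h2 := Complex.norm_mul_sin_arg (z y)
  have e1 : (z y).re = (d * y.1 - b * y.2) / (a * d - b * c) := by
    simp only [z, Complex.add_re, Complex.ofReal_re, Complex.mul_re, Complex.I_re, Complex.ofReal_im,
      Complex.I_im]; ring
  have e2 : (z y).im = (a * y.2 - c * y.1) / (a * d - b * c) := by
    simp only [z, Complex.add_im, Complex.ofReal_re, Complex.mul_im, Complex.I_re, Complex.ofReal_im,
      Complex.I_im]; ring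
  rw [e1, eq_div_iff hD] at h1
  rw [e2, eq_div_iff hD] at h2
  have e3 : 2 * Real.pi * (Complex.arg (z y) / (2 * Real.pi)) = Complex.arg (z y) := by
    field_simp
  ext
  · simp only [vel, e3, Prod.smul_fst, smul_eq_mul]
    refine mul_right_cancel₀ hD ?_
    linear_combination (-a) * h1 - b * h2
  · simp only [vel, e3, Prod.smul_snd, smul_eq_mul]
    refine mul_right_cancel₀ hD ?_
    linear_combination (-c) * h1 - d * h2

variable {X : Type} [TopologicalSpace X] {π : X → Tor} {P : Set Tor}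
variable [CompactSpace X] [MeasurableSpace X] [BorelSpace X] [SecondCountableTopology X] [T2Space X]

omit [CompactSpace X] [T2Space X] in
lemma exists_ray_reg (H : IsTorusCover π P) {a b c d : ℝ} (hD : a * d - b * c ≠ 0) {p : X}
    (hp : π p ∉ P) : ∃ γ, IsRayFamily π a b c d p γ := by
  refine ⟨fun θ t => mv H p (t • vel a b c d θ), (measurable_mv H).comp
    (f := fun x : ℝ × ℝ => (p, x.2 • vel a b c d x.1)) (Continuous.measurable (by
      have := continuous_vel a b c d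
      fun_prop)), ?_⟩
  filter_upwards [ae_restrict_of_ae (ae_avoid H.finP hD (π p))] with θ hθ
  have hC : Convex ℝ ((fun t : ℝ => t • vel a b c d θ) '' Ici 0) :=
    (convex_Ici 0).is_linear_image (IsLinearMap.isLinearMap_smul' _)
  have h0 : (0 : ℝ × ℝ) ∈ (fun t : ℝ => t • vel a b c d θ) '' Ici 0 := ⟨0, self_mem_Ici, by simp⟩
  have hCP : ∀ y ∈ (fun t : ℝ => t • vel a b c d θ) '' Ici 0, π p + proj y ∉ P := by
    rintro _ ⟨t, ht, rfl⟩
    rcases eq_or_lt_of_le (show 0 ≤ t from ht) with h | h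
    · simpa [← h, proj_zero] using hp
    · exact hθ t h
  exact ⟨by simp [mv_zero], (mv_continuousOn_convex H hC h0 hCP).comp (by fun_prop)
    fun t ht => ⟨t, ht, rfl⟩, fun t ht => mv_proj H (ok_of_convex₀ hC h0 hCP ⟨t, ht, rfl⟩)⟩

theorem exists_ray (H : IsTorusCover π P) {a b c d : ℝ} (hD : a * d - b * c ≠ 0) (p : X) :
    ∃ γ, IsRayFamily π a b c d p γ := by
  classical
  by_cases hp : π p ∉ P
  · exact exists_ray_reg H hD hp
  rw [not_not] at hp
  obtain ⟨u, hu0, hu1, -⟩ := exists_continuous_zero_one_of_isClosed (isClosed_singleton (x := p))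
    ((finite_fiber H (π p)).diff (t := {p})).isClosed disjoint_sdiff_right
  obtain ⟨δ, hδ, hu⟩ := unif H u.continuous (ε := 1 / 3) (by norm_num)
  obtain ⟨r, hr, hiso⟩ := exists_isolated H.finP (π p)
  set W := |a| + |b| + |c| + |d| with hW
  have hW0 : 0 ≤ W := by positivity
  have hm : 0 < min δ r := lt_min hδ hr
  have n1 : (fun y => π p + proj y) '' {y | ∃ t θ : ℝ, 0 ≤ t ∧ t < min δ r / (W + 1) ∧
      y = t • vel a b c d θ} ∈ 𝓝 (π p) := by
    have := ((isOpenMap_add_left (π p)).comp isOpenMap_proj).image_mem_nhds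
      (polar hD (η := min δ r / (W + 1)) (by positivity))
    simpa [proj_zero] using this
  have n2 : {x | u x < 1 / 3} ∈ 𝓝 p :=
    (isOpen_lt u.continuous continuous_const).mem_nhds (by simp [hu0 (mem_singleton p)])
  obtain ⟨x₀, hx₀, ⟨_, ⟨t₀, θ₀, ht0, ht1, rfl⟩, hπ₀⟩, hu₀⟩ :=
    H.dense.inter_nhds_nonempty (inter_mem (H.cont.continuousAt.preimage_mem_nhds n1) n2)
  have ht0' : 0 < t₀ := lt_of_le_of_ne ht0 (by
    rintro rfl
    exact hx₀ (by rw [← hπ₀]; simpa [proj_zero] using hp))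
  rw [lt_div_iff₀ (by positivity)] at ht1
  have hsmall : ∀ t θ, 0 ≤ t → t ≤ t₀ → ‖t • vel a b c d θ‖ < min δ r := fun t θ h1 h2 => by
    rw [norm_smul, Real.norm_eq_abs, abs_of_nonneg h1]
    nlinarith [mul_le_mul h2 (norm_vel_le a b c d θ) (norm_nonneg _) ht0]
  have cv := continuous_vel a b c d
  let β : C(unitInterval, (Pᶜ : Set Tor)) :=
    ⟨fun s => ⟨π p + proj (t₀ • vel a b c d (θ₀ + s)), hiso _
      ((hsmall _ _ ht0 le_rfl).trans_le (min_le_right _ _))
      (smul_ne_zero ht0'.ne' (vel_ne_zero hD _))⟩,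
      Continuous.subtype_mk (continuous_const.add (continuous_proj.comp (by fun_prop))) _⟩
  obtain ⟨L, hL, hL0⟩ := H.cov.isCoveringMap_restrictPreimage.exists_path_lifts β ⟨x₀, hx₀⟩
    (Subtype.ext (by simpa [β] using hπ₀))
  have hLπ : ∀ s, π (L s) = π p + proj (t₀ • vel a b c d (θ₀ + s)) := fun s =>
    congrArg Subtype.val (congrFun hL s)
  let x : ℝ → X := fun θ => L (projIcc 0 1 zero_le_one (Int.fract (θ - θ₀)))
  have hxm : Measurable x := (continuous_subtype_val.comp (L.continuous.comp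
    continuous_projIcc)).measurable.comp (measurable_fract.comp (measurable_id.sub_const _))
  have hxπ : ∀ θ, π (x θ) = π p + proj (t₀ • vel a b c d θ) := fun θ => by
    simp only [x]
    rw [hLπ, projIcc_of_mem _ ⟨Int.fract_nonneg _, (Int.fract_lt_one _).le⟩, vel_fract]
  refine ⟨fun θ t => if t ≤ 0 then p else mv H (x θ) ((t - t₀) • vel a b c d θ), ?_, ?_⟩
  · exact Measurable.ite (measurableSet_le measurable_snd measurable_const) measurable_const
      (measurable_mv₂ H (hxm.comp measurable_fst) (Continuous.measurable (by fun_prop)))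
  filter_upwards [ae_restrict_of_ae (ae_avoid H.finP hD (π p))] with θ hθ
  set w := vel a b c d θ with hw
  have hC : Convex ℝ ((fun t : ℝ => t • w) '' Ioi (-t₀)) :=
    (convex_Ioi _).is_linear_image (IsLinearMap.isLinearMap_smul' _)
  have h0 : (0 : ℝ × ℝ) ∈ (fun t : ℝ => t • w) '' Ioi (-t₀) := ⟨0, by simpa, by simp⟩
  have e1 : ∀ t : ℝ, π (x θ) + proj (t • w) = π p + proj ((t₀ + t) • w) := fun t => by
    rw [hxπ, add_smul, proj_add, add_assoc]
  have hCP : ∀ y ∈ (fun t : ℝ => t • w) '' Ioi (-t₀), π (x θ) + proj y ∉ P := by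
    rintro _ ⟨t, ht, rfl⟩
    rw [e1]; exact hθ _ (by linarith [mem_Ioi.1 ht])
  have hmem : ∀ t : ℝ, 0 < t → (t - t₀) • w ∈ (fun t : ℝ => t • w) '' Ioi (-t₀) := fun t ht =>
    ⟨t - t₀, by simpa, rfl⟩
  have hc : ContinuousOn (fun t : ℝ => mv H (x θ) ((t - t₀) • w)) (Ioi 0) :=
    (mv_continuousOn_convex H hC h0 hCP).comp (by fun_prop) hmem
  have hpr : ∀ t : ℝ, 0 < t → π (mv H (x θ) ((t - t₀) • w)) = π p + proj (t • w) := fun t ht => by
    rw [mv_proj H (ok_of_convex₀ hC h0 hCP (hmem t ht)), e1, add_sub_cancel]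
  have hd : ∀ t θ, 0 ≤ t → t ≤ t₀ → dist (π p + proj (t • vel a b c d θ)) (π p) < δ :=
    fun t θ h1 h2 => by
      rw [dist_self_add_left]
      exact (norm_proj_le _).trans_lt ((hsmall t θ h1 h2).trans_le (min_le_left _ _))
  have hub : ∀ t ∈ Ioc 0 t₀, u (mv H (x θ) ((t - t₀) • w)) ≤ 2 / 3 := by
    intro t ht
    have hZ : IsPreconnected ((range fun s => (L s : X)) ∪
        (fun t : ℝ => mv H (x θ) ((t - t₀) • w)) '' Ioc 0 t₀) :=
      IsPreconnected.union (x θ) ⟨_, rfl⟩ ⟨t₀, ⟨ht0', le_rfl⟩, by simp [mv_zero]⟩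
        (isPreconnected_range (by fun_prop))
        (isPreconnected_Ioc.image _ (hc.mono Ioc_subset_Ioi_self))
    have := hu _ hZ (π p) (by
      rintro _ (⟨s, rfl⟩ | ⟨s, hs, rfl⟩)
      · rw [hLπ]; exact hd _ _ ht0 le_rfl
      · rw [hpr s hs.1]; exact hd _ _ hs.1.le hs.2) _ (Or.inr ⟨t, ht, rfl⟩) x₀
      (Or.inl ⟨0, congrArg Subtype.val hL0⟩)
    have h3 : u x₀ < 1 / 3 := hu₀
    linarith [(abs_lt.1 this).2]
  have hlim : Tendsto (fun t : ℝ => mv H (x θ) ((t - t₀) • w)) (𝓝[>] 0) (𝓝 p) := by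
    refine tendsto_nhds_of_unique_mapClusterPt fun y hy => ?_
    have h1 : π y = π p := by
      have c1 : Tendsto (fun t : ℝ => π (mv H (x θ) ((t - t₀) • w))) (𝓝[>] 0) (𝓝 (π p)) := by
        refine Tendsto.congr' (f₁ := fun t : ℝ => π p + proj (t • w)) ?_
          (tendsto_nhdsWithin_of_tendsto_nhds (Continuous.tendsto' (continuous_const.add
            (continuous_proj.comp (by fun_prop))) _ _ (by simp [proj_zero])))
        filter_upwards [self_mem_nhdsWithin] with t ht using (hpr t ht).symm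
      exact eq_of_nhds_neBot ((hy.continuousAt_comp H.cont.continuousAt).clusterPt.mono c1)
    have h2 : y ∈ {y | u y ≤ 2 / 3} :=
      (isClosed_le u.continuous continuous_const).mem_of_mapClusterPt hy (by
        filter_upwards [Ioc_mem_nhdsGT ht0'] with t ht using hub t ht)
    by_contra hne
    have h3 : u y = 1 := hu1 ⟨h1, hne⟩
    simp only [mem_setOf_eq, h3] at h2
    norm_num at h2
  refine ⟨by simp, fun t ht => ?_, fun t ht => ?_⟩
  · rcases eq_or_lt_of_le (show 0 ≤ t from ht) with h | h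
    · rw [← h, ← continuousWithinAt_Ioi_iff_Ici, ContinuousWithinAt, if_pos le_rfl]
      refine hlim.congr' ?_
      filter_upwards [self_mem_nhdsWithin] with t ht
      rw [if_neg (not_le.2 ht)]
    · refine ContinuousAt.continuousWithinAt ((hc.continuousAt (Ioi_mem_nhds h)).congr ?_)
      filter_upwards [Ioi_mem_nhds h] with t ht
      rw [if_neg (not_le.2 ht)]
  · rcases eq_or_lt_of_le ht with h | h
    · simp [← h, proj_zero]
    · rw [if_neg (not_le.2 h), hpr t h]

end Pool.Agent.MP_d0b2d2_an
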