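import Pool.Agent.MP_d0b2d2_an.Mean

open MeasureTheory Set Filter Topology Metric

namespace Pool.Agent.MP_d0b2d2_an

lemma exists_env {u : ℕ → ℝ} (hu : Tendsto u atTop (𝓝 0)) : ∃ e : ℕ → ℝ, Antitone e ∧
    (∀ n, 0 < e n) ∧ (∀ n, u n ≤ e n ^ 2) ∧ Tendsto e atTop (𝓝 0) := by
  let v : ℕ → ℝ := fun n => |u n| + 1 / ((n : ℝ) + 1)
  have hv : Tendsto v atTop (𝓝 0) := by
    simpa [v] using hu.abs.add tendsto_one_div_add_atTop_nhds_zero_nat
  have hb : ∀ n, BddAbove (range fun m => v (n + m)) := fun n =>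
    hv.bddAbove_range.mono (by rintro _ ⟨m, rfl⟩; exact ⟨_, rfl⟩)
  let e : ℕ → ℝ := fun n => ⨆ m, v (n + m)
  have h1 : ∀ n, v n ≤ e n := fun n => le_ciSup (hb n) 0
  have h2 : ∀ n, 0 < v n := fun n => by positivity
  refine ⟨fun n => √(e n), fun n n' h => Real.sqrt_le_sqrt (ciSup_le fun m => ?_),
    fun n => Real.sqrt_pos.2 ((h2 n).trans_le (h1 n)), fun n => ?_, ?_⟩
  · have := le_ciSup (hb n) (n' - n + m)
    rwa [show n + (n' - n + m) = n' + m by omega] at this
  · rw [Real.sq_sqrt ((h2 n).le.trans (h1 n))]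
    refine le_trans ?_ (h1 n)
    exact (le_abs_self _).trans (le_add_of_nonneg_right (by positivity))
  · rw [← Real.sqrt_zero]
    refine Tendsto.sqrt (tendsto_order.2 ⟨fun a ha => Eventually.of_forall fun n =>
      ha.trans ((h2 n).trans_le (h1 n)), fun a ha => ?_⟩)
    obtain ⟨N, hN⟩ := eventually_atTop.1 (hv.eventually_le_const (half_pos ha))
    filter_upwards [eventually_ge_atTop N] with n hn
    exact lt_of_le_of_lt (ciSup_le fun m => hN _ (by omega)) (half_lt_self ha)

lemma kvn {D : ℝ → ℝ} (hD : Measurable D) (h0 : ∀ t, 0 ≤ D t) (h1 : ∀ t, D t ≤ 1)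
    (h : Tendsto (avN D) atTop (𝓝 0)) : ∃ G : Set ℝ, MeasurableSet G ∧
      Tendsto (fun N : ℝ => (volume (G ∩ Icc (-N) N)).toReal / (2 * N)) atTop (𝓝 1) ∧
      Tendsto D (atTop ⊓ 𝓟 G) (𝓝 0) := by
  obtain ⟨e, he1, he2, he3, he4⟩ := exists_env h
  let B : Set ℝ := {t | 0 < t ∧ e ⌈t⌉₊ < D t}
  have hB : MeasurableSet B := measurableSet_Ioi.inter
    (measurableSet_lt ((measurable_from_nat (f := e)).comp Nat.measurable_ceil) hD)
  have hb : ∀ t, |D t| ≤ 1 := fun t => by rw [abs_of_nonneg (h0 t)]; exact h1 t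
  have hc : Tendsto (fun t : ℝ => e ⌈t⌉₊) atTop (𝓝 0) := he4.comp tendsto_nat_ceil_atTop
  refine ⟨Bᶜ, hB.compl, ?_, ?_⟩
  · have key : ∀ N : ℝ, 1 ≤ N → volume.real (Icc (-N) N ∩ B) ≤ 2 * N * e ⌈N⌉₊ := by
      intro N hN
      set n := ⌈N⌉₊ with hn
      have n1 : N ≤ n := Nat.le_ceil N
      have n2 : (n : ℝ) ≤ 2 * N := by linarith [Nat.ceil_lt_add_one (show 0 ≤ N by linarith)]
      have n0 : (0 : ℝ) < n := by linarith
      have hi : IntegrableOn D (Ioc 0 n) := (ii_bdd hD hb 0 n).1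
      have a1 : e n * volume.real (Icc (-N) N ∩ B) ≤ ∫ t in Icc (-N) N ∩ B, D t := by
        refine setIntegral_ge_of_const_le_real (measurableSet_Icc.inter hB)
          (ne_top_of_le_ne_top measure_Icc_lt_top.ne (measure_mono inter_subset_left))
          (fun t ht => (he1 (Nat.ceil_mono ht.1.2)).trans ht.2.2.le)
          (hi.mono_set fun t ht => ⟨ht.2.1, ht.1.2.trans n1⟩)
      have a2 : ∫ t in Icc (-N) N ∩ B, D t ≤ ∫ t in Ioc (0 : ℝ) n, D t :=
        setIntegral_mono_set hi (ae_of_all _ h0)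
          (HasSubset.Subset.eventuallyLE fun t ht => ⟨ht.2.1, ht.1.2.trans n1⟩)
      have a3 := he3 n
      rw [avN, div_le_iff₀ n0, intervalIntegral.integral_of_le n0.le] at a3
      refine le_of_mul_le_mul_left ?_ (he2 n)
      nlinarith [mul_le_mul_of_nonneg_left n2 (sq_nonneg (e n))]
    refine tendsto_of_tendsto_of_tendsto_of_le_of_le' (g := fun N : ℝ => 1 - e ⌈N⌉₊)
      (h := fun _ => 1) (by simpa using tendsto_const_nhds.sub hc) tendsto_const_nhds ?_ ?_
    · filter_upwards [eventually_ge_atTop 1] with N hN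
      have e2 := measureReal_inter_add_diff (μ := (volume : Measure ℝ)) (s := Icc (-N) N) hB
        measure_Icc_lt_top.ne
      rw [diff_eq_compl_inter, Real.volume_real_Icc_of_le (by linarith)] at e2
      rw [le_div_iff₀ (by linarith), ← Measure.real]
      linarith [key N hN]
    · filter_upwards [eventually_ge_atTop 1] with N hN
      rw [div_le_one (by linarith), ← Measure.real]
      refine (measureReal_mono inter_subset_right measure_Icc_lt_top.ne).trans (le_of_eq ?_)
      rw [Real.volume_real_Icc_of_le (by linarith)]; ring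
  · refine squeeze_zero' (Eventually.of_forall h0) ?_ (hc.mono_left inf_le_left)
    rw [eventually_inf_principal]
    filter_upwards [eventually_gt_atTop 0] with t ht ht'
    exact not_lt.1 fun h => ht' ⟨ht, h⟩

lemma kvn_seq {D : ℕ → ℝ → ℝ} (hD : ∀ i, Measurable (D i)) (h0 : ∀ i t, 0 ≤ D i t)
    (h1 : ∀ i t, D i t ≤ 1) (h : ∀ i, Tendsto (avN (D i)) atTop (𝓝 0)) :
    ∃ G : Set ℝ, MeasurableSet G ∧
      Tendsto (fun N : ℝ => (volume (G ∩ Icc (-N) N)).toReal / (2 * N)) atTop (𝓝 1) ∧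
      ∀ i, Tendsto (D i) (atTop ⊓ 𝓟 G) (𝓝 0) := by
  let E : ℝ → ℝ := fun t => ⨆ i, D i t / ((i : ℝ) + 1)
  have a1 : ∀ i t, D i t / ((i : ℝ) + 1) ≤ D i t := fun i t =>
    div_le_self (h0 i t) (by linarith [(Nat.cast_nonneg i : (0 : ℝ) ≤ i)])
  have hb : ∀ t, BddAbove (range fun i => D i t / ((i : ℝ) + 1)) := fun t =>
    ⟨1, by rintro _ ⟨i, rfl⟩; exact (a1 i t).trans (h1 i t)⟩
  have hE : Measurable E := Measurable.iSup fun i => (hD i).div_const _
  have a2 : ∀ i t, D i t / ((i : ℝ) + 1) ≤ E t := fun i t => le_ciSup (hb t) i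
  have E0 : ∀ t, 0 ≤ E t := fun t => le_trans (div_nonneg (h0 0 t) (by positivity)) (a2 0 t)
  have E1 : ∀ t, E t ≤ 1 := fun t => ciSup_le fun i => (a1 i t).trans (h1 i t)
  have ii : ∀ i (n : ℕ), IntervalIntegrable (D i) volume 0 n := fun i n =>
    ii_bdd (hD i) (M := 1) (fun t => by rw [abs_of_nonneg (h0 i t)]; exact h1 i t) _ _
  obtain ⟨G, g1, g2, g3⟩ := kvn hE E0 E1 (by
    refine tendsto_order.2 ⟨fun a ha => Eventually.of_forall fun n => ha.trans_le
      (div_nonneg (intervalIntegral.integral_nonneg (Nat.cast_nonneg n) fun t _ => E0 t)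
        (Nat.cast_nonneg n)), fun a ha => ?_⟩
    obtain ⟨k, hk⟩ := exists_nat_one_div_lt (half_pos ha)
    have ht := tendsto_finset_sum (Finset.range k) fun i _ => h i
    rw [Finset.sum_const_zero] at ht
    filter_upwards [ht.eventually_lt_const (half_pos ha), eventually_gt_atTop 0] with n hn hn0
    have hn' : (0 : ℝ) < n := by exact_mod_cast hn0
    have i1 : IntervalIntegrable (fun t => ∑ i ∈ Finset.range k, D i t) volume 0 n := by
      have := IntervalIntegrable.sum (Finset.range k) fun i _ => ii i n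
      rwa [Finset.sum_fn] at this
    have := avN_mono (f := E) (g := fun t => ∑ i ∈ Finset.range k, D i t + a / 2) n
      (ii_bdd hE (M := 1) (fun t => by rw [abs_of_nonneg (E0 t)]; exact E1 t) _ _)
      (i1.add intervalIntegrable_const) fun t _ => ciSup_le fun i => by
        have b0 : 0 ≤ ∑ i ∈ Finset.range k, D i t := Finset.sum_nonneg fun i _ => h0 i t
        rcases lt_or_ge i k with hi | hi
        · linarith [a1 i t, Finset.single_le_sum (f := fun i => D i t) (fun i _ => h0 i t)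
            (Finset.mem_range.2 hi)]
        · have : D i t / ((i : ℝ) + 1) ≤ 1 / ((k : ℝ) + 1) := by
            gcongr
            exact h1 i t
          linarith
    refine this.trans_lt ?_
    unfold avN at hn ⊢
    rw [intervalIntegral.integral_add i1 intervalIntegrable_const,
      intervalIntegral.integral_finset_sum fun i _ => ii i n, add_div, Finset.sum_div]
    simp only [intervalIntegral.integral_const, sub_zero, smul_eq_mul]
    rw [mul_div_cancel_left₀ _ hn'.ne']
    linarith)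
  refine ⟨G, g1, g2, fun i => squeeze_zero (h0 i) (g := fun t => E t * ((i : ℝ) + 1))
    (fun t => (div_le_iff₀ (by positivity)).1 (a2 i t)) (by simpa using g3.mul_const _)⟩

end Pool.Agent.MP_d0b2d2_an
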