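import Pool.Agent.MP_d0b2d2_an.Exist
import Pool.Agent.MP_d0b2d2_an.KvN

open MeasureTheory Set Filter Topology Metric

namespace Pool.Agent.MP_d0b2d2_an

variable {X : Type} [TopologicalSpace X] {π : X → Tor} {P : Set Tor}
variable [CompactSpace X] [MeasurableSpace X] [BorelSpace X] [SecondCountableTopology X] [T2Space X]

omit [T2Space X] in
lemma areaMean_eq (H : IsTorusCover π P) {h : X → ℝ} (hh : Continuous h) :
    areaMean π h = (∫ x, h x ∂lam H) / deg H := by
  obtain ⟨M, -, hM⟩ := exists_bound hh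
  unfold areaMean
  simp_rw [fun z => finsum_mem_eq_finite_toFinset_sum h (finite_fiber H z),
    fun z => finsum_mem_eq_finite_toFinset_sum (fun _ => (1 : ℝ)) (finite_fiber H z)]
  rw [integral_lam H hh.measurable hM]
  congr 1
  have := integral_lam H (f := fun _ => (1 : ℝ)) measurable_const (M := 1) (by simp)
  rw [integral_const, lam_real_univ, smul_eq_mul, mul_one] at this
  exact this.symm

theorem weakly_illuminated (H : IsTorusCover π P) {a b c d : ℝ} (hD : a * d - b * c ≠ 0) {p : X}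
    {γ : ℝ → ℝ → X} (hγ : IsRayFamily π a b c d p γ) : ∃ G : Set ℝ, MeasurableSet G ∧
      Tendsto (fun N : ℝ => (volume (G ∩ Icc (-N) N)).toReal / (2 * N)) atTop (𝓝 1) ∧
      ∀ h : C(X, ℝ), Tendsto (fun t => ∫ θ in (0 : ℝ)..1, h (γ θ t)) (atTop ⊓ 𝓟 G)
        (𝓝 (areaMean π h)) := by
  have hd : (0 : ℝ) < deg H := by exact_mod_cast deg_pos H
  let m : C(X, ℝ) → ℝ := fun h => (∫ x, h x ∂lam H) / deg H
  let B : C(X, ℝ) → ℝ → ℝ := fun h t => ∫ θ in Ioo (0 : ℝ) 1, h (γ θ (max t 0))
  have il : ∀ h : C(X, ℝ), Integrable h (lam H) := fun h =>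
    integrable_bdd h.continuous.measurable h.norm_coe_le_norm
  have iB : ∀ (h : C(X, ℝ)) (t : ℝ), IntegrableOn (fun θ => h (γ θ t)) (Ioo 0 1) := fun h t =>
    integrable_bdd (h.continuous.measurable.comp (hγ.1.comp (measurable_id.prodMk measurable_const)))
      fun θ => h.norm_coe_le_norm _
  have hm : ∀ h : C(X, ℝ), |m h| ≤ ‖h‖ := fun h => by
    simp only [m]
    rw [abs_div, abs_of_pos hd, div_le_iff₀ hd, ← lam_real_univ H]
    exact norm_integral_le_of_norm_le_const (ae_of_all _ h.norm_coe_le_norm)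
  have hB : ∀ (h : C(X, ℝ)) t, |B h t| ≤ ‖h‖ := fun h t => by
    simpa using norm_integral_le_of_norm_le_const (μ := volume.restrict (Ioo (0 : ℝ) 1))
      (f := fun θ => h (γ θ (max t 0))) (ae_of_all _ fun θ => h.norm_coe_le_norm _)
  let nz : C(X, ℝ) → X → ℝ := fun h x => (h x - m h) / (2 * ‖h‖ + 1)
  have nz1 : ∀ h, Continuous (nz h) := fun h => by fun_prop
  have nz2 : ∀ h x, |nz h x| ≤ 1 := fun h x => by
    have : 0 < 2 * ‖h‖ + 1 := by positivity
    simp only [nz]
    rw [abs_div, abs_of_pos this, div_le_one this]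
    linarith [abs_sub (h x) (m h), hm h, h.norm_coe_le_norm x, Real.norm_eq_abs (h x)]
  have nz3 : ∀ h, ∫ x, nz h x ∂lam H = 0 := fun h => by
    simp only [nz]
    rw [integral_div, integral_sub (il h) (integrable_const _), integral_const, lam_real_univ,
      smul_eq_mul, mul_div_cancel₀ _ hd.ne', sub_self, zero_div]
  have nz4 : ∀ h t, ∫ θ in Ioo (0 : ℝ) 1, nz h (γ θ (max t 0)) = (B h t - m h) / (2 * ‖h‖ + 1) := by
    intro h t
    simp only [nz]
    rw [integral_div, integral_sub (iB h _) (integrable_const _)]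
    simp [B]
  let s := TopologicalSpace.denseSeq C(X, ℝ)
  obtain ⟨G, g1, g2, g3⟩ := kvn_seq
    (D := fun i t => (∫ θ in Ioo (0 : ℝ) 1, nz (s i) (γ θ (max t 0))) ^ 2)
    (fun i => ((ray_fam H hγ (nz1 _) (nz2 _)).uc.continuous.pow 2).measurable)
    (fun i t => sq_nonneg _)
    (fun i t => by
      rw [sq_le_one_iff_abs_le_one]
      simpa using (ray_fam H hγ (nz1 (s i)) (nz2 _)).abs_le t)
    (fun i => meansq H hD hγ (nz1 _) (nz2 _) (nz3 _))
  refine ⟨G, g1, g2, fun h => ?_⟩
  rw [areaMean_eq H h.continuous]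
  refine Tendsto.congr' (f₁ := B h) ?_ (Metric.tendsto_nhds.2 fun ε hε => ?_)
  · filter_upwards [mem_inf_of_left (eventually_ge_atTop (0 : ℝ))] with t ht
    rw [intervalIntegral.integral_of_le zero_le_one, integral_Ioc_eq_integral_Ioo]
    simp only [B, max_eq_left ht]
  · obtain ⟨i, hi⟩ := (TopologicalSpace.denseRange_denseSeq C(X, ℝ)).exists_dist_lt h
      (show 0 < ε / 3 by linarith)
    rw [dist_eq_norm] at hi
    have h1 : Tendsto (fun t => |B (s i) t - m (s i)|) (atTop ⊓ 𝓟 G) (𝓝 0) := by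
      have := (g3 i).sqrt.mul_const (2 * ‖s i‖ + 1)
      rw [Real.sqrt_zero, zero_mul] at this
      refine this.congr fun t => ?_
      have h2 : 0 < 2 * ‖s i‖ + 1 := by positivity
      rw [Real.sqrt_sq_eq_abs, nz4, abs_div, abs_of_pos h2, div_mul_cancel₀ _ h2.ne']
    filter_upwards [h1.eventually_lt_const (show 0 < ε / 3 by linarith)] with t ht
    have e1 : B (h - s i) t = B h t - B (s i) t := integral_sub (iB h _) (iB (s i) _)
    have e2 : m (h - s i) = m h - m (s i) := by
      simp only [m]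
      rw [← sub_div, ← integral_sub (il h) (il (s i))]
      rfl
    have e3 := abs_le.1 (hB (h - s i) t)
    have e4 := abs_le.1 (hm (h - s i))
    rw [abs_lt] at ht
    show |B h t - m h| < ε
    rw [abs_lt]
    constructor <;> linarith [e3.1, e3.2, e4.1, e4.2, ht.1, ht.2]

end Pool.Agent.MP_d0b2d2_an
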