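import Pool.Agent.MP_d0b2d2_an.Equi

open MeasureTheory Set Filter Topology Metric

namespace Pool.Agent.MP_d0b2d2_an

/-- properties of a correlation function -/
structure Corr (C : ℝ → ℝ) : Prop where
  bdd : ∀ s, |C s| ≤ 1
  uc : UniformContinuous C
  lm : ∀ η > 0, ∃ Λ > 0, ∀ y, |∫ s in y..y + Λ, C s| ≤ η * Λ
  cs : ∀ (n : ℕ) (s : ℕ → ℝ) (l : ℝ), 2 * l * n * ∑ i ∈ Finset.range n, C (s i) ≤
    l ^ 2 * n ^ 2 + ∑ i ∈ Finset.range n, ∑ i' ∈ Finset.range n, C (s i - s i')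

/-- a strictly convex length function -/
structure Cvx (n n₁ n₂ g g₁ : ℝ → ℝ) : Prop where
  d₁ : ∀ s, HasDerivAt n (n₁ s) s
  d₂ : ∀ s, HasDerivAt n₁ (n₂ s) s
  d₃ : ∀ s, HasDerivAt g (g₁ s) s
  c₂ : Continuous n₂
  c₃ : Continuous g₁
  inv : ∀ s, n₂ s * g s = 1

variable {C n n₁ n₂ g g₁ : ℝ → ℝ}

lemma prim_le_aux {φ : ℝ → ℝ} (hc : Continuous φ) (hb : ∀ s, |φ s| ≤ 1) {η Λ : ℝ} (hη : 0 < η)
    (hΛ : 0 < Λ) (h : ∀ y, |∫ s in y..y + Λ, φ s| ≤ η * Λ) {T : ℝ} (hT : 0 ≤ T) :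
    |∫ s in (0 : ℝ)..T, φ s| ≤ η * T + (1 + η) * Λ := by
  have h1 := long_avg hc.measurable hb hΛ (fun t _ => (le_abs_self _).trans (h t)) hT
  have h2 := long_avg (φ := fun s => -φ s) hc.neg.measurable (by simpa using hb) hΛ
    (fun t _ => by rw [intervalIntegral.integral_neg]; exact (neg_le_abs _).trans (h t)) hT
  rw [intervalIntegral.integral_neg] at h2
  rw [abs_of_pos hη] at h1 h2
  exact abs_le.2 ⟨by linarith, h1⟩

lemma Corr.prim_le (hC : Corr C) {η : ℝ} (hη : 0 < η) :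
    ∃ K, 0 ≤ K ∧ ∀ y, |∫ s in (0 : ℝ)..y, C s| ≤ η * |y| + K := by
  obtain ⟨Λ, hΛ, h⟩ := hC.lm η hη
  refine ⟨(1 + η) * Λ, by positivity, fun y => ?_⟩
  rcases le_total 0 y with hy | hy
  · rw [abs_of_nonneg hy]; exact prim_le_aux hC.uc.continuous hC.bdd hη hΛ h hy
  · have := prim_le_aux (φ := fun s => C (-s)) (hC.uc.continuous.comp continuous_neg)
      (fun s => hC.bdd _) hη hΛ (fun y => by
        rw [intervalIntegral.integral_comp_neg]
        have := h (-(y + Λ))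
        rwa [show -(y + Λ) + Λ = -y by ring] at this) (T := -y) (by linarith)
    rw [intervalIntegral.integral_comp_neg, neg_neg, neg_zero, intervalIntegral.integral_symm,
      abs_neg] at this
    rwa [abs_of_nonpos hy]

lemma osc_int (hC : Corr C) (hn : Cvx n n₁ n₂ g g₁) (A : ℝ) {η : ℝ} (hη : 0 < η) :
    ∃ κ₀ > 0, ∀ κ, κ₀ ≤ |κ| → ∀ s₀ ∈ Icc (-A) A, ∀ s₁ ∈ Icc (-A) A,
      |∫ s in s₀..s₁, C (κ * n₁ s)| ≤ η := by
  have c1 : Continuous n₁ := continuous_iff_continuousAt.2 fun s => (hn.d₂ s).continuousAt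
  have cg : Continuous g := continuous_iff_continuousAt.2 fun s => (hn.d₃ s).continuousAt
  have cC := hC.uc.continuous
  obtain ⟨B, hB⟩ := (isCompact_Icc (a := -A) (b := A)).exists_bound_of_continuousOn
    (f := fun s => |n₁ s| + |g s| + |g₁ s|) (by have := hn.c₃; fun_prop)
  set B' := |B| + 1 with hB'
  have hB0 : 0 < B' := by positivity
  have b1 : ∀ s ∈ Icc (-A) A, |n₁ s| ≤ B' ∧ |g s| ≤ B' ∧ |g₁ s| ≤ B' := fun s hs => by
    have := (le_abs_self _).trans (hB s hs)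
    have := le_abs_self B
    refine ⟨?_, ?_, ?_⟩ <;> linarith [abs_nonneg (n₁ s), abs_nonneg (g s), abs_nonneg (g₁ s)]
  set W := B' * (2 + 2 * |A|) with hW
  have hW0 : 0 < W := by positivity
  obtain ⟨K, hK0, hK⟩ := hC.prim_le (η := η / W / 2 / B') (by positivity)
  refine ⟨(K + 1) / (η / W / 2), by positivity, fun κ hκ s₀ h₀ s₁ h₁ => ?_⟩
  have hκ0 : 0 < |κ| := lt_of_lt_of_le (by positivity) hκ
  have hκ1 : κ ≠ 0 := abs_pos.1 hκ0
  let u : ℝ → ℝ := fun s => (∫ y in (0 : ℝ)..κ * n₁ s, C y) / κ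
  have du : ∀ s, HasDerivAt u (C (κ * n₁ s) * n₂ s) s := by
    intro s
    have := (((cC.integral_hasStrictDerivAt 0 (κ * n₁ s)).hasDerivAt).comp s
      ((hn.d₂ s).const_mul κ)).div_const κ
    have e : C (κ * n₁ s) * n₂ s = C (κ * n₁ s) * (κ * n₂ s) / κ := by field_simp
    rw [e]; exact this
  have bu : ∀ s ∈ Icc (-A) A, |u s| ≤ η / W := by
    intro s hs
    simp only [u]
    rw [abs_div, div_le_iff₀ hκ0]
    refine (hK _).trans ?_
    rw [div_le_iff₀ (by positivity)] at hκ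
    have : η / W / 2 / B' * |κ * n₁ s| ≤ η / W / 2 * |κ| := by
      rw [abs_mul, div_mul_eq_mul_div, div_le_iff₀ hB0, mul_assoc]
      exact mul_le_mul_of_nonneg_left (mul_le_mul_of_nonneg_left (b1 s hs).1 hκ0.le) (by positivity)
    linarith
  have ibp := intervalIntegral.integral_mul_deriv_eq_deriv_mul (a := s₀) (b := s₁)
    (fun s _ => du s) (fun s _ => hn.d₃ s)
    (((cC.comp (c1.const_mul κ)).mul hn.c₂).intervalIntegrable _ _) (hn.c₃.intervalIntegrable _ _)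
  simp only [mul_assoc, hn.inv, mul_one] at ibp
  have hsub : ∀ s ∈ uIoc s₀ s₁, s ∈ Icc (-A) A := fun s hs =>
    uIcc_subset_Icc h₀ h₁ (uIoc_subset_uIcc hs)
  have e1 := intervalIntegral.norm_integral_le_of_norm_le_const (a := s₀) (b := s₁)
    (f := fun s => u s * g₁ s) (C := η / W * B') fun s hs => by
      rw [Real.norm_eq_abs, abs_mul]
      exact mul_le_mul (bu s (hsub s hs)) (b1 s (hsub s hs)).2.2 (abs_nonneg _) (by positivity)
  have e2 : ∀ s ∈ Icc (-A) A, |u s * g s| ≤ η / W * B' := fun s hs => by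
    rw [abs_mul]
    exact mul_le_mul (bu s hs) (b1 s hs).2.1 (abs_nonneg _) (by positivity)
  have e3 : |s₁ - s₀| ≤ 2 * |A| := by
    rw [abs_le]; constructor <;> linarith [h₀.1, h₀.2, h₁.1, h₁.2, le_abs_self A]
  have e4 : η / W * B' * |s₁ - s₀| ≤ η / W * B' * (2 * |A|) := by gcongr
  have e5 : η / W * B' * (2 + 2 * |A|) = η := by rw [mul_assoc, ← hW]; field_simp
  rw [Real.norm_eq_abs] at e1
  have e6 := abs_le.1 (e2 s₀ h₀)
  have e7 := abs_le.1 (e2 s₁ h₁)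
  have e8 := abs_le.1 (e1.trans e4)
  rw [abs_le]
  constructor <;> linarith [e6.1, e6.2, e7.1, e7.2, e8.1, e8.2]

lemma sum_shift_le {u : ℕ → ℝ} (hu : ∀ j, |u j| ≤ 1) (m d : ℕ) :
    ∑ j ∈ Finset.range m, u j ≤ ∑ j ∈ Finset.range m, u (j + d) + 2 * d := by
  have h1 := Finset.sum_range_add u m d
  have h2 := Finset.sum_range_add u d m
  rw [add_comm d m, h1] at h2
  have h3 : ∑ j ∈ Finset.range d, u j ≤ d := by
    simpa using Finset.sum_le_card_nsmul (Finset.range d) u 1 fun j _ => (abs_le.1 (hu j)).2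
  have h4 : -(d : ℝ) ≤ ∑ j ∈ Finset.range d, u (m + j) := by
    simpa using Finset.card_nsmul_le_sum (Finset.range d) (fun j => u (m + j)) (-1)
      fun j _ => (abs_le.1 (hu _)).1
  simp_rw [add_comm _ d]
  linarith

lemma diff_sum (hC : Corr C) (hn : Cvx n n₁ n₂ g g₁) {c : ℝ} (hc : c ≠ 0) {A ρ η : ℝ}
    (hA : 0 ≤ A) (hρ : 0 < ρ) (hη : 0 < η) : ∃ d₀ : ℕ, ∀ D : ℕ, ∀ᶠ q : ℝ in atTop, ∀ x₀,
      |x₀| ≤ A * q → ∀ m : ℕ, ρ * q ≤ m → m ≤ q → ∀ a b : ℕ, a ≤ D → b ≤ D → d₀ ≤ |(a : ℝ) - b| →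
      ∑ j ∈ Finset.range m, C (c * (q * n ((x₀ + (j + a : ℕ)) / q)) -
        c * (q * n ((x₀ + (j + b : ℕ)) / q))) ≤ η * m := by
  have c1 : Continuous n₁ := continuous_iff_continuousAt.2 fun s => (hn.d₂ s).continuousAt
  have cC := hC.uc.continuous
  have hc0 : 0 < |c| := abs_pos.2 hc
  obtain ⟨κ₀, hκ₀, hosc⟩ := osc_int hC hn (A + 2) (η := ρ * η / 2) (by positivity)
  obtain ⟨d₀, hd₀⟩ := exists_nat_gt (κ₀ / |c|)
  rw [div_lt_iff₀ hc0] at hd₀
  refine ⟨d₀, fun D => ?_⟩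
  obtain ⟨ω, hω, huC⟩ := Metric.uniformContinuous_iff.1 hC.uc (η / 2) (by linarith)
  obtain ⟨θ, hθ, hu1⟩ := Metric.uniformContinuousOn_iff.1
    ((isCompact_Icc (a := -(A + 2)) (b := A + 2)).uniformContinuousOn_of_continuous c1.continuousOn)
    (ω / (|c| * (D + 1))) (by positivity)
  filter_upwards [eventually_gt_atTop ((D + 1) / θ), eventually_ge_atTop ((D : ℝ) + 1)]
    with q hq1 hq2 x₀ hx₀ m hm1 hm2 a b ha hb hab
  have hD0 : (0 : ℝ) ≤ D := Nat.cast_nonneg D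
  have hq : 0 < q := by linarith
  rw [div_lt_iff₀ hθ] at hq1
  rw [abs_le] at hx₀
  have hmem : ∀ y, x₀ ≤ y → y ≤ x₀ + m + (D + 1) → y / q ∈ Icc (-(A + 2)) (A + 2) := by
    intro y h1 h2
    rw [mem_Icc, le_div_iff₀ hq, div_le_iff₀ hq]
    constructor <;> nlinarith [hx₀.1, hx₀.2]
  set κ := c * ((a : ℝ) - b) with hκ
  have hκ' : κ₀ ≤ |κ| := by
    rw [hκ, abs_mul]; nlinarith [mul_le_mul_of_nonneg_left hab hc0.le]
  have cF : Continuous fun x => C (κ * n₁ (x / q)) := cC.comp ((c1.comp (by fun_prop)).const_mul κ)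
  have term : ∀ j ∈ Finset.range m, C (c * (q * n ((x₀ + (j + a : ℕ)) / q)) -
      c * (q * n ((x₀ + (j + b : ℕ)) / q))) ≤
      (∫ x in x₀ + (j : ℕ)..x₀ + (j + 1 : ℕ), C (κ * n₁ (x / q))) + η / 2 := by
    intro j hj
    have hj' : (j : ℝ) + 1 ≤ m := by exact_mod_cast Finset.mem_range.1 hj
    have hj0 : (0 : ℝ) ≤ j := Nat.cast_nonneg j
    rw [← sub_le_iff_le_add]
    have := intervalIntegral.integral_mono_on (a := x₀ + (j : ℕ)) (b := x₀ + (j + 1 : ℕ))
      (μ := volume) (f := fun _ => C (c * (q * n ((x₀ + (j + a : ℕ)) / q)) -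
        c * (q * n ((x₀ + (j + b : ℕ)) / q))) - η / 2) (by push_cast; linarith)
      intervalIntegrable_const (cF.intervalIntegrable _ _) ?_
    · simpa using this
    intro x hx
    push_cast at hx
    have dφ : ∀ y ∈ Icc (x₀ + j) (x₀ + j + D), HasDerivWithinAt
        (fun y => q * n (y / q) - y * n₁ (x / q)) (n₁ (y / q) - n₁ (x / q))
        (Icc (x₀ + j) (x₀ + j + D)) y := by
      intro y _
      have := (((hn.d₁ (y / q)).comp y ((hasDerivAt_id y).div_const q)).const_mul q).sub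
        ((hasDerivAt_id y).mul_const (n₁ (x / q)))
      refine HasDerivAt.hasDerivWithinAt ?_
      have e : n₁ (y / q) - n₁ (x / q) = q * (n₁ (y / q) * (1 / q)) - 1 * n₁ (x / q) := by
        field_simp
      rw [e]; exact this
    have ha' : (a : ℝ) ≤ D := by exact_mod_cast ha
    have hb' : (b : ℝ) ≤ D := by exact_mod_cast hb
    have ha0 : (0 : ℝ) ≤ a := Nat.cast_nonneg a
    have hb0 : (0 : ℝ) ≤ b := Nat.cast_nonneg b
    have mvt := (convex_Icc _ _).norm_image_sub_le_of_norm_hasDerivWithin_le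
      (C := ω / (|c| * (D + 1))) dφ (fun y hy => by
        refine (hu1 _ (hmem y (by linarith [hy.1]) (by linarith [hy.2])) _
          (hmem x (by linarith [hx.1]) (by linarith [hx.2])) ?_).le
        rw [Real.dist_eq, ← sub_div, abs_div, abs_of_pos hq, div_lt_iff₀ hq, abs_lt]
        constructor <;> linarith [hy.1, hy.2, hx.1, hx.2])
      (x := x₀ + (j + b)) (y := x₀ + (j + a)) ⟨by linarith, by linarith⟩ ⟨by linarith, by linarith⟩
    have h2 : dist (c * (q * n ((x₀ + (j + a : ℕ)) / q)) - c * (q * n ((x₀ + (j + b : ℕ)) / q)))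
        (κ * n₁ (x / q)) < ω := by
      rw [Real.dist_eq]
      push_cast
      rw [Real.norm_eq_abs, Real.norm_eq_abs] at mvt
      have e : c * (q * n ((x₀ + (j + a)) / q)) - c * (q * n ((x₀ + (j + b)) / q)) - κ * n₁ (x / q) =
          c * (q * n ((x₀ + (j + a)) / q) - (x₀ + (j + a)) * n₁ (x / q) -
            (q * n ((x₀ + (j + b)) / q) - (x₀ + (j + b)) * n₁ (x / q))) := by rw [hκ]; ring
      rw [e, abs_mul]
      refine (mul_le_mul_of_nonneg_left mvt hc0.le).trans_lt ?_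
      have h3 : |x₀ + (j + a) - (x₀ + (j + b))| < D + 1 := by
        rw [abs_lt]; constructor <;> linarith
      calc _ < |c| * (ω / (|c| * (D + 1)) * (D + 1)) := by gcongr
        _ = ω := by field_simp
    have := huC h2
    rw [Real.dist_eq, abs_lt] at this
    linarith [this.2]
  refine (Finset.sum_le_sum term).trans ?_
  rw [Finset.sum_add_distrib, intervalIntegral.sum_integral_adjacent_intervals
    (a := fun j : ℕ => x₀ + j) fun k _ => cF.intervalIntegrable _ _,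
    intervalIntegral.integral_comp_div (fun s => C (κ * n₁ s)) hq.ne']
  have hm0 : (0 : ℝ) ≤ m := Nat.cast_nonneg m
  have := (le_abs_self _).trans (hosc κ hκ' ((x₀ + (0 : ℕ)) / q) (hmem _ (by simp) (by simp; linarith))
    ((x₀ + m) / q) (hmem _ (by linarith) (by linarith)))
  simp only [smul_eq_mul, Finset.sum_const, Finset.card_range, nsmul_eq_mul]
  nlinarith [mul_le_mul_of_nonneg_left this hq.le, mul_le_mul_of_nonneg_left hm1 hη.le]

lemma sum_sum_le {H : ℕ} {F : ℕ → ℕ → ℝ} {x y : ℝ} (hx : 0 ≤ x) (hy : 0 ≤ y)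
    (h1 : ∀ i < H, F i i ≤ x) (h2 : ∀ i < H, ∀ i' < H, i ≠ i' → F i i' ≤ y) :
    ∑ i ∈ Finset.range H, ∑ i' ∈ Finset.range H, F i i' ≤ H * x + H ^ 2 * y := by
  have : ∀ i ∈ Finset.range H, ∑ i' ∈ Finset.range H, F i i' ≤ x + H * y := by
    intro i hi
    have : ∑ i' ∈ Finset.range H, F i i' ≤
        ∑ i' ∈ Finset.range H, ((if i = i' then x else 0) + y) := by
      refine Finset.sum_le_sum fun i' hi' => ?_
      split_ifs with h
      · rw [← h]; linarith [h1 i (Finset.mem_range.1 hi)]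
      · linarith [h2 i (Finset.mem_range.1 hi) i' (Finset.mem_range.1 hi') h]
    simpa [Finset.sum_add_distrib, hi] using this
  have := Finset.sum_le_card_nsmul _ _ _ this
  simp only [Finset.card_range, nsmul_eq_mul] at this
  linarith

lemma len_sum (hC : Corr C) (hn : Cvx n n₁ n₂ g g₁) {c : ℝ} (hc : c ≠ 0) {A ρ ε : ℝ}
    (hA : 0 ≤ A) (hρ : 0 < ρ) (hε : 0 < ε) : ∀ᶠ q : ℝ in atTop, ∀ x₀,
      |x₀| ≤ A * q → ∀ m : ℕ, ρ * q ≤ m → m ≤ q →
      ∑ j ∈ Finset.range m, C (c * (q * n ((x₀ + j) / q))) ≤ ε * m := by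
  obtain ⟨d, hd⟩ := diff_sum hC hn hc hA hρ (η := ε ^ 2 / 4) (by positivity)
  obtain ⟨H, hH⟩ := exists_nat_gt (4 / ε ^ 2)
  have hH0 : (0 : ℝ) < H := lt_trans (by positivity) hH
  rw [div_lt_iff₀ (by positivity)] at hH
  filter_upwards [hd (H * d), eventually_ge_atTop (8 * (H * d) / (ε * ρ))]
    with q h1 hq x₀ hx₀ m hm1 hm2
  rw [div_le_iff₀ (by positivity)] at hq
  have hm0 : (0 : ℝ) ≤ m := Nat.cast_nonneg m
  let s : ℕ → ℝ := fun j => c * (q * n ((x₀ + j) / q))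
  have e1 : H * ∑ j ∈ Finset.range m, C (s j) ≤
      ∑ j ∈ Finset.range m, ∑ i ∈ Finset.range H, C (s (j + i * d)) + H * (2 * (H * d)) := by
    rw [Finset.sum_comm]
    have : ∀ i ∈ Finset.range H, ∑ j ∈ Finset.range m, C (s j) - 2 * (H * d) ≤
        ∑ j ∈ Finset.range m, C (s (j + i * d)) := by
      intro i hi
      have := sum_shift_le (u := fun j => C (s j)) (fun j => hC.bdd _) m (i * d)
      have h2 : ((i * d : ℕ) : ℝ) ≤ H * d := by
        exact_mod_cast Nat.mul_le_mul_right d (Finset.mem_range.1 hi).le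
      linarith
    have := Finset.card_nsmul_le_sum _ _ _ this
    simp only [Finset.card_range, nsmul_eq_mul] at this
    linarith
  have e2 := Finset.sum_le_sum fun j (_ : j ∈ Finset.range m) =>
    hC.cs H (fun i => s (j + i * d)) (ε / 2)
  rw [← Finset.mul_sum, Finset.sum_add_distrib, Finset.sum_const, Finset.card_range,
    nsmul_eq_mul] at e2
  have e3 : ∑ j ∈ Finset.range m, ∑ i ∈ Finset.range H, ∑ i' ∈ Finset.range H,
      C (s (j + i * d) - s (j + i' * d)) ≤ H * m + H ^ 2 * (ε ^ 2 / 4 * m) := by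
    rw [Finset.sum_comm]
    simp_rw [Finset.sum_comm (s := Finset.range m)]
    refine sum_sum_le hm0 (by positivity) (fun i _ => ?_) fun i hi i' hi' hne => ?_
    · simpa using mul_le_of_le_one_right hm0 (abs_le.1 (hC.bdd 0)).2
    · refine h1 x₀ hx₀ m hm1 hm2 _ _ (Nat.mul_le_mul_right d hi.le) (Nat.mul_le_mul_right d hi'.le) ?_
      push_cast
      rw [← sub_mul, abs_mul, abs_of_nonneg (Nat.cast_nonneg d : (0 : ℝ) ≤ d)]
      refine le_mul_of_one_le_left (Nat.cast_nonneg d) ?_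
      have : (i : ℤ) - i' ≠ 0 := by omega
      exact_mod_cast Int.one_le_abs this
  show ∑ j ∈ Finset.range m, C (s j) ≤ ε * m
  set X := ∑ j ∈ Finset.range m, C (s j)
  set Y := ∑ j ∈ Finset.range m, ∑ i ∈ Finset.range H, C (s (j + i * d))
  have e4 : ε * H * (H * X) ≤ ε * H * (Y + H * (2 * (H * d))) :=
    mul_le_mul_of_nonneg_left e1 (by positivity)
  have e5 : 8 * (H * d) ≤ ε * m := by nlinarith [mul_le_mul_of_nonneg_left hm1 hε.le]
  have e6 : ε * H ^ 2 * (8 * (H * d)) ≤ ε * H ^ 2 * (ε * m) :=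
    mul_le_mul_of_nonneg_left e5 (by positivity)
  have e7 : H * m * 4 ≤ H * m * (H * ε ^ 2) := mul_le_mul_of_nonneg_left hH.le (by positivity)
  have : ε * H ^ 2 * X ≤ ε * H ^ 2 * (ε * m) := by nlinarith
  exact le_of_mul_le_mul_left this (by positivity)

/-- the mean square of the average of `J` translates by multiples of `τ` -/
noncomputable def psiJ (C : ℝ → ℝ) (J : ℕ) (τ : ℝ) : ℝ :=
  ∑ i ∈ Finset.range J, ∑ i' ∈ Finset.range J, C (i * τ - i' * τ)

theorem len_main (hC : Corr C) (hn : Cvx n n₁ n₂ g g₁) {L : ℝ} (hL : L ≠ 0) {A ρ : ℝ}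
    (hA : 0 ≤ A) (hρ : 0 < ρ) {J : ℕ} (hJ : 0 < J) : ∀ᶠ q : ℝ in atTop, ∀ x₀,
      |x₀| ≤ A * q → ∀ m : ℕ, ρ * q ≤ m → m ≤ q →
      ∑ j ∈ Finset.range m, psiJ C J (L * (q * n ((x₀ + j) / q))) ≤ 2 * J * m := by
  have hJ0 : (0 : ℝ) < J := by exact_mod_cast hJ
  have h1 := (eventually_all_finset ((Finset.range J ×ˢ Finset.range J).filter
    fun a => a.1 ≠ a.2)).2 fun a ha => len_sum hC hn (c := (a.1 - a.2) * L) (mul_ne_zero
      (sub_ne_zero.2 (by exact_mod_cast (Finset.mem_filter.1 ha).2)) hL) hA hρ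
      (ε := 1 / J) (by positivity)
  filter_upwards [h1] with q h x₀ hx₀ m hm1 hm2
  have hm0 : (0 : ℝ) ≤ m := Nat.cast_nonneg m
  unfold psiJ
  rw [Finset.sum_comm]
  simp_rw [Finset.sum_comm (s := Finset.range m)]
  refine (sum_sum_le (x := m) (y := 1 / J * m) hm0 (by positivity) (fun i _ => ?_)
    fun i hi i' hi' hne => ?_).trans (le_of_eq ?_)
  · simpa using mul_le_of_le_one_right hm0 (abs_le.1 (hC.bdd 0)).2
  · refine le_trans (le_of_eq ?_) (h (i, i') (by simp [hi, hi', hne]) x₀ hx₀ m hm1 hm2)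
    refine Finset.sum_congr rfl fun j _ => ?_
    congr 1; ring
  · field_simp; ring

end Pool.Agent.MP_d0b2d2_an
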