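import Pool.Agent.MP_d0b2d2_an.Defs

open MeasureTheory Set Filter Topology

namespace Pool.Agent.MP_d0b2d2_an

lemma proj_add (u v : ℝ × ℝ) : proj (u + v) = proj u + proj v := by
  simp [proj]

lemma proj_zero : proj 0 = 0 := by
  simp [proj]

lemma proj_neg (u : ℝ × ℝ) : proj (-u) = -proj u := by
  simp [proj]

lemma proj_sub (u v : ℝ × ℝ) : proj (u - v) = proj u - proj v := by
  simp [proj]

lemma continuous_proj : Continuous proj := by
  unfold proj
  exact (AddCircle.continuous_mk' 1 |>.comp continuous_fst).prodMk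
    (AddCircle.continuous_mk' 1 |>.comp continuous_snd)

lemma proj_surj (z : Tor) : ∃ y, proj y = z := by
  obtain ⟨a, ha⟩ := QuotientAddGroup.mk_surjective z.1
  obtain ⟨b, hb⟩ := QuotientAddGroup.mk_surjective z.2
  exact ⟨(a, b), Prod.ext ha hb⟩

lemma isOpenMap_proj : IsOpenMap proj := by
  have h : IsOpenMap (fun x : ℝ => (x : UnitAddCircle)) := QuotientAddGroup.isOpenMap_coe
  exact h.prodMap h

lemma proj_int (k l : ℤ) : proj ((k : ℝ), (l : ℝ)) = 0 := by
  have h : ∀ k : ℤ, ((k : ℝ) : UnitAddCircle) = 0 := fun k => by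
    rw [AddCircle.coe_eq_zero_iff]; exact ⟨k, by simp⟩
  simp [proj, h]

lemma proj_eq_zero_iff (v : ℝ × ℝ) : proj v = 0 ↔ ∃ k l : ℤ, v = ((k : ℝ), (l : ℝ)) := by
  constructor
  · intro h
    have h1 : ((v.1 : ℝ) : UnitAddCircle) = 0 := congrArg Prod.fst h
    have h2 : ((v.2 : ℝ) : UnitAddCircle) = 0 := congrArg Prod.snd h
    rw [AddCircle.coe_eq_zero_iff] at h1 h2
    obtain ⟨k, hk⟩ := h1
    obtain ⟨l, hl⟩ := h2
    exact ⟨k, l, Prod.ext (by simpa using hk.symm) (by simpa using hl.symm)⟩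
  · rintro ⟨k, l, rfl⟩
    exact proj_int k l

lemma proj_eq_iff (u v : ℝ × ℝ) : proj u = proj v ↔ ∃ k l : ℤ, u = v + ((k : ℝ), (l : ℝ)) := by
  rw [← sub_eq_zero, ← proj_sub, proj_eq_zero_iff]
  constructor
  · rintro ⟨k, l, h⟩; exact ⟨k, l, by rw [← h]; abel⟩
  · rintro ⟨k, l, h⟩; exact ⟨k, l, by rw [h]; abel⟩

lemma norm_proj_le (u : ℝ × ℝ) : ‖proj u‖ ≤ ‖u‖ := by
  rw [Prod.norm_def, Prod.norm_def]
  exact max_le_max QuotientAddGroup.norm_mk_le_norm QuotientAddGroup.norm_mk_le_norm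

lemma countable_preimage_proj {P : Set Tor} (hP : P.Finite) : (proj ⁻¹' P).Countable := by
  have : proj ⁻¹' P = ⋃ q ∈ P, proj ⁻¹' {q} := by ext y; simp
  rw [this]
  refine hP.countable.biUnion fun q _ => ?_
  obtain ⟨y, rfl⟩ := proj_surj q
  refine (countable_range (fun k : ℤ × ℤ => y + ((k.1 : ℝ), (k.2 : ℝ)))).mono ?_
  intro u hu
  obtain ⟨k, l, h⟩ := (proj_eq_iff u y).1 hu
  exact ⟨(k, l), h.symm⟩

/-- the segment from `z` with vector `u` avoids `P` -/
def Ok (P : Set Tor) (z : Tor) (u : ℝ × ℝ) : Prop := ∀ s ∈ Icc (0 : ℝ) 1, z + proj (s • u) ∉ P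

lemma isOpen_ok {P : Set Tor} (hP : P.Finite) : IsOpen {zu : Tor × (ℝ × ℝ) | Ok P zu.1 zu.2} := by
  have hc : IsClosed {a : Icc (0 : ℝ) 1 × (Tor × (ℝ × ℝ)) | a.2.1 + proj ((a.1 : ℝ) • a.2.2) ∈ P} := by
    refine hP.isClosed.preimage ?_
    exact (continuous_fst.comp continuous_snd).add (continuous_proj.comp (by fun_prop))
  have := isClosedMap_snd_of_compactSpace _ hc
  rw [← isClosed_compl_iff]
  convert this using 1
  ext zu
  simp only [Ok, mem_compl_iff, mem_setOf_eq, not_forall, not_not, mem_image, Prod.exists,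
    Subtype.exists]
  constructor
  · rintro ⟨s, hs, h⟩
    exact ⟨s, hs, zu.1.1, zu.1.2, zu.2.1, zu.2.2, h, rfl⟩
  · rintro ⟨s, hs, a, b, c, d, h, rfl⟩
    exact ⟨s, hs, h⟩

lemma Ok.notMem {P : Set Tor} {z : Tor} {u : ℝ × ℝ} (h : Ok P z u) : z ∉ P := by
  simpa [proj_zero] using h 0 (by simp)

lemma Ok.notMem_end {P : Set Tor} {z : Tor} {u : ℝ × ℝ} (h : Ok P z u) : z + proj u ∉ P := by
  simpa using h 1 (by simp)

lemma ok_of_convex {P : Set Tor} {z : Tor} {C : Set (ℝ × ℝ)} (hC : Convex ℝ C)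
    (hCP : ∀ c ∈ C, z + proj c ∉ P) {c c' : ℝ × ℝ} (hc : c ∈ C) (hc' : c + c' ∈ C) :
    Ok P (z + proj c) c' := by
  intro s hs
  rw [add_assoc, ← proj_add]
  exact hCP _ (hC.add_smul_mem hc hc' hs)

variable {X : Type} [TopologicalSpace X] {π : X → Tor} {P : Set Tor}

lemma lift_unique (H : IsTorusCover π P) {A : Type} [TopologicalSpace A] {S : Set A}
    (hS : IsPreconnected S) {g₁ g₂ : A → X} (h₁ : ContinuousOn g₁ S) (h₂ : ContinuousOn g₂ S)
    (he : ∀ a ∈ S, π (g₁ a) = π (g₂ a)) (hP : ∀ a ∈ S, π (g₁ a) ∉ P) {a : A} (ha : a ∈ S)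
    (hae : g₁ a = g₂ a) : EqOn g₁ g₂ S := by
  have cov := H.cov.isCoveringMap_restrictPreimage
  haveI : PreconnectedSpace S := isPreconnected_iff_preconnectedSpace.1 hS
  let k₁ : S → π ⁻¹' Pᶜ := fun b => ⟨g₁ b, hP b b.2⟩
  let k₂ : S → π ⁻¹' Pᶜ := fun b => ⟨g₂ b, by
    have := hP b b.2; rw [he b b.2] at this; exact this⟩
  have c₁ : Continuous k₁ := (continuousOn_iff_continuous_restrict.1 h₁).subtype_mk _
  have c₂ : Continuous k₂ := (continuousOn_iff_continuous_restrict.1 h₂).subtype_mk _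
  have := cov.eq_of_comp_eq c₁ c₂ (by
    funext b; exact Subtype.ext (he b b.2)) ⟨a, ha⟩ (Subtype.ext hae)
  intro b hb
  exact congrArg Subtype.val (congrFun this ⟨b, hb⟩)

lemma exists_move (H : IsTorusCover π P) : ∃ mv : X → ℝ × ℝ → X,
    ContinuousOn (Function.uncurry mv) {xu | Ok P (π xu.1) xu.2} ∧
    (∀ x u, Ok P (π x) u → ∃ Γ : ℝ → X, ContinuousOn Γ (Icc 0 1) ∧ Γ 0 = x ∧ Γ 1 = mv x u ∧
      ∀ s ∈ Icc (0 : ℝ) 1, π (Γ s) = π x + proj (s • u)) ∧
    ∀ x u, ¬ Ok P (π x) u → mv x u = x := by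
  classical
  have cov := H.cov.isCoveringMap_restrictPreimage
  let A := {xu : X × (ℝ × ℝ) | Ok P (π xu.1) xu.2}
  let Hm : C(unitInterval × A, (Pᶜ : Set Tor)) :=
    ⟨fun a => ⟨π a.2.1.1 + proj ((a.1 : ℝ) • a.2.1.2), a.2.2 a.1 a.1.2⟩, by
      refine Continuous.subtype_mk ?_ _
      exact (H.cont.comp (by fun_prop)).add (continuous_proj.comp (by fun_prop))⟩
  let f : C(A, π ⁻¹' Pᶜ) := ⟨fun a => ⟨a.1.1, a.2.notMem⟩, by
      refine Continuous.subtype_mk ?_ _
      fun_prop⟩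
  have H0 : ∀ a, Hm (0, a) = Pᶜ.restrictPreimage π (f a) := by
    intro a
    apply Subtype.ext
    simp [Hm, f, proj_zero]
  let L := cov.liftHomotopy Hm f H0
  have hL := cov.liftHomotopy_lifts Hm f H0
  have hL0 := cov.liftHomotopy_zero Hm f H0
  refine ⟨fun x u => if h : Ok P (π x) u then (L (1, ⟨(x, u), h⟩) : X) else x, ?_, ?_, ?_⟩
  · rw [continuousOn_iff_continuous_restrict]
    have : Continuous fun a : A => (L (1, a) : X) := by fun_prop
    convert this using 1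
    funext a
    have h : Ok P (π a.1.1) a.1.2 := a.2
    simp only [restrict_apply, Function.uncurry, h, dif_pos]
    rfl
  · intro x u h
    refine ⟨fun s => (L (projIcc 0 1 zero_le_one s, ⟨(x, u), h⟩) : X), ?_, ?_, ?_, ?_⟩
    · apply Continuous.continuousOn
      have := continuous_projIcc (a := (0 : ℝ)) (b := 1) (h := zero_le_one)
      fun_prop
    · have : projIcc (0 : ℝ) 1 zero_le_one 0 = 0 := by simp
      simp only [this]
      exact congrArg Subtype.val (hL0 _)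
    · have : projIcc (0 : ℝ) 1 zero_le_one 1 = 1 := by simp
      simp only [this, h, dif_pos]
    · intro s hs
      have := congrArg Subtype.val (congrFun hL (projIcc 0 1 zero_le_one s, ⟨(x, u), h⟩))
      beta_reduce
      rw [projIcc_of_mem _ hs] at this ⊢
      exact this
  · intro x u h
    simp only [h, dif_neg, not_false_eq_true]

/-- straight-line transport of `x` by the vector `u` -/
noncomputable def mv (H : IsTorusCover π P) : X → ℝ × ℝ → X := (exists_move H).choose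

lemma mv_continuousOn (H : IsTorusCover π P) :
    ContinuousOn (Function.uncurry (mv H)) {xu | Ok P (π xu.1) xu.2} :=
  (exists_move H).choose_spec.1

lemma isOpen_dom (H : IsTorusCover π P) : IsOpen {xu : X × (ℝ × ℝ) | Ok P (π xu.1) xu.2} :=
  (isOpen_ok H.finP).preimage (f := fun xu : X × (ℝ × ℝ) => (π xu.1, xu.2))
    ((H.cont.comp continuous_fst).prodMk continuous_snd)

lemma mv_continuousAt (H : IsTorusCover π P) {x : X} {u : ℝ × ℝ} (h : Ok P (π x) u) :
    ContinuousAt (Function.uncurry (mv H)) (x, u) :=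
  (mv_continuousOn H).continuousAt ((isOpen_dom H).mem_nhds h)

lemma mv_of_not (H : IsTorusCover π P) {x : X} {u : ℝ × ℝ} (h : ¬ Ok P (π x) u) : mv H x u = x :=
  (exists_move H).choose_spec.2.2 x u h

lemma mv_proj (H : IsTorusCover π P) {x : X} {u : ℝ × ℝ} (h : Ok P (π x) u) :
    π (mv H x u) = π x + proj u := by
  obtain ⟨Γ, -, -, h1, h2⟩ := (exists_move H).choose_spec.2.1 x u h
  have := h2 1 (by simp)
  rw [h1, one_smul] at this
  exact this

lemma mv_eq (H : IsTorusCover π P) {x : X} {u : ℝ × ℝ} (h : Ok P (π x) u) {Γ : ℝ → X}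
    (hc : ContinuousOn Γ (Icc 0 1)) (h0 : Γ 0 = x)
    (hπ : ∀ s ∈ Icc (0 : ℝ) 1, π (Γ s) = π x + proj (s • u)) : Γ 1 = mv H x u := by
  obtain ⟨Γ', hc', h0', h1, h2⟩ := (exists_move H).choose_spec.2.1 x u h
  have := lift_unique H isPreconnected_Icc hc hc' (fun s hs => by rw [hπ s hs, h2 s hs])
    (fun s hs => by rw [hπ s hs]; exact h s hs) (a := 0) (by simp) (by rw [h0, h0'])
  rw [this (show (1 : ℝ) ∈ Icc 0 1 by simp), h1]
  rfl

lemma mv_zero (H : IsTorusCover π P) (x : X) : mv H x 0 = x := by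
  by_cases h : Ok P (π x) 0
  · exact (mv_eq H h (Γ := fun _ => x) continuousOn_const rfl (by simp [proj_zero])).symm
  · exact mv_of_not H h

lemma ok_of_convex₀ {z : Tor} {C : Set (ℝ × ℝ)} (hC : Convex ℝ C) (h0 : (0 : ℝ × ℝ) ∈ C)
    (hCP : ∀ c ∈ C, z + proj c ∉ P) {c : ℝ × ℝ} (hc : c ∈ C) : Ok P z c := by
  have := ok_of_convex hC hCP h0 (c' := c) (by simpa using hc)
  simpa [proj_zero] using this

lemma mv_continuousOn_convex (H : IsTorusCover π P) {x : X} {C : Set (ℝ × ℝ)} (hC : Convex ℝ C)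
    (h0 : (0 : ℝ × ℝ) ∈ C) (hCP : ∀ c ∈ C, π x + proj c ∉ P) : ContinuousOn (mv H x) C := by
  intro c hc
  have := (mv_continuousAt H (ok_of_convex₀ hC h0 hCP hc)).comp (f := fun c => (x, c))
    (Continuous.continuousAt (by fun_prop))
  exact this.continuousWithinAt

lemma mv_mv (H : IsTorusCover π P) {x : X} {C : Set (ℝ × ℝ)} (hC : Convex ℝ C)
    (h0 : (0 : ℝ × ℝ) ∈ C) (hCP : ∀ c ∈ C, π x + proj c ∉ P) {c c' : ℝ × ℝ} (hc : c ∈ C)
    (hc' : c + c' ∈ C) : mv H (mv H x c) c' = mv H x (c + c') := by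
  have hπc := mv_proj H (ok_of_convex₀ hC h0 hCP hc)
  have hok : Ok P (π (mv H x c)) c' := by rw [hπc]; exact ok_of_convex hC hCP hc hc'
  have := mv_eq H hok (Γ := fun s => mv H x (c + s • c')) ?_ (by simp) ?_
  · simpa using this.symm
  · exact (mv_continuousOn_convex H hC h0 hCP).comp (by fun_prop)
      (fun s hs => hC.add_smul_mem hc hc' hs)
  · intro s hs
    rw [mv_proj H (ok_of_convex₀ hC h0 hCP (hC.add_smul_mem hc hc' hs)), hπc, proj_add, add_assoc]

lemma convex_seg (u : ℝ × ℝ) : Convex ℝ ((fun s : ℝ => s • u) '' Icc 0 1) :=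
  (convex_Icc 0 1).is_linear_image (IsLinearMap.isLinearMap_smul' u)

lemma Ok.neg {z : Tor} {u : ℝ × ℝ} (h : Ok P z u) : Ok P (z + proj u) (-u) := by
  refine ok_of_convex (convex_seg u) ?_ ⟨1, by simp, by simp⟩ ⟨0, by simp, by simp⟩
  rintro _ ⟨s, hs, rfl⟩
  exact h s hs

lemma mv_neg (H : IsTorusCover π P) {x : X} {u : ℝ × ℝ} (h : Ok P (π x) u) :
    mv H (mv H x u) (-u) = x := by
  rw [mv_mv H (convex_seg u) ⟨0, by simp, by simp⟩ ?_ ⟨1, by simp, by simp⟩ ⟨0, by simp, by simp⟩]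
  · simp [mv_zero]
  · rintro _ ⟨s, hs, rfl⟩
    exact h s hs

/-- a trajectory is computed by `mv` -/
lemma traj_eq_mv (H : IsTorusCover π P) {g : ℝ → X} {z₀ : Tor} {w : ℝ × ℝ} {t s : ℝ} (hs : 0 ≤ s)
    (hc : ContinuousOn g (Icc t (t + s)))
    (hπ : ∀ r ∈ Icc t (t + s), π (g r) = z₀ + proj (r • w))
    (hP : ∀ r ∈ Icc t (t + s), z₀ + proj (r • w) ∉ P) : g (t + s) = mv H (g t) (s • w) := by
  have hm : ∀ σ ∈ Icc (0 : ℝ) 1, t + σ * s ∈ Icc t (t + s) := fun σ hσ =>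
    ⟨by nlinarith [hσ.1], by nlinarith [hσ.2]⟩
  have ht : π (g t) = z₀ + proj (t • w) := hπ t ⟨le_rfl, by linarith⟩
  have he : ∀ σ : ℝ, π (g t) + proj (σ • s • w) = z₀ + proj ((t + σ * s) • w) := by
    intro σ
    rw [ht, add_assoc, ← proj_add, smul_smul, ← add_smul]
  have hok : Ok P (π (g t)) (s • w) := fun σ hσ => by rw [he]; exact hP _ (hm σ hσ)
  have := mv_eq H hok (Γ := fun σ => g (t + σ * s)) (hc.comp (by fun_prop) hm) (by simp)
    (fun σ hσ => by rw [he]; exact hπ _ (hm σ hσ))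
  simpa using this

lemma measurable_mv [MeasurableSpace X] [BorelSpace X] [SecondCountableTopology X]
    (H : IsTorusCover π P) : Measurable (Function.uncurry (mv H)) := by
  classical
  have := (mv_continuousOn H).measurable_piecewise (g := Prod.fst) continuous_fst.continuousOn
    (isOpen_dom H).measurableSet
  convert this using 1
  funext xu
  by_cases h : Ok P (π xu.1) xu.2
  · rw [piecewise_eq_of_mem _ _ _ h]
  · rw [piecewise_eq_of_notMem _ _ _ h]
    exact mv_of_not H h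

lemma finite_fiber [CompactSpace X] (H : IsTorusCover π P) (z : Tor) : (π ⁻¹' {z}).Finite := by
  by_cases hz : z ∈ P
  · exact H.finFib.subset (preimage_mono (singleton_subset_iff.2 hz))
  · have hd := (H.cov z hz).discreteTopology_fiber
    have hc : IsCompact (π ⁻¹' {z}) := (isClosed_singleton.preimage H.cont).isCompact
    exact hc.finite ⟨hd⟩

/-- uniform oscillation bound on connected sets with small projection -/
lemma unif [CompactSpace X] [T2Space X] (H : IsTorusCover π P) {h : X → ℝ} (hh : Continuous h)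
    {ε : ℝ} (hε : 0 < ε) : ∃ δ > 0, ∀ Z : Set X, IsPreconnected Z → ∀ z : Tor,
      (∀ x ∈ Z, dist (π x) z < δ) → ∀ x ∈ Z, ∀ x' ∈ Z, |h x - h x'| < ε := by
  have key : ∀ z : Tor, ∃ V : Set Tor, IsOpen V ∧ z ∈ V ∧ ∀ Z : Set X, IsPreconnected Z →
      (∀ x ∈ Z, π x ∈ V) → ∀ x ∈ Z, ∀ x' ∈ Z, |h x - h x'| < ε := by
    intro z
    obtain ⟨U, hU, hd⟩ := (finite_fiber H z).t2_separation
    let U' : X → Set X := fun x => U x ∩ {y | |h y - h x| < ε / 2}
    have hU'o : ∀ x, IsOpen (U' x) := fun x =>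
      (hU x).2.inter (isOpen_lt (by fun_prop) continuous_const)
    let W : Set X := ⋃ x ∈ π ⁻¹' {z}, U' x
    have hW : IsOpen W := isOpen_biUnion fun x _ => hU'o x
    refine ⟨(π '' Wᶜ)ᶜ, (H.cont.isClosedMap _ hW.isClosed_compl).isOpen_compl, ?_, ?_⟩
    · rintro ⟨x, hx, rfl⟩
      exact hx (mem_biUnion (x := x) rfl ⟨(hU x).1, by simpa using hε⟩)
    · intro Z hZ hZV x hx x' hx'
      have hZW : Z ⊆ W := fun y hy => by
        by_contra hn
        exact hZV y hy ⟨y, hn, rfl⟩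
      obtain ⟨a, ha, hxa⟩ := mem_iUnion₂.1 (hZW hx)
      have hsub : Z ⊆ U' a := by
        refine hZ.subset_left_of_subset_union (v := ⋃ b ∈ π ⁻¹' {z} \ {a}, U' b) (hU'o a)
          (isOpen_biUnion fun b _ => hU'o b) ?_ ?_ ⟨x, hx, hxa⟩
        · rw [disjoint_iUnion₂_right]
          intro b hb
          exact (hd ha hb.1 (fun e => hb.2 e.symm)).mono inter_subset_left inter_subset_left
        · intro y hy
          obtain ⟨b, hb, hyb⟩ := mem_iUnion₂.1 (hZW hy)
          by_cases e : b = a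
          · left; rwa [← e]
          · right; exact mem_biUnion (x := b) ⟨hb, e⟩ hyb
      have h1 : |h x - h a| < ε / 2 := (hsub hx).2
      have h2 : |h x' - h a| < ε / 2 := (hsub hx').2
      rw [abs_lt] at *
      constructor <;> linarith [h1.1, h1.2, h2.1, h2.2]
  choose V hVo hVz hV using key
  obtain ⟨δ, hδ, hl⟩ := lebesgue_number_lemma_of_metric (isCompact_univ (X := Tor)) hVo
    (fun z _ => mem_iUnion.2 ⟨z, hVz z⟩)
  refine ⟨δ, hδ, fun Z hZ z hz => ?_⟩
  obtain ⟨i, hi⟩ := hl z (mem_univ _)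
  exact hV i Z hZ fun x hx => hi (hz x hx)

lemma span_ne_top (v : ℝ × ℝ) : Submodule.span ℝ {v} ≠ ⊤ := by
  intro h
  have h1 : ((1, 0) : ℝ × ℝ) ∈ Submodule.span ℝ {v} := h ▸ Submodule.mem_top
  have h2 : ((0, 1) : ℝ × ℝ) ∈ Submodule.span ℝ {v} := h ▸ Submodule.mem_top
  rw [Submodule.mem_span_singleton] at h1 h2
  obtain ⟨a, ha⟩ := h1
  obtain ⟨b, hb⟩ := h2
  have a1 : a * v.1 = 1 := congrArg Prod.fst ha
  have a2 : a * v.2 = 0 := congrArg Prod.snd ha
  have b2 : b * v.2 = 1 := congrArg Prod.snd hb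
  have : a * v.1 * (b * v.2) = (a * v.2) * (b * v.1) := by ring
  rw [a1, a2, b2] at this
  simp at this

lemma ae_notMem_line (y v : ℝ × ℝ) : ∀ᵐ u : ℝ × ℝ, ∀ s : ℝ, u ≠ y + s • v := by
  have h0 := Measure.addHaar_submodule (volume : Measure (ℝ × ℝ)) _ (span_ne_top v)
  have h1 : volume ((fun u => -y + u) ⁻¹' (Submodule.span ℝ {v} : Set (ℝ × ℝ))) = 0 := by
    rw [measure_preimage_add]; exact h0
  rw [ae_iff]
  refine measure_mono_null ?_ h1
  intro u hu
  simp only [ne_eq, not_forall, not_not, mem_setOf_eq] at hu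
  obtain ⟨s, rfl⟩ := hu
  simp only [mem_preimage, neg_add_cancel_left, SetLike.mem_coe]
  exact Submodule.smul_mem _ _ (Submodule.mem_span_singleton_self v)

lemma ae_ok_vec (hP : P.Finite) {z : Tor} (hz : z ∉ P) : ∀ᵐ u : ℝ × ℝ, Ok P z u := by
  obtain ⟨y, rfl⟩ := proj_surj z
  have := (ae_ball_iff (countable_preimage_proj hP)).2
    (fun q _ => ae_notMem_line (0 : ℝ × ℝ) (q - y))
  filter_upwards [this] with u hu s hs hq
  rw [← proj_add] at hq
  rcases eq_or_lt_of_le hs.1 with h0 | h0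
  · rw [← h0] at hq; simp at hq; exact hz hq
  · apply hu _ hq s⁻¹
    simp [smul_smul, inv_mul_cancel₀ h0.ne']

lemma ae_line_avoid (hP : P.Finite) (w : ℝ × ℝ) :
    ∀ᵐ y : ℝ × ℝ, ∀ t : ℝ, proj y + proj (t • w) ∉ P := by
  have := (ae_ball_iff (countable_preimage_proj hP)).2 (fun q _ => ae_notMem_line q w)
  filter_upwards [this] with y hy t hq
  rw [← proj_add] at hq
  apply hy _ hq (-t)
  simp

lemma mv_bijOn (H : IsTorusCover π P) {z : Tor} {u : ℝ × ℝ} (h : Ok P z u) :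
    BijOn (fun x => mv H x u) (π ⁻¹' {z}) (π ⁻¹' {z + proj u}) := by
  refine InvOn.bijOn (f' := fun x => mv H x (-u)) ⟨?_, ?_⟩ ?_ ?_
  · intro x hx
    have hx : π x = z := hx
    exact mv_neg H (hx ▸ h)
  · intro x hx
    have hx : π x = z + proj u := hx
    have := mv_neg H (x := x) (u := -u) (hx ▸ h.neg)
    simpa using this
  · intro x hx
    have hx : π x = z := hx
    show π (mv H x u) = _
    rw [mv_proj H (hx ▸ h), hx]
  · intro x hx
    have hx : π x = z + proj u := hx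
    show π (mv H x (-u)) = _
    rw [mv_proj H (hx ▸ h.neg), hx, proj_neg]; abel

lemma ncard_fiber_eq (H : IsTorusCover π P) {z z' : Tor} (hz : z ∉ P) (hz' : z' ∉ P) :
    (π ⁻¹' {z}).ncard = (π ⁻¹' {z'}).ncard := by
  obtain ⟨y, rfl⟩ := proj_surj z
  obtain ⟨y', rfl⟩ := proj_surj z'
  have h1 := ae_ok_vec H.finP hz
  have h2 : ∀ᵐ u : ℝ × ℝ, Ok P (proj y') (y - y' + u) :=
    (measurePreserving_add_left volume (y - y')).quasiMeasurePreserving.ae (ae_ok_vec H.finP hz')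
  obtain ⟨u, hu1, hu2⟩ := (h1.and h2).exists
  have e1 := (mv_bijOn H hu1).ncard_eq
  have e2 := (mv_bijOn H hu2).ncard_eq
  have : proj y' + proj (y - y' + u) = proj y + proj u := by
    rw [proj_add, proj_sub]; abel
  rw [this] at e2
  rw [e1, e2]

end Pool.Agent.MP_d0b2d2_an
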