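import Pool.Agent.MP_d0b2d2_an.Rigid

open MeasureTheory Set Filter Topology Metric

namespace Pool.Agent.MP_d0b2d2_an

lemma Thick.smul {P : Set Tor} {w : ℝ × ℝ} (h : Thick P w) {c : ℝ} (hc : c ≠ 0) :
    Thick P (c • w) := by
  obtain ⟨δ, hδ, h⟩ := h
  refine ⟨δ, hδ, fun η hη => ?_⟩
  obtain ⟨G, h1, h2, h3, h4⟩ := h η hη
  refine ⟨G, h1, h2, fun a => ?_, h4⟩
  obtain ⟨t, ht⟩ := h3 a
  exact ⟨t / c, by rw [ht, smul_smul, div_mul_cancel₀ _ hc]⟩

noncomputable def shearL (s R : ℝ) (hR : R ≠ 0) : (ℝ × ℝ) ≃ₗ[ℝ] (ℝ × ℝ) where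
  toFun c := (c.1 * R, c.1 * R * s + c.2 / R)
  invFun y := (y.1 / R, R * (y.2 - s * y.1))
  map_add' a b := by ext <;> simp <;> ring
  map_smul' r a := by ext <;> simp <;> ring
  left_inv c := by ext <;> simp <;> field_simp <;> ring
  right_inv y := by ext <;> simp <;> field_simp <;> ring

noncomputable def shear (s R : ℝ) (hR : R ≠ 0) : (ℝ × ℝ) ≃L[ℝ] (ℝ × ℝ) :=
  (shearL s R hR).toContinuousLinearEquiv

lemma shear_apply (s R : ℝ) (hR : R ≠ 0) (c : ℝ × ℝ) :
    shear s R hR c = (c.1 * R, c.1 * R * s + c.2 / R) := rfl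

lemma measurePreserving_shear (s R : ℝ) (hR : R ≠ 0) :
    MeasurePreserving (shear s R hR) volume volume := by
  refine ⟨(shear s R hR).continuous.measurable, ?_⟩
  have e : ((shearL s R hR : (ℝ × ℝ) ≃ₗ[ℝ] (ℝ × ℝ)) : (ℝ × ℝ) →ₗ[ℝ] (ℝ × ℝ)) =
      Matrix.toLin (Module.Basis.finTwoProd ℝ) (Module.Basis.finTwoProd ℝ) !![R, 0; R * s, 1 / R] := by
    refine LinearMap.ext fun c => ?_
    rw [Matrix.toLin_finTwoProd_apply]
    show (c.1 * R, c.1 * R * s + c.2 / R) = _
    ext <;> simp <;> ring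
  have hd : LinearMap.det ((shearL s R hR : (ℝ × ℝ) ≃ₗ[ℝ] (ℝ × ℝ)) : (ℝ × ℝ) →ₗ[ℝ] (ℝ × ℝ)) = 1 := by
    rw [e, LinearMap.det_toLin, Matrix.det_fin_two_of]
    field_simp; ring
  have := Measure.map_linearMap_addHaar_eq_smul_addHaar (volume : Measure (ℝ × ℝ))
    (f := ((shearL s R hR : (ℝ × ℝ) ≃ₗ[ℝ] (ℝ × ℝ)) : (ℝ × ℝ) →ₗ[ℝ] (ℝ × ℝ))) (by rw [hd]; simp)
  rw [hd] at this
  simp only [inv_one, abs_one, ENNReal.ofReal_one, one_smul] at this
  exact this

lemma exists_gap (x : ℝ) : ∀ᶠ μ in 𝓝[>] (0 : ℝ), ∀ k : ℤ, x + k ≠ 0 → μ ≤ |x + k| := by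
  obtain ⟨μ, hμ, h⟩ : ∃ μ > (0 : ℝ), ∀ k : ℤ, x + k ≠ 0 → μ ≤ |x + k| := by
    have h0 := Int.fract_nonneg x
    have h1 := Int.fract_lt_one x
    have hx : ∀ k : ℤ, x + k = Int.fract x + ((⌊x⌋ + k : ℤ) : ℝ) := fun k => by
      push_cast; linarith [Int.floor_add_fract x]
    rcases eq_or_lt_of_le h0 with h2 | h2
    · refine ⟨1, one_pos, fun k hk => ?_⟩
      rw [hx, ← h2, zero_add] at hk ⊢
      exact_mod_cast Int.one_le_abs (by exact_mod_cast hk)
    · refine ⟨min (Int.fract x) (1 - Int.fract x), lt_min h2 (by linarith), fun k _ => ?_⟩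
      rw [hx]
      rcases le_or_gt 0 (⌊x⌋ + k) with h3 | h3
      · have : (0 : ℝ) ≤ ((⌊x⌋ + k : ℤ) : ℝ) := by exact_mod_cast h3
        exact (min_le_left _ _).trans (le_trans (by linarith) (le_abs_self _))
      · have : ((⌊x⌋ + k : ℤ) : ℝ) ≤ -1 := by exact_mod_cast Int.le_sub_one_of_lt h3
        exact (min_le_right _ _).trans (le_trans (by linarith) (neg_le_abs _))
  filter_upwards [Ioc_mem_nhdsGT hμ] with μ' hμ' k hk using hμ'.2.trans (h k hk)

theorem ae_thick {P : Set Tor} (hP : P.Finite) : ∀ᵐ s : ℝ, Thick P (1, s) := by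
  classical
  let Q : Finset Tor := insert 0 ((hP.toFinset ×ˢ hP.toFinset).image fun a => a.1 - a.2)
  obtain ⟨μ, hμ, hμ0⟩ := (((eventually_all_finset Q).2 fun q _ =>
    (exists_gap (rep q).1).and (exists_gap (rep q).2)).and self_mem_nhdsWithin).exists
  have hμ0 : 0 < μ := hμ0
  let N : ℝ → ℝ → Set ℝ := fun δ R => ⋃ q ∈ Q,
    ⋃ k ∈ (Finset.Icc ⌈-(δ * R) - (rep q).1⌉ ⌊-(δ * R) - (rep q).1 + 2 * (δ * R)⌋).filter
      (fun k : ℤ => (rep q).1 + k ≠ 0), Near (-(rep q).2) ((rep q).1 + k) (δ / R)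
  have hsep : ∀ δ R (hR : 0 < R) s, δ / R ≤ μ → s ∉ N δ R → Sep P (shear s R hR.ne') δ := by
    intro δ R hR s h1 hs c hc
    by_contra hn
    push Not at hn
    obtain ⟨q, hq, e⟩ : ∃ q ∈ Q, proj (shear s R hR.ne' c) = proj (rep q) := by
      rcases hc with hc | ⟨q, hq, q', hq', hc⟩
      · exact ⟨0, Finset.mem_insert_self _ _, by rw [hc, proj_rep]⟩
      · exact ⟨q - q', Finset.mem_insert_of_mem (Finset.mem_image.2 ⟨(q, q'), by simp [hq, hq'], rfl⟩),
          by rw [hc, proj_rep]⟩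
    obtain ⟨k, l, e⟩ := (proj_eq_iff _ _).1 e
    have e1 : c.1 * R = (rep q).1 + k := congrArg Prod.fst e
    have e2 : c.1 * R * s + c.2 / R = (rep q).2 + l := congrArg Prod.snd e
    have n1 : |c.1| < δ := (norm_fst_le c).trans_lt hn.2
    have n2 : |c.2 / R| < δ / R := by
      rw [abs_div, abs_of_pos hR]
      exact div_lt_div_of_pos_right ((norm_snd_le c).trans_lt hn.2) hR
    by_cases h0 : (rep q).1 + k = 0
    · have c1 : c.1 = 0 := by
        rw [h0] at e1; exact (mul_eq_zero.1 e1).resolve_right hR.ne'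
      rw [c1, zero_mul, zero_mul, zero_add] at e2
      have c2 : c.2 ≠ 0 := fun h => hn.1 (Prod.ext c1 h)
      have := (hμ q hq).2 l (by rw [← e2]; exact div_ne_zero c2 hR.ne')
      rw [← e2] at this
      linarith
    · refine hs (mem_biUnion hq (mem_biUnion (x := k) ?_ ⟨l, ?_⟩))
      · rw [abs_lt] at n1
        simp only [Finset.coe_filter, Finset.mem_Icc, Int.ceil_le, Int.le_floor, mem_setOf_eq]
        exact ⟨⟨by nlinarith [n1.1], by nlinarith [n1.2]⟩, h0⟩
      · have : -(rep q).2 + ((rep q).1 + k) * s - l = -(c.2 / R) := by rw [← e1]; linarith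
        rw [this, abs_neg]; exact n2.le
  have hvol : ∀ (A δ R : ℝ), 0 ≤ A → 0 < δ → 0 < R → δ / R ≤ 1 → 1 ≤ δ * R →
      volume (N δ R ∩ Icc (-A) (-A + 2 * A)) ≤
        ENNReal.ofReal (Q.card * (6 * (2 * A + 3 / μ)) * δ ^ 2) := by
    intro A δ R hA hδ hR h1 h2
    rw [← ENNReal.ofReal_toReal (a := volume (N δ R ∩ Icc (-A) (-A + 2 * A)))
      (ne_top_of_le_ne_top measure_Icc_lt_top.ne (measure_mono inter_subset_right))]
    refine ENNReal.ofReal_le_ofReal ?_
    simp only [N]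
    rw [iUnion₂_inter, mul_assoc, ← nsmul_eq_mul]
    refine (measureReal_biUnion_finset_le _ _).trans (Finset.sum_le_card_nsmul _ _ _ fun q hq => ?_)
    rw [iUnion₂_inter]
    refine (measureReal_biUnion_finset_le _ _).trans ((Finset.sum_le_card_nsmul _ _
      ((2 * A + 3 / μ) * (2 * (δ / R))) fun k hk => ?_).trans ?_)
    · have hk := (Finset.mem_filter.1 hk).2
      have h3 := (hμ q hq).1 k hk
      refine (volume_near_le _ hk (by positivity) _ (by positivity)).trans ?_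
      have h4 : 0 < |(rep q).1 + k| := abs_pos.2 hk
      rw [← mul_div_assoc, mul_div_right_comm]
      refine mul_le_mul_of_nonneg_right ?_ (by positivity)
      rw [add_assoc, add_div, mul_div_cancel_left₀ _ h4.ne']
      gcongr
      linarith
    · rw [nsmul_eq_mul]
      have h3 := card_Icc_le (-(δ * R) - (rep q).1) (l := 2 * (δ * R)) (by positivity)
      have h4 : (((Finset.Icc ⌈-(δ * R) - (rep q).1⌉ ⌊-(δ * R) - (rep q).1 + 2 * (δ * R)⌋).filter
          (fun k : ℤ => (rep q).1 + k ≠ 0)).card : ℝ) ≤ 3 * (δ * R) := by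
        refine le_trans (by exact_mod_cast Finset.card_filter_le _ _) (h3.trans (by linarith))
      refine (mul_le_mul_of_nonneg_right h4 (by positivity)).trans (le_of_eq ?_)
      field_simp; ring
  have key : ∀ A : ℕ, volume ({s : ℝ | ¬ Thick P (1, s)} ∩ Icc (-A : ℝ) (-A + 2 * A)) = 0 := by
    intro A
    have hle : ∀ δ > 0, volume ({s : ℝ | ¬ Thick P (1, s)} ∩ Icc (-A : ℝ) (-A + 2 * A)) ≤
        ENNReal.ofReal (Q.card * (6 * (2 * A + 3 / μ)) * δ ^ 2) := by
      intro δ hδ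
      let E : ℕ → Set ℝ := fun n => {s | ∀ R : ℝ, n ≤ R → s ∈ N δ R} ∩ Icc (-A : ℝ) (-A + 2 * A)
      have hE : Monotone E := fun n m hnm s hs =>
        ⟨fun R hR => hs.1 R (le_trans (by exact_mod_cast hnm) hR), hs.2⟩
      have hsub : {s : ℝ | ¬ Thick P (1, s)} ∩ Icc (-A : ℝ) (-A + 2 * A) ⊆ ⋃ n, E n := by
        rintro s ⟨hs, hs'⟩
        by_contra hn
        refine hs ⟨δ, hδ, fun η hη => ?_⟩
        obtain ⟨n, hn'⟩ := exists_nat_gt (δ / min μ η)
        have h1 : s ∉ E n := fun h => hn (mem_iUnion.2 ⟨n, h⟩)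
        simp only [E, mem_inter_iff, hs', and_true, mem_setOf_eq, not_forall] at h1
        obtain ⟨R, hR, hsR⟩ := h1
        have hm : 0 < min μ η := lt_min hμ0 hη
        have hR0 : 0 < R := lt_of_lt_of_le (lt_trans (by positivity) hn') hR
        have h2 : δ / R < min μ η := by
          rw [div_lt_iff₀ hR0]
          have := hn'.trans_le hR
          rw [div_lt_iff₀ hm] at this; linarith
        refine ⟨shear s R hR0.ne', measurePreserving_shear _ _ _,
          hsep δ R hR0 s (h2.le.trans (min_le_left _ _)) hsR, fun a => ⟨a * R, ?_⟩, fun b hb => ?_⟩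
        · rw [shear_apply]; simp
        · rw [shear_apply, Prod.norm_def]
          simp only [zero_mul, norm_zero, zero_add, Real.norm_eq_abs, max_lt_iff, hη, true_and]
          rw [abs_div, abs_of_pos hR0]
          exact (div_lt_div_of_pos_right hb hR0).trans (h2.trans_le (min_le_right _ _))
      refine (measure_mono hsub).trans ?_
      rw [hE.measure_iUnion]
      refine iSup_le fun n => ?_
      have hR : 0 < n + δ + 1 / δ := by positivity
      refine le_trans (measure_mono ?_) (hvol A δ (n + δ + 1 / δ) (Nat.cast_nonneg A) hδ hR ?_ ?_)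
      · exact fun s hs => ⟨hs.1 _ (by linarith [one_div_pos.2 hδ]), hs.2⟩
      · rw [div_le_one hR]; linarith [one_div_pos.2 hδ, (Nat.cast_nonneg n : (0 : ℝ) ≤ n)]
      · rw [mul_add, mul_one_div_cancel hδ.ne']
        linarith [mul_nonneg hδ.le (add_nonneg (Nat.cast_nonneg n : (0 : ℝ) ≤ n) hδ.le)]
    have ht : Tendsto (fun δ : ℝ => ENNReal.ofReal (Q.card * (6 * (2 * A + 3 / μ)) * δ ^ 2))
        (𝓝[>] 0) (𝓝 0) := by
      refine tendsto_nhdsWithin_of_tendsto_nhds (Continuous.tendsto'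
        (ENNReal.continuous_ofReal.comp (by fun_prop)) _ _ (by simp))
    exact le_antisymm (ge_of_tendsto ht (by
      filter_upwards [self_mem_nhdsWithin] with δ hδ using hle δ hδ)) zero_le
  rw [ae_iff]
  refine measure_mono_null (fun s hs => ?_) (measure_iUnion_null key)
  obtain ⟨A, hA⟩ := exists_nat_gt |s|
  rw [abs_lt] at hA
  exact mem_iUnion.2 ⟨A, hs, by linarith [hA.1], by linarith [hA.2]⟩

end Pool.Agent.MP_d0b2d2_an
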