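import Pool.Agent.MP_d0b2d2_an.Dir
import Pool.Agent.MP_d0b2d2_an.Core
import Pool.Agent.MP_d0b2d2_an.Dens
import Pool.Agent.MP_d0b2d2_an.Thick

open MeasureTheory Set Filter Topology Metric

namespace Pool.Agent.MP_d0b2d2_an

instance : IsProbabilityMeasure ((volume : Measure ℝ).restrict (Ioo 0 1)) := ⟨by simp⟩

lemma ae_avoid {P : Set Tor} (hP : P.Finite) {a b c d : ℝ} (hD : a * d - b * c ≠ 0) (z : Tor) :
    ∀ᵐ θ : ℝ, ∀ t : ℝ, 0 < t → z + proj (t • vel a b c d θ) ∉ P := by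
  have hc := (countable_preimage_proj (hP.image fun q => q - z)).image fun y => y.2 / y.1
  filter_upwards [ae_slp hD (hc.ae_notMem volume)] with θ hθ t ht hq
  refine hθ.2 ⟨t • vel a b c d θ, ⟨_, hq, by simp⟩, ?_⟩
  simp only [Prod.smul_snd, Prod.smul_fst, smul_eq_mul, slp]
  exact mul_div_mul_left _ _ ht.ne'

variable {X : Type} [TopologicalSpace X] {π : X → Tor} {P : Set Tor}
variable [CompactSpace X] [MeasurableSpace X] [BorelSpace X] [SecondCountableTopology X] [T2Space X]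

lemma ray_fam (H : IsTorusCover π P) {a b c d : ℝ} {p : X} {γ : ℝ → ℝ → X}
    (hγ : IsRayFamily π a b c d p γ) {h : X → ℝ} (hh : Continuous h) (hM : ∀ x, |h x| ≤ 1) :
    Fam (volume.restrict (Ioo 0 1)) fun θ t => h (γ θ (max t 0)) := by
  refine ⟨hh.measurable.comp (hγ.1.comp (f := fun x : ℝ × ℝ => (x.1, max x.2 0)) (by fun_prop)),
    fun θ t => hM _, fun ε hε => ?_⟩
  obtain ⟨δ, hδ, hu⟩ := unif H hh hε
  set W := |a| + |b| + |c| + |d| with hW
  have hW0 : 0 ≤ W := by positivity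
  refine ⟨δ / (W + 1), by positivity, ?_⟩
  filter_upwards [hγ.2] with θ ⟨_, h1, h2⟩ t t' htt
  have hsub : uIcc (max t 0) (max t' 0) ⊆ Ici 0 := fun r hr =>
    le_trans (le_min (le_max_right _ _) (le_max_right _ _)) hr.1
  refine (hu _ (isPreconnected_uIcc.image _ (h1.mono hsub)) (π (γ θ (max t 0))) ?_ _
    ⟨_, left_mem_uIcc, rfl⟩ _ ⟨_, right_mem_uIcc, rfl⟩).le
  rintro _ ⟨r, hr, rfl⟩
  rw [h2 r (hsub hr), h2 _ (le_max_right _ _), dist_add_left, dist_eq_norm, ← proj_sub, ← sub_smul]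
  refine (norm_proj_le _).trans_lt ?_
  rw [norm_smul, Real.norm_eq_abs]
  have e1 := abs_sub_left_of_mem_uIcc hr
  have e2 := abs_max_sub_max_le_abs t' t 0
  rw [Real.dist_eq, abs_sub_comm, lt_div_iff₀ (by positivity)] at htt
  have e3 := norm_vel_le a b c d θ
  nlinarith [mul_le_mul (e1.trans e2) e3 (norm_nonneg _) (abs_nonneg _), abs_nonneg (t' - t)]

theorem meansq (H : IsTorusCover π P) {a b c d : ℝ} (hD : a * d - b * c ≠ 0) {p : X}
    {γ : ℝ → ℝ → X} (hγ : IsRayFamily π a b c d p γ) {h : X → ℝ} (hh : Continuous h)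
    (hM : ∀ x, |h x| ≤ 1) (h0 : ∫ x, h x ∂lam H = 0) :
    Tendsto (avN fun t => (∫ θ in Ioo (0 : ℝ) 1, h (γ θ (max t 0))) ^ 2) atTop (𝓝 0) := by
  have htraj : ∀ᵐ θ ∂(volume.restrict (Ioo (0 : ℝ) 1)),
      Traj π P (vel a b c d θ) (π p) fun t => γ θ (max t 0) := by
    filter_upwards [hγ.2, ae_restrict_of_ae (ae_avoid H.finP hD (π p))] with θ ⟨_, h1, h2⟩ h3
    refine ⟨h1.congr fun t ht => by rw [max_eq_left ht], fun t ht => ?_, h3⟩
    rw [max_eq_left ht]; exact h2 t ht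
  refine core (ray_fam H hγ hh hM) ?_ ?_
  · filter_upwards [htraj, ae_restrict_of_ae (ae_slp hD (ae_thick H.finP))] with θ h1 h2 ε hε
    have h3 := h2.2.smul h2.1
    have e : (vel a b c d θ).1 • ((1 : ℝ), slp a b c d θ) = vel a b c d θ := by
      ext
      · simp
      · simp only [Prod.smul_snd, smul_eq_mul, slp]; exact mul_div_cancel₀ _ h2.1
    rw [e] at h3
    exact traj_local_mean H h3 hh one_pos hM h0 h1 hε
  · intro C hC ε hε J hJ
    have hJ0 : (0 : ℝ) < J := by exact_mod_cast hJ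
    obtain ⟨δ, hδ, hr⟩ := rigidity H hh hM (half_pos hε)
    obtain ⟨n₁, n₂, g, g₁, Lp, hL, hcvx, hpos, hlip⟩ := len_cvx hD
    set W := |a| + |b| + |c| + |d| with hW
    have hW0 : 0 ≤ W := by positivity
    set F := (deg H).factorial with hF
    have hF0 : (0 : ℝ) < F := by exact_mod_cast Nat.factorial_pos _
    set K := 1 + 4 * P.ncard * (J * F * (1 + Lp * W)) / (ε / 2) with hK
    have hK1 : 1 ≤ K := le_add_of_nonneg_right (by positivity)
    obtain ⟨Q, hQ⟩ := exists_nat_gt (J * F * (1 + Lp * W) / δ)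
    have hQ0 : (0 : ℝ) < Q := lt_of_le_of_lt (by positivity) hQ
    rw [div_lt_iff₀ hδ] at hQ
    let ψ : ℤ → ℤ → ℝ := fun q p => psiJ C J (-(F * (q * len a b c d (p / q))))
    have hgood := ae_good (ψ := ψ) (fun q p => by
        simpa [ψ, psiJ] using hC.cs J (fun i => i * -(F * (q * len a b c d (p / q)))) 0)
      (c := 2 * J) (by positivity) (fun A ρ hA hρ => by
        filter_upwards [tendsto_intCast_atTop_atTop.eventually
          (len_main hC hcvx (L := -F) (by linarith) hA hρ hJ)] with q hq x₀ h1 m h2 h3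
        simpa [ψ] using hq x₀ h1 m h2 h3) hK1 Q
    refine ⟨{v : ℤ × ℤ // (Q : ℤ) ≤ v.1 ∧ ψ v.1 v.2 ≤ 8 * (2 * J)}, inferInstance,
      fun v => {θ | (vel a b c d θ).1 ≠ 0} ∩ slp a b c d ⁻¹'
        Ioo ((v.1.2 : ℝ) / v.1.1) (v.1.2 / v.1.1 + 1 / (K * v.1.1 ^ 2)),
      fun v => F * (v.1.1 * len a b c d (v.1.2 / v.1.1)), fun v => ?_, ?_, fun v => ?_, fun v => ?_⟩
    · exact (isOpen_ne_fun (continuous_vel a b c d).fst continuous_const).measurableSet.inter
        (measurable_slp a b c d measurableSet_Ioo)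
    · filter_upwards [ae_restrict_of_ae (ae_slp hD hgood)] with θ ⟨h1, q, p, h2, h3, h4⟩
      exact ⟨⟨(q, p), h2, h3⟩, h1, h4⟩
    · linarith [v.2.2]
    · obtain ⟨⟨q, p⟩, hq, -⟩ := v
      filter_upwards [htraj] with θ h1 ⟨h2, h3⟩ j hj
      have hq' : (Q : ℝ) ≤ q := by exact_mod_cast hq
      have hq0 : (0 : ℝ) < q := by linarith
      have hj' : ((j * F : ℕ) : ℝ) ≤ J * F := by exact_mod_cast Nat.mul_le_mul_right F hj.le
      obtain ⟨k, l, b1, b2, b3⟩ := approx hL hK1 hlip h2 (norm_vel_le a b c d θ) (len_slp hD h2)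
        (by exact_mod_cast hq0) h3 (hpos _)
      obtain ⟨K', hK'⟩ := hr _ _ _ h1 k l (q * len a b c d (p / q)) (mul_pos hq0 (hpos _)) b1 j
        (j * F) rfl (by
          refine lt_of_le_of_lt (mul_le_mul hj' b3 (norm_nonneg _) (by positivity)) ?_
          rw [← mul_div_assoc, div_lt_iff₀ hq0]
          nlinarith)
      refine ⟨K', fun T hT => le_trans (le_of_eq ?_) ((hK' T hT).trans ?_)⟩
      · push_cast; simp only [mul_assoc]
      · refine add_le_add_left (mul_le_mul_of_nonneg_right ?_ hT) _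
        have c1 : ((j * F : ℕ) : ℝ) * (q * len a b c d (p / q)) *
            |k * (vel a b c d θ).2 - l * (vel a b c d θ).1| ≤ J * F * ((1 + Lp * W) / K) := by
          rw [mul_assoc]
          exact mul_le_mul hj' b2 (mul_nonneg (mul_pos hq0 (hpos _)).le (abs_nonneg _))
            (by positivity)
        have c2 : 4 * P.ncard * (J * F * ((1 + Lp * W) / K)) ≤ ε / 2 := by
          rw [← mul_div_assoc, ← mul_div_assoc, div_le_iff₀ (by linarith), hK, mul_add (ε / 2),
            mul_div_cancel₀ _ (half_pos hε).ne']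
          linarith
        nlinarith [mul_le_mul_of_nonneg_left c1 (show (0 : ℝ) ≤ 4 * P.ncard by positivity)]

end Pool.Agent.MP_d0b2d2_an
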