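import Pool.Agent.MP_d0b2d2_an.Len

open MeasureTheory Set Filter Topology Metric BoundedContinuousFunction

namespace Pool.Agent.MP_d0b2d2_an

/-- the average over `[0, n]` -/
noncomputable def avN (f : ℝ → ℝ) (n : ℕ) : ℝ := (∫ t in (0 : ℝ)..n, f t) / n

lemma abs_avN_le {f : ℝ → ℝ} {M : ℝ} (hM : ∀ t, |f t| ≤ M) (n : ℕ) : |avN f n| ≤ M := by
  have hM0 : 0 ≤ M := (abs_nonneg _).trans (hM 0)
  rcases Nat.eq_zero_or_pos n with rfl | hn
  · simpa [avN] using hM0
  have hn' : (0 : ℝ) < n := by exact_mod_cast hn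
  unfold avN
  rw [abs_div, abs_of_pos hn', div_le_iff₀ hn']
  have := intervalIntegral.norm_integral_le_of_norm_le_const (a := 0) (b := n)
    (f := f) (C := M) fun s _ => hM _
  simpa using this

lemma avN_mono {f g : ℝ → ℝ} (n : ℕ) (hf : IntervalIntegrable f volume 0 n)
    (hg : IntervalIntegrable g volume 0 n) (h : ∀ t, 0 ≤ t → f t ≤ g t) : avN f n ≤ avN g n :=
  div_le_div_of_nonneg_right (intervalIntegral.integral_mono_on (Nat.cast_nonneg n) hf hg
    fun t ht => h t ht.1) (Nat.cast_nonneg n)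

lemma avN_le_of_linear {f : ℝ → ℝ} {ε K : ℝ} (hε : 0 < ε)
    (h : ∀ T, 0 ≤ T → ∫ t in (0 : ℝ)..T, f t ≤ ε * T + K) : ∀ᶠ n in atTop, avN f n ≤ 2 * ε := by
  filter_upwards [(tendsto_const_div_atTop_nhds_zero_nat K).eventually_le_const hε,
    eventually_gt_atTop 0] with n h1 hn
  have hn' : (0 : ℝ) < n := by exact_mod_cast hn
  rw [div_le_iff₀ hn'] at h1
  unfold avN
  rw [div_le_iff₀ hn']
  linarith [h n hn'.le]

lemma measurable_avN {Θ : Type} [MeasurableSpace Θ] {φ : Θ → ℝ → ℝ}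
    (hφ : Measurable (Function.uncurry φ)) (n : ℕ) : Measurable fun θ => avN (φ θ) n :=
  (measurable_ii hφ 0 n).div_const _

lemma integral_ii_swap {Θ : Type} [MeasurableSpace Θ] (μ : Measure Θ) [IsFiniteMeasure μ]
    {φ : Θ → ℝ → ℝ} (hφ : Measurable (Function.uncurry φ)) {M : ℝ} (hM : ∀ θ t, |φ θ t| ≤ M)
    {T : ℝ} (hT : 0 ≤ T) :
    ∫ t in (0 : ℝ)..T, ∫ θ, φ θ t ∂μ = ∫ θ, (∫ t in (0 : ℝ)..T, φ θ t) ∂μ := by
  simp_rw [intervalIntegral.integral_of_le hT]
  exact (integral_integral_swap (integrable_bdd hφ fun a => hM _ _)).symm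

lemma rev_fatou {Θ : Type} [MeasurableSpace Θ] (μ : Measure Θ) [IsFiniteMeasure μ]
    {φ : Θ → ℝ → ℝ} (hφ : Measurable (Function.uncurry φ)) {M : ℝ} (hM : ∀ θ t, |φ θ t| ≤ M)
    {c : Θ → ℝ} (hc : Integrable c μ) (h : ∀ᵐ θ ∂μ, ∀ᶠ n in atTop, avN (φ θ) n ≤ c θ)
    {η : ℝ} (hη : 0 < η) :
    ∀ᶠ n in atTop, avN (fun t => ∫ θ, φ θ t ∂μ) n ≤ ∫ θ, c θ ∂μ + η := by
  have hi : ∀ n, Integrable (fun θ => avN (φ θ) n) μ := fun n =>
    integrable_bdd (measurable_avN hφ n) fun θ => abs_avN_le (hM θ) n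
  have hi2 : ∀ n, Integrable (fun θ => max (avN (φ θ) n - c θ) 0) μ := fun n =>
    ((hi n).sub hc).pos_part
  have ht := tendsto_integral_of_dominated_convergence (μ := μ)
    (F := fun n θ => max (avN (φ θ) n - c θ) 0) (f := fun _ => 0) (fun θ => M + |c θ|)
    (fun n => (hi2 n).aestronglyMeasurable) ((integrable_const _).add hc.abs)
    (fun n => ae_of_all _ fun θ => by
      have := abs_le.1 (abs_avN_le (hM θ) n)
      rw [Real.norm_eq_abs, abs_of_nonneg (le_max_right _ _)]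
      exact max_le (by linarith [neg_le_abs (c θ), this.2])
        (by linarith [abs_nonneg (c θ), this.1, this.2]))
    (by
      filter_upwards [h] with θ hθ
      refine tendsto_const_nhds.congr' ?_
      filter_upwards [hθ] with n hn
      exact (max_eq_right (by linarith)).symm)
  rw [integral_zero] at ht
  filter_upwards [ht.eventually_le_const hη] with n hn
  have e : avN (fun t => ∫ θ, φ θ t ∂μ) n = ∫ θ, avN (φ θ) n ∂μ := by
    unfold avN
    rw [integral_ii_swap μ hφ hM (Nat.cast_nonneg n), integral_div]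
  have := integral_mono ((hi n).sub hc) (hi2 n) fun θ => le_max_left _ _
  rw [integral_sub' (hi n) hc] at this
  linarith

/-- translation of a bounded continuous function -/
def sh (s : ℝ) (f : ℝ →ᵇ ℝ) : ℝ →ᵇ ℝ := f.compContinuous ⟨fun t => t + s, by fun_prop⟩

@[simp] lemma sh_apply (s : ℝ) (f : ℝ →ᵇ ℝ) (t : ℝ) : sh s f t = f (t + s) := rfl

structure IsMean (U : Ultrafilter ℕ) (m : (ℝ →ᵇ ℝ) →L[ℝ] ℝ) : Prop where
  le : (U : Filter ℕ) ≤ atTop
  lim : ∀ f : ℝ →ᵇ ℝ, Tendsto (avN f) U (𝓝 (m f))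

lemma exists_mean {U : Ultrafilter ℕ} (hU : (U : Filter ℕ) ≤ atTop) : ∃ m, IsMean U m := by
  have h : ∀ f : ℝ →ᵇ ℝ, ∃ x ∈ Icc (-‖f‖) ‖f‖, Tendsto (avN f) U (𝓝 x) := fun f => by
    have := (isCompact_Icc (a := -‖f‖) (b := ‖f‖)).ultrafilter_le_nhds (U.map (avN f)) (by
      rw [Ultrafilter.coe_map, le_principal_iff, mem_map]
      exact univ_mem' fun n => abs_le.1 (abs_avN_le (fun t => f.norm_coe_le_norm t) n))
    exact this
  choose m hm1 hm2 using h
  let L : (ℝ →ᵇ ℝ) →ₗ[ℝ] ℝ :=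
    { toFun := m
      map_add' := fun f g => by
        refine tendsto_nhds_unique (hm2 (f + g)) (((hm2 f).add (hm2 g)).congr fun n => ?_)
        simp only [avN, coe_add, Pi.add_apply]
        rw [intervalIntegral.integral_add (f.continuous.intervalIntegrable _ _)
          (g.continuous.intervalIntegrable _ _), add_div]
      map_smul' := fun r f => by
        refine tendsto_nhds_unique (hm2 (r • f)) (((hm2 f).const_mul r).congr fun n => ?_)
        simp only [avN, coe_smul, smul_eq_mul]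
        rw [intervalIntegral.integral_const_mul, mul_div_assoc] }
  exact ⟨L.mkContinuous 1 fun f => by rw [one_mul]; exact abs_le.2 (hm1 f), hU, hm2⟩

variable {U : Ultrafilter ℕ} {m : (ℝ →ᵇ ℝ) →L[ℝ] ℝ}

lemma IsMean.le_of (hm : IsMean U m) {f : ℝ →ᵇ ℝ} {c : ℝ}
    (h : ∀ η > 0, ∀ᶠ n in atTop, avN f n ≤ c + η) : m f ≤ c :=
  le_of_forall_pos_le_add fun η hη => le_of_tendsto (hm.lim f) (hm.le (h η hη))

lemma IsMean.mono (hm : IsMean U m) {f g : ℝ →ᵇ ℝ} (h : ∀ t, f t ≤ g t) : m f ≤ m g :=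
  le_of_tendsto_of_tendsto' (hm.lim f) (hm.lim g) fun n => avN_mono n
    (f.continuous.intervalIntegrable _ _) (g.continuous.intervalIntegrable _ _) fun t _ => h t

lemma IsMean.abs_le (hm : IsMean U m) {f : ℝ →ᵇ ℝ} {M : ℝ} (h : ∀ t, |f t| ≤ M) : |m f| ≤ M :=
  le_of_tendsto' (hm.lim f).abs fun n => abs_avN_le h n

lemma IsMean.shift (hm : IsMean U m) (s : ℝ) (f : ℝ →ᵇ ℝ) : m (sh s f) = m f := by
  have h0 : Tendsto (fun n => avN (sh s f) n - avN f n) atTop (𝓝 0) := by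
    refine squeeze_zero_norm (fun n => ?_) (tendsto_const_div_atTop_nhds_zero_nat (2 * ‖f‖ * |s|))
    simp only [avN, sh_apply]
    rw [← sub_div, norm_div, Real.norm_natCast]
    refine div_le_div_of_nonneg_right ?_ (Nat.cast_nonneg n)
    rw [intervalIntegral.integral_comp_add_right (fun t => f t),
      intervalIntegral.integral_interval_sub_interval_comm' (f.continuous.intervalIntegrable _ _)
      (f.continuous.intervalIntegrable _ _) (f.continuous.intervalIntegrable _ _)]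
    have h1 := intervalIntegral.norm_integral_le_of_norm_le_const (a := n) (b := n + s)
      (f := f) (C := ‖f‖) fun s _ => f.norm_coe_le_norm s
    have h2 := intervalIntegral.norm_integral_le_of_norm_le_const (a := 0) (b := 0 + s)
      (f := f) (C := ‖f‖) fun s _ => f.norm_coe_le_norm s
    simp only [add_sub_cancel_left] at h1 h2
    linarith [norm_sub_le (∫ t in (n : ℝ)..n + s, f t) (∫ t in (0 : ℝ)..0 + s, f t)]
  have := tendsto_nhds_unique ((hm.lim (sh s f)).sub (hm.lim f)) (h0.mono_left hm.le)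
  linarith

lemma IsMean.le_int (hm : IsMean U m) {Θ : Type} [MeasurableSpace Θ] (μ : Measure Θ)
    [IsFiniteMeasure μ] {φ : Θ → ℝ → ℝ} (hφ : Measurable (Function.uncurry φ)) {M : ℝ}
    (hM : ∀ θ t, |φ θ t| ≤ M) {c : Θ → ℝ} (hc : Integrable c μ)
    (h : ∀ᵐ θ ∂μ, ∀ᶠ n in atTop, avN (φ θ) n ≤ c θ) {f : ℝ →ᵇ ℝ}
    (hf : ∀ t, 0 ≤ t → f t ≤ ∫ θ, φ θ t ∂μ) : m f ≤ ∫ θ, c θ ∂μ := by
  refine hm.le_of fun η hη => ?_
  filter_upwards [rev_fatou μ hφ hM hc h hη] with n hn
  refine le_trans (avN_mono n (f.continuous.intervalIntegrable _ _) (ii_bdd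
    (hφ.stronglyMeasurable.integral_prod_left').measurable (M := M * μ.real univ) (fun t => ?_) _ _)
    hf) hn
  exact norm_integral_le_of_norm_le_const (f := fun θ => φ θ t) (ae_of_all _ fun θ => hM θ t)

lemma uc_sh {B : ℝ →ᵇ ℝ} (hB : UniformContinuous B) : UniformContinuous fun s => sh s B := by
  rw [Metric.uniformContinuous_iff] at hB ⊢
  intro ε hε
  obtain ⟨δ, hδ, h⟩ := hB (ε / 2) (by linarith)
  refine ⟨δ, hδ, fun a b hab => lt_of_le_of_lt ((dist_le (by linarith)).2 fun t => ?_)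
    (half_lt_self hε)⟩
  exact (h (show dist (t + a) (t + b) < δ by rwa [dist_add_left])).le

lemma IsMean.corr_eq (hm : IsMean U m) (B : ℝ →ᵇ ℝ) (a b : ℝ) :
    m (sh a B * sh b B) = m (B * sh (a - b) B) := by
  rw [← hm.shift b (B * sh (a - b) B)]
  congr 1
  ext t
  simp only [coe_mul, Pi.mul_apply, sh_apply]
  rw [mul_comm]; congr 2; ring

lemma IsMean.sq_sum (hm : IsMean U m) (B : ℝ →ᵇ ℝ) (n : ℕ) (s : ℕ → ℝ) :
    m ((∑ i ∈ Finset.range n, sh (s i) B) * ∑ i ∈ Finset.range n, sh (s i) B) =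
      ∑ i ∈ Finset.range n, ∑ i' ∈ Finset.range n, m (B * sh (s i - s i') B) := by
  rw [Finset.sum_mul_sum]
  simp only [map_sum, hm.corr_eq]

lemma ii_sh_apply {B : ℝ →ᵇ ℝ} (hB : UniformContinuous B) (a b t : ℝ) :
    (∫ s in a..b, sh s B) t = ∫ s in a..b, B (t + s) :=
  ((evalCLM ℝ t).intervalIntegral_comp_comm
    ((uc_sh hB).continuous.intervalIntegrable a b)).symm

lemma IsMean.corr (hm : IsMean U m) {B : ℝ →ᵇ ℝ} (hb : ∀ t, |B t| ≤ 1) (hB : UniformContinuous B)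
    (hL : ∀ η > 0, ∃ Λ > 0, m |∫ s in (0 : ℝ)..Λ, sh s B| ≤ η * Λ) :
    Corr fun s => m (B * sh s B) := by
  have hbb : ∀ a b, |B a * B b| ≤ 1 := fun a b => by
    rw [abs_mul]; exact mul_le_one₀ (hb a) (abs_nonneg _) (hb b)
  let L := m.comp (ContinuousLinearMap.mul ℝ (ℝ →ᵇ ℝ) B)
  refine ⟨fun s => hm.abs_le fun t => hbb _ _, L.uniformContinuous.comp (uc_sh hB), ?_, ?_⟩
  · intro η hη
    obtain ⟨Λ, hΛ, h⟩ := hL η hη
    refine ⟨Λ, hΛ, fun y => ?_⟩
    have e := L.intervalIntegral_comp_comm (μ := volume)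
      ((uc_sh hB).continuous.intervalIntegrable y (y + Λ))
    have e' : ∫ s in y..y + Λ, m (B * sh s B) = m (B * ∫ s in y..y + Λ, sh s B) := e
    rw [e']
    rw [← hm.shift y] at h
    have key : ∀ t, |(B * ∫ s in y..y + Λ, sh s B) t| ≤ sh y |∫ s in (0 : ℝ)..Λ, sh s B| t := by
      intro t
      simp only [coe_mul, Pi.mul_apply, sh_apply, coe_abs, Pi.abs_apply, ii_sh_apply hB]
      rw [abs_mul]
      refine (mul_le_of_le_one_left (abs_nonneg _) (hb t)).trans (le_of_eq ?_)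
      simp_rw [add_assoc t y]
      rw [intervalIntegral.integral_comp_add_left (fun s => B (t + s)), add_zero]
    refine _root_.abs_le.2 ⟨?_, (hm.mono fun t => (le_abs_self _).trans (key t)).trans h⟩
    have := hm.mono (f := -(B * ∫ s in y..y + Λ, sh s B)) fun t => (neg_le_abs _).trans (key t)
    rw [map_neg] at this
    linarith
  · intro n s l
    set S := ∑ i ∈ Finset.range n, sh (s i) B with hS
    have h0 := hm.mono (f := (2 * l * n) • (B * S)) (g := (l ^ 2 * n ^ 2) • (B * B) + S * S)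
      fun t => by
        simp only [coe_smul, coe_mul, coe_add, Pi.add_apply, Pi.mul_apply, smul_eq_mul]
        nlinarith [sq_nonneg (l * n * B t - S t)]
    rw [map_add, map_smul, map_smul, hm.sq_sum, Finset.mul_sum, map_sum] at h0
    have h1 := (_root_.abs_le.1 (hm.abs_le (f := B * B) fun t => hbb _ _)).2
    simp only [smul_eq_mul] at h0
    nlinarith [mul_le_mul_of_nonneg_left h1 (show 0 ≤ l ^ 2 * n ^ 2 by positivity)]

lemma IsMean.piece (hm : IsMean U m) {B D : ℝ →ᵇ ℝ} (hb : ∀ t, |B t| ≤ 1) {μ ε τ : ℝ}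
    (hD : ∀ t, |D t| ≤ μ) (hε : 0 < ε) {J : ℕ} (hJ : 16 ≤ J * ε ^ 2)
    (hr : ∀ j < J, m |sh (j * τ) D - D| ≤ ε * μ)
    (hψ : psiJ (fun s => m (B * sh s B)) J (-τ) ≤ 16 * J) : m (B * D) ≤ 2 * ε * μ := by
  have hμ : 0 ≤ μ := (abs_nonneg _).trans (hD 0)
  have hJ0 : (0 : ℝ) < J := by
    by_contra h
    nlinarith [sq_nonneg ε, (Nat.cast_nonneg J : (0 : ℝ) ≤ J)]
  set S := ∑ i ∈ Finset.range J, sh (i * -τ) B with hS
  have h1 : ∀ j ∈ Finset.range J, m (B * D) - ε * μ ≤ m (sh (j * -τ) B * D) := by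
    intro j hj
    rw [← hm.shift (j * τ) (sh (j * -τ) B * D)]
    have := hm.mono (f := B * D - sh (j * τ) (sh (j * -τ) B * D)) (g := |sh (j * τ) D - D|)
      fun t => by
        simp only [coe_sub, coe_mul, Pi.sub_apply, Pi.mul_apply, sh_apply, coe_abs, Pi.abs_apply]
        rw [show t + j * τ + j * -τ = t by ring, ← mul_sub]
        refine (le_abs_self _).trans ?_
        rw [abs_mul, abs_sub_comm]
        exact mul_le_of_le_one_left (abs_nonneg _) (hb t)
    rw [map_sub] at this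
    linarith [hr j (Finset.mem_range.1 hj)]
  have h2 := Finset.card_nsmul_le_sum _ _ _ h1
  rw [← map_sum, ← Finset.sum_mul, Finset.card_range, nsmul_eq_mul, ← hS] at h2
  have h3 := hm.mono (f := (2 * ε * J) • (S * D))
    (g := const ℝ (μ * (ε * J) ^ 2) + μ • (S * S)) fun t => by
      simp only [coe_smul, coe_mul, coe_add, Pi.add_apply, Pi.mul_apply, smul_eq_mul, const_apply]
      have a1 : S t * D t ≤ |S t| * μ :=
        (le_abs_self _).trans (by rw [abs_mul]; exact mul_le_mul_of_nonneg_left (hD t) (abs_nonneg _))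
      have a2 : 2 * ε * J * |S t| ≤ (ε * J) ^ 2 + S t * S t := by
        nlinarith [sq_nonneg (ε * J - |S t|), abs_mul_abs_self (S t)]
      nlinarith [mul_le_mul_of_nonneg_left a1 (show 0 ≤ 2 * ε * J by positivity),
        mul_le_mul_of_nonneg_left a2 hμ]
  have h4 := (_root_.abs_le.1 (hm.abs_le (f := const ℝ (μ * (ε * J) ^ 2)) (M := μ * (ε * J) ^ 2)
    fun t => by rw [const_apply, abs_of_nonneg (by positivity)])).2
  rw [map_add, map_smul, map_smul, hm.sq_sum] at h3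
  simp only [smul_eq_mul] at h3
  have h5 := mul_le_mul_of_nonneg_left hψ hμ
  unfold psiJ at h5
  have h6 := mul_le_mul_of_nonneg_left h2 (show 0 ≤ 2 * ε * J by positivity)
  have h7 := mul_le_mul_of_nonneg_left hJ (show 0 ≤ μ * J by positivity)
  have : ε * J ^ 2 * m (B * D) ≤ ε * J ^ 2 * (2 * ε * μ) := by nlinarith
  exact le_of_mul_le_mul_left this (by positivity)

end Pool.Agent.MP_d0b2d2_an
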