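import Pool.Agent.MP_d0b2d2_an.Lift

open MeasureTheory Set Filter Topology ENNReal

namespace Pool.Agent.MP_d0b2d2_an

def sq : Set (ℝ × ℝ) := Ioc (0 : ℝ) (0 + 1) ×ˢ Ioc (0 : ℝ) (0 + 1)

lemma measurableSet_sq : MeasurableSet sq := measurableSet_Ioc.prod measurableSet_Ioc

lemma measurePreserving_proj : MeasurePreserving proj (volume.restrict sq) volume := by
  have h := (UnitAddCircle.measurePreserving_mk 0).prod (UnitAddCircle.measurePreserving_mk 0)
  rw [Measure.prod_restrict] at h
  exact h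

noncomputable def rep (z : Tor) : ℝ × ℝ :=
  ((AddCircle.equivIoc 1 0 z.1 : ℝ), (AddCircle.equivIoc 1 0 z.2 : ℝ))

lemma measurable_rep : Measurable rep := by
  have h : Measurable fun a : UnitAddCircle => (AddCircle.equivIoc 1 0 a : ℝ) :=
    measurable_subtype_coe.comp (AddCircle.measurableEquivIoc 1 0).measurable
  exact (h.comp measurable_fst).prodMk (h.comp measurable_snd)

lemma proj_rep (z : Tor) : proj (rep z) = z := by
  have h : ∀ a : UnitAddCircle, ((AddCircle.equivIoc 1 0 a : ℝ) : UnitAddCircle) = a := fun a =>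
    (AddCircle.equivIoc 1 0).symm_apply_apply a
  exact Prod.ext (h _) (h _)

lemma rep_proj {y : ℝ × ℝ} (hy : y ∈ sq) : rep (proj y) = y := by
  refine Prod.ext ?_ ?_
  · exact congrArg Subtype.val (AddCircle.equivIoc_coe_eq hy.1)
  · exact congrArg Subtype.val (AddCircle.equivIoc_coe_eq hy.2)

lemma ae_rep {q : ℝ × ℝ → Prop} (h : ∀ᵐ y, q y) : ∀ᵐ z, q (rep z) := by
  obtain ⟨N, hsub, hN, hN0⟩ := exists_measurable_superset_of_null (ae_iff.1 h)
  rw [ae_iff]
  refine measure_mono_null (t := rep ⁻¹' N) (fun z hz => hsub hz) ?_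
  rw [← measurePreserving_proj.measure_preimage (measurable_rep hN).nullMeasurableSet,
    Measure.restrict_apply' measurableSet_sq]
  refine measure_mono_null ?_ hN0
  rintro y ⟨hy, hy'⟩
  simpa [rep_proj hy'] using hy

lemma ae_tor {p : Tor → Prop} (h : ∀ᵐ y, p (proj y)) : ∀ᵐ z, p z := by
  filter_upwards [ae_rep h] with z hz
  rwa [proj_rep] at hz

instance : IsProbabilityMeasure (volume : Measure Tor) := by
  constructor
  rw [← univ_prod_univ, Measure.volume_eq_prod, Measure.prod_prod]
  simp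

instance : (volume : Measure Tor).IsAddHaarMeasure := by
  rw [Measure.volume_eq_prod]; infer_instance

instance : (volume : Measure Tor).IsAddRightInvariant := by
  rw [Measure.volume_eq_prod]; infer_instance

lemma lintegral_unfold {F : ℝ × ℝ → ℝ≥0∞} (hF : Measurable F) :
    ∫⁻ y, F y = ∫⁻ y in sq, ∑' k : ℤ × ℤ, F (y + ((k.1 : ℝ), (k.2 : ℝ))) := by
  let S : ℤ × ℤ → Set (ℝ × ℝ) := fun k => Ioc (k.1 : ℝ) (k.1 + 1) ×ˢ Ioc (k.2 : ℝ) (k.2 + 1)
  have hSm : ∀ k, MeasurableSet (S k) := fun k => measurableSet_Ioc.prod measurableSet_Ioc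
  have hU : ⋃ k, S k = univ := by
    rw [eq_univ_iff_forall]
    intro y
    refine mem_iUnion.2 ⟨(⌈y.1⌉ - 1, ⌈y.2⌉ - 1), ?_, ?_⟩ <;> push_cast
    · exact ⟨by linarith [Int.ceil_lt_add_one y.1], by linarith [Int.le_ceil y.1]⟩
    · exact ⟨by linarith [Int.ceil_lt_add_one y.2], by linarith [Int.le_ceil y.2]⟩
  have aux : ∀ (a b : ℤ) (x : ℝ), x ∈ Ioc (a : ℝ) (a + 1) → x ∈ Ioc (b : ℝ) (b + 1) → a = b := by
    intro a b x h1 h2
    have e1 : (a : ℝ) < b + 1 := by linarith [h1.1, h2.2]
    have e2 : (b : ℝ) < a + 1 := by linarith [h2.1, h1.2]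
    have e1' : a < b + 1 := by exact_mod_cast e1
    have e2' : b < a + 1 := by exact_mod_cast e2
    omega
  have hD : Pairwise (Function.onFun Disjoint S) := by
    intro k l hkl
    rw [Function.onFun, Set.disjoint_left]
    intro y h1 h2
    exact hkl (Prod.ext (aux _ _ _ h1.1 h2.1) (aux _ _ _ h1.2 h2.2))
  rw [lintegral_tsum (f := fun (k : ℤ × ℤ) y => F (y + ((k.1 : ℝ), (k.2 : ℝ))))
    (fun k => (hF.comp (measurable_add_const _)).aemeasurable),
    ← setLIntegral_univ, ← hU, lintegral_iUnion hSm hD]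
  congr 1
  funext k
  rw [← (measurePreserving_add_right volume ((k.1 : ℝ), (k.2 : ℝ))).setLIntegral_comp_preimage
    (hSm k) hF]
  congr 2
  ext y
  simp only [S, sq, mem_preimage, mem_prod, Prod.fst_add, Prod.snd_add, mem_Ioc]
  constructor
  · rintro ⟨⟨h1, h2⟩, h3, h4⟩; exact ⟨⟨by linarith, by linarith⟩, by linarith, by linarith⟩
  · rintro ⟨⟨h1, h2⟩, h3, h4⟩; exact ⟨⟨by linarith, by linarith⟩, by linarith, by linarith⟩

lemma volume_image_proj_le {A : Set (ℝ × ℝ)} (hA : IsOpen A) : volume (proj '' A) ≤ volume A := by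
  have hm : MeasurableSet (proj '' A) := (isOpenMap_proj A hA).measurableSet
  rw [← lintegral_indicator_one hm, ← lintegral_indicator_one hA.measurableSet,
    lintegral_unfold (measurable_one.indicator hA.measurableSet),
    ← measurePreserving_proj.lintegral_comp (measurable_one.indicator hm)]
  refine lintegral_mono fun y => ?_
  by_cases hy : proj y ∈ proj '' A
  · obtain ⟨a, ha, e⟩ := hy
    obtain ⟨k, l, rfl⟩ := (proj_eq_iff a y).1 e
    refine le_trans ?_ (ENNReal.le_tsum (k, l))
    rw [indicator_of_mem ha]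
    exact indicator_le_self' (fun _ _ => zero_le) _
  · simp [indicator_of_notMem hy]

lemma volume_bad_le {P : Set Tor} (hP : P.Finite) {B : Set (ℝ × ℝ)} (hB : IsOpen B) :
    volume {z : Tor | ∃ c ∈ B, z + proj c ∈ P} ≤ P.ncard * volume B := by
  have : {z : Tor | ∃ c ∈ B, z + proj c ∈ P} ⊆
      ⋃ q ∈ hP.toFinset, proj '' ((fun y => rep q - y) ⁻¹' B) := by
    rintro z ⟨c, hc, hq⟩
    refine mem_biUnion (x := z + proj c) (by simpa using hq) ⟨rep (z + proj c) - c, by simpa, ?_⟩
    rw [proj_sub, proj_rep]; abel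
  refine (measure_mono this).trans ((measure_biUnion_finset_le _ _).trans ?_)
  rw [ncard_eq_toFinset_card P hP, ← nsmul_eq_mul, ← Finset.sum_const]
  refine Finset.sum_le_sum fun q _ => ?_
  refine (volume_image_proj_le (hB.preimage (by fun_prop))).trans (le_of_eq ?_)
  exact (Measure.measurePreserving_sub_left volume (rep q)).measure_preimage
    hB.measurableSet.nullMeasurableSet

variable {X : Type} [TopologicalSpace X] [CompactSpace X] {π : X → Tor} {P : Set Tor}

lemma exists_base (H : IsTorusCover π P) : ∃ o : ℝ × ℝ, proj o ∉ P := by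
  obtain ⟨x, hx⟩ := H.conn.nonempty
  obtain ⟨o, ho⟩ := proj_surj (π x)
  exact ⟨o, ho ▸ hx⟩

noncomputable def base (H : IsTorusCover π P) : ℝ × ℝ := (exists_base H).choose

lemma base_notMem (H : IsTorusCover π P) : proj (base H) ∉ P := (exists_base H).choose_spec

noncomputable def fib (H : IsTorusCover π P) (z : Tor) : Finset X := (finite_fiber H z).toFinset

lemma mem_fib (H : IsTorusCover π P) {z : Tor} {x : X} : x ∈ fib H z ↔ π x = z := by
  simp [fib]

/-- the degree -/
noncomputable def deg (H : IsTorusCover π P) : ℕ := (fib H (proj (base H))).card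

lemma card_fib (H : IsTorusCover π P) {z : Tor} (hz : z ∉ P) : (fib H z).card = deg H := by
  unfold deg fib
  rw [← ncard_eq_toFinset_card _ (finite_fiber H _), ← ncard_eq_toFinset_card _ (finite_fiber H _)]
  exact ncard_fiber_eq H hz (base_notMem H)

lemma deg_pos (H : IsTorusCover π P) : 0 < deg H := by
  obtain ⟨x, hx⟩ := H.conn.nonempty
  rw [← card_fib H hx]
  exact Finset.card_pos.2 ⟨x, (mem_fib H).2 rfl⟩

lemma sum_fib_mv (H : IsTorusCover π P) {M : Type} [AddCommMonoid M] (f : X → M) {z : Tor}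
    {u : ℝ × ℝ} (h : Ok P z u) : ∑ x ∈ fib H z, f (mv H x u) = ∑ x ∈ fib H (z + proj u), f x := by
  have hb := mv_bijOn H h
  refine Finset.sum_nbij (fun x => mv H x u) ?_ ?_ ?_ (fun _ _ => rfl)
  · intro x hx
    exact (mem_fib H).2 (hb.mapsTo ((mem_fib H).1 hx))
  · simpa [fib] using hb.injOn
  · simpa [fib] using hb.surjOn

noncomputable def sec (H : IsTorusCover π P) (x : X) (z : Tor) : X := mv H x (rep z - base H)

lemma ae_sec (H : IsTorusCover π P) : ∀ᵐ z, Ok P (proj (base H)) (rep z - base H) :=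
  ae_rep (q := fun y => Ok P (proj (base H)) (y - base H))
    ((measurePreserving_sub_right volume (base H)).quasiMeasurePreserving.ae
      (ae_ok_vec H.finP (base_notMem H)))

lemma ae_sum_sec (H : IsTorusCover π P) {M : Type} [AddCommMonoid M] (f : X → M) :
    ∀ᵐ z, ∑ x ∈ fib H (proj (base H)), f (sec H x z) = ∑ x ∈ fib H z, f x := by
  filter_upwards [ae_sec H] with z hz
  have := sum_fib_mv H f hz
  rw [proj_sub, proj_rep, add_sub_cancel] at this
  exact this

variable [MeasurableSpace X] [BorelSpace X] [SecondCountableTopology X]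

lemma measurable_mv_left (H : IsTorusCover π P) (u : ℝ × ℝ) : Measurable fun x => mv H x u :=
  (measurable_mv H).comp (f := fun x => (x, u)) (by fun_prop)

lemma measurable_mv_right (H : IsTorusCover π P) (x : X) : Measurable fun u => mv H x u :=
  (measurable_mv H).comp (f := fun u => (x, u)) (by fun_prop)

lemma measurable_mv₂ (H : IsTorusCover π P) {A : Type} [MeasurableSpace A] {f : A → X}
    {g : A → ℝ × ℝ} (hf : Measurable f) (hg : Measurable g) : Measurable fun a => mv H (f a) (g a) :=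
  (measurable_mv H).comp (hf.prodMk hg)

lemma measurable_sec (H : IsTorusCover π P) (x : X) : Measurable (sec H x) :=
  (measurable_mv_right H x).comp (measurable_rep.sub_const _)

/-- the area measure -/
noncomputable def lam (H : IsTorusCover π P) : Measure X :=
  ∑ x ∈ fib H (proj (base H)), Measure.map (sec H x) volume

lemma aemeasurable_fs (H : IsTorusCover π P) {f : X → ℝ≥0∞} (hf : Measurable f) :
    AEMeasurable (fun z => ∑ x ∈ fib H z, f x) :=
  (Finset.measurable_sum _ (fun x _ => hf.comp (measurable_sec H x))).aemeasurable.congr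
    (ae_sum_sec H f)

lemma aemeasurable_fs_real (H : IsTorusCover π P) {f : X → ℝ} (hf : Measurable f) :
    AEMeasurable (fun z => ∑ x ∈ fib H z, f x) :=
  (Finset.measurable_sum _ (fun x _ => hf.comp (measurable_sec H x))).aemeasurable.congr
    (ae_sum_sec H f)

lemma lintegral_lam (H : IsTorusCover π P) {f : X → ℝ≥0∞} (hf : Measurable f) :
    ∫⁻ x, f x ∂lam H = ∫⁻ z, ∑ x ∈ fib H z, f x := by
  rw [lam, lintegral_finset_sum_measure, ← lintegral_congr_ae (ae_sum_sec H f),
    lintegral_finset_sum (f := fun x z => f (sec H x z)) _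
      (fun x _ => hf.comp (measurable_sec H x))]
  refine Finset.sum_congr rfl fun x _ => ?_
  rw [lintegral_map hf (measurable_sec H x)]

lemma ae_notMem_P (hP : P.Finite) : ∀ᵐ z : Tor, z ∉ P := by
  refine ae_tor ?_
  filter_upwards [ae_line_avoid hP 0] with y hy
  simpa [proj_zero] using hy 0

lemma lam_preimage (H : IsTorusCover π P) {s : Set Tor} (hs : MeasurableSet s) :
    lam H (π ⁻¹' s) = deg H * volume s := by
  rw [← lintegral_indicator_one (H.cont.measurable hs),
    lintegral_lam H (measurable_one.indicator (H.cont.measurable hs)),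
    ← lintegral_indicator_one hs, ← lintegral_const_mul _ (measurable_one.indicator hs)]
  refine lintegral_congr_ae ?_
  filter_upwards [ae_notMem_P H.finP] with z hz
  rw [← card_fib H hz, ← nsmul_eq_mul, ← Finset.sum_const]
  refine Finset.sum_congr rfl fun x hx => ?_
  rw [← (mem_fib H).1 hx]
  rfl

lemma lam_univ (H : IsTorusCover π P) : lam H univ = deg H := by
  have := lam_preimage H MeasurableSet.univ
  simpa using this

instance (H : IsTorusCover π P) : IsFiniteMeasure (lam H) :=
  ⟨by rw [lam_univ]; exact ENNReal.natCast_lt_top _⟩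

lemma lam_real_univ (H : IsTorusCover π P) : (lam H).real univ = deg H := by
  simp [Measure.real, lam_univ]

lemma ae_lam (H : IsTorusCover π P) {p : Tor → Prop} (h : ∀ᵐ z, p z) : ∀ᵐ x ∂lam H, p (π x) := by
  obtain ⟨N, hsub, hN, hN0⟩ := exists_measurable_superset_of_null (ae_iff.1 h)
  rw [ae_iff]
  refine measure_mono_null (t := π ⁻¹' N) (fun z hz => hsub hz) ?_
  rw [lam_preimage H hN, hN0, mul_zero]

lemma ae_line (hP : P.Finite) (w : ℝ × ℝ) : ∀ᵐ z : Tor, ∀ t : ℝ, z + proj (t • w) ∉ P :=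
  ae_tor (ae_line_avoid hP w)

lemma ae_ok (hP : P.Finite) (u : ℝ × ℝ) : ∀ᵐ z : Tor, Ok P z u := by
  filter_upwards [ae_line hP u] with z hz s _ using hz s

lemma measurePreserving_mv (H : IsTorusCover π P) (u : ℝ × ℝ) :
    MeasurePreserving (fun x => mv H x u) (lam H) (lam H) := by
  refine ⟨measurable_mv_left H u, ?_⟩
  ext s hs
  have hm := measurable_mv_left H u
  rw [Measure.map_apply hm hs, ← lintegral_indicator_one (hm hs), ← lintegral_indicator_one hs,
    lintegral_lam H (measurable_one.indicator (hm hs)),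
    lintegral_lam H (measurable_one.indicator hs),
    ← lintegral_add_right_eq_self (fun z => ∑ x ∈ fib H z, s.indicator 1 x) (proj u)]
  refine lintegral_congr_ae ?_
  filter_upwards [ae_ok H.finP u] with z hz
  rw [← sum_fib_mv H _ hz]
  rfl

lemma integral_lam (H : IsTorusCover π P) {f : X → ℝ} (hf : Measurable f) {M : ℝ}
    (hM : ∀ x, |f x| ≤ M) : ∫ x, f x ∂lam H = ∫ z, ∑ x ∈ fib H z, f x := by
  have hi : ∀ x, Integrable f (Measure.map (sec H x) volume) := fun x => by
    haveI : IsProbabilityMeasure (Measure.map (sec H x) (volume : Measure Tor)) :=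
      Measure.isProbabilityMeasure_map (measurable_sec H x).aemeasurable
    exact Integrable.of_bound hf.aestronglyMeasurable M (ae_of_all _ hM)
  rw [lam, integral_finset_sum_measure (fun x _ => hi x),
    ← integral_congr_ae (ae_sum_sec H f), integral_finset_sum]
  · refine Finset.sum_congr rfl fun x _ => ?_
    rw [integral_map (measurable_sec H x).aemeasurable hf.aestronglyMeasurable]
  · intro x _
    exact Integrable.of_bound (hf.comp (measurable_sec H x)).aestronglyMeasurable M
      (ae_of_all _ fun z => hM _)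

/-- disjoint lifted pieces carry at most the total integral -/
lemma sum_lintegral_mv_le (H : IsTorusCover π P) {ι : Type} (I : Finset ι) (x : ι → X)
    {C : Set (ℝ × ℝ)} (hC : MeasurableSet C) (hok : ∀ k ∈ I, ∀ c ∈ C, Ok P (π (x k)) c)
    (hinj : ∀ k ∈ I, ∀ l ∈ I, ∀ c ∈ C, ∀ c' ∈ C, mv H (x k) c = mv H (x l) c' → k = l ∧ c = c')
    {f : X → ℝ≥0∞} (hf : Measurable f) :
    ∑ k ∈ I, ∫⁻ c in C, f (mv H (x k) c) ≤ ∫⁻ x, f x ∂lam H := by
  let F : ι → ℝ × ℝ → ℝ≥0∞ := fun k y =>
    C.indicator (fun c => f (mv H (x k) c)) (y - rep (π (x k)))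
  have hF : ∀ k, Measurable (F k) := fun k =>
    ((hf.comp (measurable_mv_right H (x k))).indicator hC).comp (measurable_id.sub_const _)
  have e1 : ∀ k, ∫⁻ c in C, f (mv H (x k) c) =
      ∫⁻ y in sq, ∑' j : ℤ × ℤ, F k (y + ((j.1 : ℝ), (j.2 : ℝ))) := fun k => by
    rw [← lintegral_unfold (hF k), ← lintegral_indicator hC]
    exact (lintegral_sub_right_eq_self _ _).symm
  simp_rw [e1]
  rw [← lintegral_finset_sum (f := fun k y => ∑' j : ℤ × ℤ, F k (y + ((j.1 : ℝ), (j.2 : ℝ)))) _
    (fun k _ => Measurable.ennreal_tsum fun j =>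
    (hF k).comp (measurable_add_const _)), lintegral_lam H hf,
    ← measurePreserving_proj.map_eq, lintegral_map'
      (by rw [measurePreserving_proj.map_eq]; exact aemeasurable_fs H hf)
      continuous_proj.measurable.aemeasurable]
  refine lintegral_mono fun y => ?_
  let A : Set (I × (ℤ × ℤ)) :=
    {a | y + ((a.2.1 : ℝ), (a.2.2 : ℝ)) - rep (π (x a.1)) ∈ C}
  let φ : A → fib H (proj y) := fun a =>
    ⟨mv H (x a.1.1) (y + ((a.1.2.1 : ℝ), (a.1.2.2 : ℝ)) - rep (π (x a.1.1))), by
      rw [mem_fib, mv_proj H (hok _ a.1.1.2 _ a.2), proj_sub, proj_add, proj_rep, proj_int]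
      abel⟩
  have hφ : Function.Injective φ := by
    intro a b hab
    obtain ⟨h1, h2⟩ := hinj _ a.1.1.2 _ b.1.1.2 _ a.2 _ b.2 (congrArg Subtype.val hab)
    rw [h1] at h2
    have h3 := add_left_cancel (sub_left_injective h2)
    have h4 : ((a.1.2.1 : ℤ) : ℝ) = b.1.2.1 := congrArg Prod.fst h3
    have h5 : ((a.1.2.2 : ℤ) : ℝ) = b.1.2.2 := congrArg Prod.snd h3
    exact Subtype.ext (Prod.ext (Subtype.ext h1) (Prod.ext (by exact_mod_cast h4)
      (by exact_mod_cast h5)))
  have := ENNReal.tsum_comp_le_tsum_of_injective hφ (fun x => f x)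
  rw [Finset.tsum_subtype (fib H (proj y)) f] at this
  refine le_trans (le_of_eq ?_) this
  rw [← Finset.tsum_subtype I (fun k => ∑' j : ℤ × ℤ, F k (y + ((j.1 : ℝ), (j.2 : ℝ)))),
    ← ENNReal.tsum_prod (f := fun (k : I) (j : ℤ × ℤ) => F k (y + ((j.1 : ℝ), (j.2 : ℝ)))),
    tsum_subtype A (fun a => f (mv H (x a.1) (y + ((a.2.1 : ℝ), (a.2.2 : ℝ)) - rep (π (x a.1)))))]
  congr 1

end Pool.Agent.MP_d0b2d2_an
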