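import Pool.Agent.MP_d0b2d2_an.Push

open MeasureTheory Set Filter Topology ENNReal Metric

namespace Pool.Agent.MP_d0b2d2_an

lemma integrable_bdd {A : Type} [MeasurableSpace A] {μ : Measure A} [IsFiniteMeasure μ]
    {f : A → ℝ} (hf : Measurable f) {M : ℝ} (hM : ∀ x, |f x| ≤ M) : Integrable f μ :=
  Integrable.of_bound hf.aestronglyMeasurable M (ae_of_all _ hM)

instance (r : ℝ) : IsFiniteMeasure ((volume : Measure (ℝ × ℝ)).restrict (ball 0 r)) :=
  isFiniteMeasure_restrict.2 measure_ball_lt_top.ne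

lemma abs_sub_le_two {f : ℝ} {g M : ℝ} (hf : |f| ≤ M) (hg : |g| ≤ M) : |(|f - g|)| ≤ 2 * M := by
  rw [abs_abs]; linarith [abs_sub f g]

variable {X : Type} [TopologicalSpace X] {π : X → Tor} {P : Set Tor}
  {G : (ℝ × ℝ) ≃L[ℝ] (ℝ × ℝ)} {ρ : ℝ}

lemma Good.shift {z : Tor} (h : Good P G ρ z) {c : ℝ × ℝ} {ρ' : ℝ} (hc : ‖c‖ + ρ' ≤ ρ) :
    Good P G ρ' (z + proj (G c)) := by
  intro c' hc'
  rw [add_assoc, ← proj_add, ← map_add]
  exact h _ (by linarith [norm_add_le c c'])

lemma Good.mono {z : Tor} (h : Good P G ρ z) {ρ' : ℝ} (hc : ρ' ≤ ρ) : Good P G ρ' z :=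
  fun c hc' => h c (hc'.trans_le hc)

variable [CompactSpace X] [MeasurableSpace X] [BorelSpace X] [SecondCountableTopology X]

lemma sum_piece_le (H : IsTorusCover π P) (hG : MeasurePreserving G volume volume) {r : ℝ}
    {ι : Type} (I : Finset ι) (x : ι → X) (hok : ∀ k ∈ I, Good P G r (π (x k)))
    (hinj : ∀ k ∈ I, ∀ l ∈ I, ∀ c, ‖c‖ < r → ∀ c', ‖c'‖ < r →
      mv H (x k) (G c) = mv H (x l) (G c') → k = l ∧ c = c')
    {φ : X → ℝ} (hφ : Measurable φ) (h0 : ∀ x, 0 ≤ φ x) {M : ℝ} (hM : ∀ x, |φ x| ≤ M) :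
    ∑ k ∈ I, ∫ c in ball 0 r, φ (mv H (x k) (G c)) ≤ ∫ x, φ x ∂lam H := by
  have hC : MeasurableSet (G '' ball 0 r) := (G.isOpenMap _ isOpen_ball).measurableSet
  have h1 := sum_lintegral_mv_le H I x hC
    (by rintro k hk _ ⟨c, hc, rfl⟩; exact (hok k hk).ok (by simpa using hc))
    (by
      rintro k hk l hl _ ⟨c, hc, rfl⟩ _ ⟨c', hc', rfl⟩ e
      obtain ⟨e1, e2⟩ := hinj k hk l hl c (by simpa using hc) c' (by simpa using hc') e
      exact ⟨e1, by rw [e2]⟩) (f := fun x => ENNReal.ofReal (φ x)) hφ.ennreal_ofReal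
  have hm : ∀ k, Measurable fun c => φ (mv H (x k) (G c)) := fun k =>
    hφ.comp ((measurable_mv_right H (x k)).comp G.continuous.measurable)
  have h2 : ∀ k, ∫⁻ c in G '' ball 0 r, ENNReal.ofReal (φ (mv H (x k) c)) =
      ENNReal.ofReal (∫ c in ball 0 r, φ (mv H (x k) (G c))) := by
    intro k
    rw [← hG.setLIntegral_comp_preimage hC (f := fun c => ENNReal.ofReal (φ (mv H (x k) c)))
      (hφ.ennreal_ofReal.comp (measurable_mv_right H (x k))),
      preimage_image_eq _ G.injective, ofReal_integral_eq_lintegral_ofReal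
        (integrable_bdd (hm k) fun c => hM _) (ae_of_all _ fun c => h0 _)]
  simp_rw [h2] at h1
  rw [← ofReal_integral_eq_lintegral_ofReal (integrable_bdd hφ hM) (ae_of_all _ h0),
    ← ENNReal.ofReal_sum_of_nonneg (fun k _ => integral_nonneg fun c => h0 _),
    ENNReal.ofReal_le_ofReal_iff (integral_nonneg h0)] at h1
  exact h1

lemma piece_le (H : IsTorusCover π P) (hG : MeasurePreserving G volume volume) {r : ℝ}
    (hs : Sep P G (2 * r)) {x : X} (hx : Good P G r (π x))
    {φ : X → ℝ} (hφ : Measurable φ) (h0 : ∀ x, 0 ≤ φ x) {M : ℝ} (hM : ∀ x, |φ x| ≤ M) :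
    ∫ c in ball 0 r, φ (mv H x (G c)) ≤ ∫ x, φ x ∂lam H := by
  have := sum_piece_le H hG (r := r) ({()} : Finset Unit) (fun _ => x) (fun _ _ => hx) ?_ hφ h0 hM
  · simpa using this
  · intro _ _ _ _ c hc c' hc' e
    refine ⟨rfl, ?_⟩
    have e2 := congrArg π e
    rw [mv_proj H (hx.ok hc), mv_proj H (hx.ok hc')] at e2
    rcases hs (c - c') (Or.inl (by rw [map_sub, proj_sub, add_left_cancel e2, sub_self])) with h | h
    · exact sub_eq_zero.1 h
    · linarith [norm_sub_le c c']

/-- the local mean -/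
noncomputable def lm (H : IsTorusCover π P) (G : (ℝ × ℝ) ≃L[ℝ] (ℝ × ℝ)) (r : ℝ) (f : X → ℝ)
    (x : X) : ℝ := ∫ c in ball 0 r, f (mv H x (G c))

/-- the `L¹` displacement -/
noncomputable def Gam (H : IsTorusCover π P) (f : X → ℝ) (u : ℝ × ℝ) : ℝ :=
  ∫ x, |f x - f (mv H x u)| ∂lam H

lemma measurable_disp (H : IsTorusCover π P) {f : X → ℝ} (hf : Measurable f) (u : ℝ × ℝ) :
    Measurable fun x => |f x - f (mv H x u)| :=
  (hf.sub (hf.comp (measurable_mv_left H u))).abs

lemma lm_step (H : IsTorusCover π P) (hG : MeasurePreserving G volume volume) {r : ℝ} (hr : 0 < r)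
    (hs : Sep P G (2 * r)) {f : X → ℝ} (hf : Measurable f) {M : ℝ} (hM : ∀ x, |f x| ≤ M)
    {x : X} {c₀ : ℝ × ℝ} (hx : Good P G (‖c₀‖ + r) (π x)) :
    |lm H G r f x - lm H G r f (mv H x (G c₀))| ≤ Gam H f (G c₀) := by
  have hm : ∀ y, Measurable fun c => f (mv H y (G c)) := fun y =>
    hf.comp ((measurable_mv_right H y).comp G.continuous.measurable)
  unfold lm
  rw [← integral_sub (integrable_bdd (hm _) fun c => hM _) (integrable_bdd (hm _) fun c => hM _)]
  refine (abs_integral_le_integral_abs).trans ?_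
  refine le_trans (le_of_eq ?_) (piece_le H hG hs (hx.mono (by linarith [norm_nonneg c₀]))
    (measurable_disp H hf (G c₀)) (fun _ => abs_nonneg _) (fun x => abs_sub_le_two (hM _) (hM _)))
  refine setIntegral_congr_fun measurableSet_ball fun c hc => ?_
  have hc : ‖c‖ < r := by simpa using hc
  have h1 : ‖c₀ + c‖ < ‖c₀‖ + r := by linarith [norm_add_le c₀ c]
  beta_reduce
  rw [hx.cocycle H (by linarith) h1, hx.cocycle H (by linarith [norm_nonneg c₀])
    (by rw [add_comm c]; exact h1), add_comm c]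

lemma norm_fst0 (c : ℝ × ℝ) : ‖((c.1, 0) : ℝ × ℝ)‖ ≤ ‖c‖ := by
  rw [Prod.norm_def]; simpa using norm_fst_le c

lemma norm_snd0 (c : ℝ × ℝ) : ‖((0, c.2) : ℝ × ℝ)‖ ≤ ‖c‖ := by
  rw [Prod.norm_def]; simpa using norm_snd_le c

lemma lm_two (H : IsTorusCover π P) (hG : MeasurePreserving G volume volume) {r : ℝ} (hr : 0 < r)
    (hs : Sep P G (2 * r)) {f : X → ℝ} (hf : Measurable f) {M : ℝ} (hM : ∀ x, |f x| ≤ M)
    {κ : ℝ} (hΓ : ∀ c : ℝ × ℝ, ‖c‖ < 2 * r → c.1 = 0 ∨ c.2 = 0 → Gam H f (G c) ≤ κ)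
    {x : X} (hx : Good P G (5 * r) (π x)) {c : ℝ × ℝ} (hc : ‖c‖ < 2 * r) :
    |lm H G r f x - lm H G r f (mv H x (G c))| ≤ 2 * κ := by
  have n1 := norm_fst0 c
  have n2 := norm_snd0 c
  have h1 := lm_step H hG hr hs hf hM (c₀ := (c.1, 0)) (hx.mono (by linarith))
  have hy : Good P G (‖((0, c.2) : ℝ × ℝ)‖ + r) (π (mv H x (G (c.1, 0)))) := by
    rw [mv_proj H (hx.ok (by linarith))]
    exact hx.shift (by linarith)
  have h2 := lm_step H hG hr hs hf hM hy
  have e : ((c.1, 0) : ℝ × ℝ) + (0, c.2) = c := by simp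
  rw [hx.cocycle H (by linarith) (by rw [e]; linarith), e] at h2
  have := hΓ (c.1, 0) (by linarith) (Or.inr rfl)
  have := hΓ (0, c.2) (by linarith) (Or.inl rfl)
  linarith [abs_sub_le (lm H G r f x) (lm H G r f (mv H x (G (c.1, 0)))) (lm H G r f (mv H x (G c)))]

lemma lm_osc (H : IsTorusCover π P) (hG : MeasurePreserving G volume volume) {r : ℝ} (hr : 0 < r)
    (hs : Sep P G (20 * r)) {f : X → ℝ} (hf : Measurable f) {M : ℝ} (hM : ∀ x, |f x| ≤ M)
    {κ : ℝ} (hκ : 0 < κ) (hΓ : ∀ c : ℝ × ℝ, ‖c‖ < 2 * r → c.1 = 0 ∨ c.2 = 0 → Gam H f (G c) ≤ κ)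
    {N : ℕ} (hN : (deg H : ℝ) < N * (volume : Measure (ℝ × ℝ)).real (ball 0 r))
    {x x' : X} (hx : Good P G (5 * r) (π x)) (hx' : Good P G (5 * r) (π x')) :
    lm H G r f x' - lm H G r f x ≤ 6 * κ * (N + 1) := by
  by_contra hn
  push Not at hn
  have hs2 : Sep P G (2 * r) := hs.mono (by linarith)
  obtain ⟨push, hp, hp'⟩ := exists_push H (ρ := 5 * r) (hs.mono (by linarith)) (by linarith)
  have hnot : ∀ y, Good P G (5 * r) (π y) → π y ∉ P := fun y hy => by
    simpa [proj_zero] using hy 0 (by simpa using hr)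
  have hloc : ∀ y ∈ π ⁻¹' Pᶜ, ∀ᶠ y' in 𝓝 y,
      |lm H G r f (push y') - lm H G r f (push y)| ≤ 2 * κ := by
    intro y hy
    filter_upwards [(hp y hy).2.eventually ((hp y hy).1.nhds H (by linarith)
      (η := 2 * r) (by linarith))] with y' ⟨c, hc, e⟩
    rw [e, abs_sub_comm]
    exact lm_two H hG hr hs2 hf hM hΓ (hp y hy).1 hc
  have hex : ∀ k : ℕ, k < N → ∃ y, Good P G (5 * r) (π y) ∧
      lm H G r f x + 6 * κ * k + κ ≤ lm H G r f y ∧
      lm H G r f y ≤ lm H G r f x + 6 * κ * k + κ + 2 * κ := by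
    intro k hk
    have hk' : (k : ℝ) < N := by exact_mod_cast hk
    have hk0 : (0 : ℝ) ≤ k := Nat.cast_nonneg k
    obtain ⟨y, hy, h1, h2⟩ := discrete_ivt H.conn.isPreconnected
      (μ := fun y => lm H G r f (push y)) hloc (hnot x hx) (hnot x' hx')
      (u := lm H G r f x + 6 * κ * k + κ) (by rw [hp' x hx]; nlinarith)
      (by rw [hp' x' hx']; nlinarith) (by linarith)
    exact ⟨push y, (hp y hy).1, h1, h2⟩
  haveI : Nonempty X := ⟨x⟩
  choose! y hy h1 h2 using hex
  have := sum_piece_le H hG (r := r) (Finset.range N) y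
    (fun k hk => (hy k (Finset.mem_range.1 hk)).mono (by linarith)) ?_
    (φ := fun _ => (1 : ℝ)) measurable_const (fun _ => zero_le_one) (M := 1) (by simp)
  · simp only [integral_const, smul_eq_mul, mul_one, Finset.sum_const, Finset.card_range,
      nsmul_eq_mul, lam_real_univ, measureReal_restrict_apply_univ] at this
    linarith
  · intro k hk l hl c hc c' hc' e
    have hk := Finset.mem_range.1 hk
    have hl := Finset.mem_range.1 hl
    have hcc : ‖c + -c'‖ < 2 * r := by linarith [norm_add_le c (-c'), norm_neg c']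
    have e2 : mv H (y k) (G (c + -c')) = y l := by
      rw [← (hy k hk).cocycle H (by linarith) (by linarith), e,
        (hy l hl).cocycle H (by linarith) (by simp; linarith)]
      simp [mv_zero]
    have h3 := lm_two H hG hr hs2 hf hM hΓ (hy k hk) hcc
    rw [e2, abs_le] at h3
    have hkl : k = l := by
      by_contra hne
      rcases lt_or_gt_of_ne hne with h | h
      · have : (k : ℝ) + 1 ≤ l := by exact_mod_cast h
        nlinarith [h1 l hl, h2 k hk, h3.1]
      · have : (l : ℝ) + 1 ≤ k := by exact_mod_cast h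
        nlinarith [h1 k hk, h2 l hl, h3.2]
    subst hkl
    refine ⟨rfl, ?_⟩
    have e3 := congrArg π e
    rw [mv_proj H ((hy k hk).ok (by linarith)), mv_proj H ((hy k hk).ok (by linarith))] at e3
    rcases hs (c - c') (Or.inl (by rw [map_sub, proj_sub, add_left_cancel e3, sub_self])) with h | h
    · exact sub_eq_zero.1 h
    · linarith [norm_sub_le c c']

lemma isClosed_good (hP : P.Finite) (G : (ℝ × ℝ) ≃L[ℝ] (ℝ × ℝ)) (ρ : ℝ) :
    IsClosed {z | Good P G ρ z} := by
  have : {z | Good P G ρ z} = ⋂ q ∈ P, ((fun c => q + proj (G c)) '' ball 0 ρ)ᶜ := by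
    ext z
    simp only [Good, mem_setOf_eq, mem_iInter, mem_compl_iff, mem_image, not_exists, not_and,
      mem_ball, dist_zero_right]
    constructor
    · rintro h q hq c hc rfl
      refine h (-c) (by simpa) ?_
      rw [map_neg, proj_neg]; simpa using hq
    · intro h c hc hq
      refine h _ hq (-c) (by simpa) ?_
      rw [map_neg, proj_neg]; simp
  rw [this]
  exact isClosed_biInter fun q _ => (isOpenMap_chart G q _ isOpen_ball).isClosed_compl

lemma lam_bad_le (H : IsTorusCover π P) (hG : MeasurePreserving G volume volume) (ρ : ℝ) :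
    (lam H).real {x | Good P G ρ (π x)}ᶜ ≤
      deg H * (P.ncard * (volume : Measure (ℝ × ℝ)).real (ball 0 ρ)) := by
  have hC : IsOpen (G '' ball 0 ρ) := G.isOpenMap _ isOpen_ball
  have h1 := volume_bad_le H.finP hC
  rw [← hG.measure_preimage hC.measurableSet.nullMeasurableSet,
    preimage_image_eq _ G.injective] at h1
  have h2 := lam_preimage H (isClosed_good H.finP G ρ).measurableSet.compl
  have h3 : {z | Good P G ρ z}ᶜ = {z : Tor | ∃ c ∈ G '' ball 0 ρ, z + proj c ∈ P} := by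
    ext z
    simp only [Good, mem_compl_iff, mem_setOf_eq, not_forall, not_not, mem_image, mem_ball,
      dist_zero_right]
    constructor
    · rintro ⟨c, hc, h⟩; exact ⟨_, ⟨c, hc, rfl⟩, h⟩
    · rintro ⟨_, ⟨c, hc, rfl⟩, h⟩; exact ⟨c, hc, h⟩
  have h4 : lam H {x | Good P G ρ (π x)}ᶜ ≤ deg H * (P.ncard * volume (ball (0 : ℝ × ℝ) ρ)) := by
    refine le_trans (le_of_eq h2) ?_
    rw [h3]; gcongr
  have hb : volume (ball (0 : ℝ × ℝ) ρ) ≠ ⊤ := measure_ball_lt_top.ne
  have := ENNReal.toReal_mono (by finiteness) h4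
  simpa [Measure.real] using this

lemma int_good_le (H : IsTorusCover π P) {r : ℝ} (hr : 0 < r)
    {f : X → ℝ} (hf : Measurable f) {M : ℝ} (hM : ∀ x, |f x| ≤ M)
    {κ : ℝ} (hΓ : ∀ c : ℝ × ℝ, ‖c‖ < 2 * r → c.1 = 0 ∨ c.2 = 0 → Gam H f (G c) ≤ κ) :
    ∫ x in {x | Good P G (5 * r) (π x)},
      |(volume : Measure (ℝ × ℝ)).real (ball 0 r) * f x - lm H G r f x| ∂lam H ≤
      (volume : Measure (ℝ × ℝ)).real (ball 0 r) * (2 * κ) := by
  set S := {x | Good P G (5 * r) (π x)}
  have hS : MeasurableSet S := H.cont.measurable (isClosed_good H.finP G _).measurableSet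
  have hm2 : Measurable fun a : X × (ℝ × ℝ) => |f a.1 - f (mv H a.1 (G a.2))| :=
    ((hf.comp measurable_fst).sub (hf.comp (measurable_mv₂ H measurable_fst
      (G.continuous.measurable.comp measurable_snd)))).abs
  have hi : Integrable (Function.uncurry fun x c => |f x - f (mv H x (G c))|)
      (((lam H).restrict S).prod (volume.restrict (ball 0 r))) :=
    integrable_bdd hm2 fun a => abs_sub_le_two (hM _) (hM _)
  have hm : ∀ y, Measurable fun c => f (mv H y (G c)) := fun y =>
    hf.comp ((measurable_mv_right H y).comp G.continuous.measurable)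
  calc _ ≤ ∫ x in S, (∫ c in ball 0 r, |f x - f (mv H x (G c))|) ∂lam H := by
        refine integral_mono_of_nonneg (ae_of_all _ fun _ => abs_nonneg _) hi.integral_prod_left
          (ae_of_all _ fun x => ?_)
        refine le_trans (le_of_eq ?_) abs_integral_le_integral_abs
        rw [integral_sub (integrable_const _) (integrable_bdd (hm _) fun c => hM _)]
        simp [lm]
    _ = ∫ c in ball 0 r, ∫ x in S, |f x - f (mv H x (G c))| ∂lam H := integral_integral_swap hi
    _ ≤ ∫ c in ball (0 : ℝ × ℝ) r, 2 * κ := by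
        refine setIntegral_mono_on hi.integral_prod_right (integrable_const _) measurableSet_ball
          fun c hc => ?_
        have hc : ‖c‖ < r := by simpa using hc
        have n1 := norm_fst0 c
        have n2 := norm_snd0 c
        have e : ((c.1, 0) : ℝ × ℝ) + (0, c.2) = c := by simp
        have i1 : Integrable (fun x => |f x - f (mv H x (G (c.1, 0)))|) (lam H) :=
          integrable_bdd (measurable_disp H hf _) fun _ => abs_sub_le_two (hM _) (hM _)
        have m2 := measurable_disp H hf (G (0, c.2))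
        have i2 : Integrable (fun x => |f (mv H x (G (c.1, 0))) -
            f (mv H (mv H x (G (c.1, 0))) (G (0, c.2)))|) (lam H) :=
          integrable_bdd (m2.comp (measurable_mv_left H _)) fun _ => abs_sub_le_two (hM _) (hM _)
        have e2 : ∫ x, |f (mv H x (G (c.1, 0))) - f (mv H (mv H x (G (c.1, 0))) (G (0, c.2)))|
            ∂lam H = Gam H f (G (0, c.2)) := by
          have hp := measurePreserving_mv H (G (c.1, 0))
          unfold Gam
          conv_rhs => rw [← hp.map_eq]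
          rw [integral_map hp.measurable.aemeasurable m2.aestronglyMeasurable]
        have g1 := hΓ (c.1, 0) (by linarith) (Or.inr rfl)
        have g2 := hΓ (0, c.2) (by linarith) (Or.inl rfl)
        calc _ ≤ ∫ x in S, (|f x - f (mv H x (G (c.1, 0)))| + |f (mv H x (G (c.1, 0))) -
            f (mv H (mv H x (G (c.1, 0))) (G (0, c.2)))|) ∂lam H := by
              refine setIntegral_mono_on (integrable_bdd (measurable_disp H hf _)
                fun _ => abs_sub_le_two (hM _) (hM _)) (i1.add i2).integrableOn hS fun x hx => ?_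
              rw [Good.cocycle H hx (by linarith) (by rw [e]; linarith), e]
              exact abs_sub_le _ _ _
          _ ≤ ∫ x, (|f x - f (mv H x (G (c.1, 0)))| + |f (mv H x (G (c.1, 0))) -
            f (mv H (mv H x (G (c.1, 0))) (G (0, c.2)))|) ∂lam H :=
              setIntegral_le_integral (i1.add i2) (ae_of_all _ fun x => by positivity)
          _ ≤ 2 * κ := by
              rw [integral_add i1 i2, e2]
              unfold Gam at g1
              linarith
    _ = _ := by simp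

lemma measurable_lm (H : IsTorusCover π P) (r : ℝ) {f : X → ℝ} (hf : Measurable f) :
    Measurable (lm H G r f) := by
  have hm2 : Measurable fun a : X × (ℝ × ℝ) => f (mv H a.1 (G a.2)) :=
    hf.comp (measurable_mv₂ H measurable_fst (G.continuous.measurable.comp measurable_snd))
  exact (hm2.stronglyMeasurable.integral_prod_right').measurable

lemma abs_lm_le (H : IsTorusCover π P) (r : ℝ) {f : X → ℝ} {M : ℝ} (hM : ∀ x, |f x| ≤ M) (x : X) :
    |lm H G r f x| ≤ M * (volume : Measure (ℝ × ℝ)).real (ball 0 r) := by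
  rw [← Real.norm_eq_abs]
  exact norm_setIntegral_le_of_norm_le_const measure_ball_lt_top fun c _ => hM _

lemma volume_ball_real {r : ℝ} (hr : 0 ≤ r) :
    (volume : Measure (ℝ × ℝ)).real (ball 0 r) = 4 * r ^ 2 := by
  rw [show (0 : ℝ × ℝ) = (0, 0) from rfl, ← ball_prod_same, Measure.real, Measure.volume_eq_prod,
    Measure.prod_prod, Real.volume_ball, ENNReal.toReal_mul, ENNReal.toReal_ofReal (by linarith)]
  ring

/-- Poincaré type inequality, uniform over separated unimodular coordinates -/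
theorem poincare (H : IsTorusCover π P) {M δ ε : ℝ} (hM0 : 0 < M) (hδ : 0 < δ) (hε : 0 < ε) :
    ∃ κ > 0, ∀ G : (ℝ × ℝ) ≃L[ℝ] (ℝ × ℝ), MeasurePreserving G volume volume → Sep P G δ →
      ∀ f : X → ℝ, Measurable f → (∀ x, |f x| ≤ M) → ∫ x, f x ∂lam H = 0 →
      (∀ c : ℝ × ℝ, ‖c‖ < δ → c.1 = 0 ∨ c.2 = 0 → Gam H f (G c) ≤ κ) →
      ∫ x, |f x| ∂lam H ≤ ε := by
  have hd : (0 : ℝ) < deg H := by exact_mod_cast deg_pos H
  obtain ⟨r, hr, hrδ, hrε⟩ : ∃ r > 0, 20 * r ≤ δ ∧
      2 * M * (deg H * (P.ncard * (4 * (5 * r) ^ 2))) ≤ ε / 4 := by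
    have h1 : Tendsto (fun r : ℝ => 2 * M * (deg H * (P.ncard * (4 * (5 * r) ^ 2)))) (𝓝[>] 0)
        (𝓝 0) := tendsto_nhdsWithin_of_tendsto_nhds (Continuous.tendsto' (by fun_prop) _ _ (by simp))
    have h2 : Tendsto (fun r : ℝ => 20 * r) (𝓝[>] 0) (𝓝 0) :=
      tendsto_nhdsWithin_of_tendsto_nhds (Continuous.tendsto' (by fun_prop) _ _ (by simp))
    obtain ⟨r, h3, h4, h5⟩ := ((h1.eventually_le_const (by linarith : (0 : ℝ) < ε / 4)).and
      ((h2.eventually_le_const hδ).and self_mem_nhdsWithin)).exists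
    exact ⟨r, h5, h4, h3⟩
  set V := (volume : Measure (ℝ × ℝ)).real (ball 0 r) with hV
  have hV0 : 0 < V := by rw [hV, volume_ball_real hr.le]; positivity
  obtain ⟨N, hN⟩ := exists_nat_gt (deg H / V)
  rw [div_lt_iff₀ hV0] at hN
  have hK : 0 < 2 * V + deg H * (6 * (N + 1)) := by positivity
  refine ⟨V * (ε / 4) / (2 * V + deg H * (6 * (N + 1))), by positivity, ?_⟩
  set κ := V * (ε / 4) / (2 * V + deg H * (6 * (N + 1))) with hκ
  have hκ0 : 0 < κ := by positivity
  have hκ1 : κ * (2 * V + deg H * (6 * (N + 1))) = V * (ε / 4) := div_mul_cancel₀ _ hK.ne'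
  intro G hG hs f hf hM h0 hΓ
  have hs' : Sep P G (20 * r) := hs.mono hrδ
  have hΓ' : ∀ c : ℝ × ℝ, ‖c‖ < 2 * r → c.1 = 0 ∨ c.2 = 0 → Gam H f (G c) ≤ κ :=
    fun c hc => hΓ c (by linarith)
  obtain ⟨x₀, hx₀⟩ : ∃ x₀, Good P G (5 * r) (π x₀) := by
    obtain ⟨push, hp, -⟩ := exists_push H (ρ := 5 * r) (hs'.mono (by linarith)) (by linarith)
    obtain ⟨x, hx⟩ := H.conn.nonempty
    exact ⟨_, (hp x hx).1⟩
  set S := {x | Good P G (5 * r) (π x)}
  have hS : MeasurableSet S := H.cont.measurable (isClosed_good H.finP G _).measurableSet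
  set m₀ := lm H G r f x₀
  have hm₀ : |m₀| ≤ M * V := abs_lm_le H r hM x₀
  have hb : ∀ x, |V * f x| ≤ M * V := fun x => by
    rw [abs_mul, abs_of_pos hV0, mul_comm]; exact mul_le_mul_of_nonneg_right (hM x) hV0.le
  have i0 : Integrable (fun x => |V * f x - m₀|) (lam H) :=
    integrable_bdd ((hf.const_mul V).sub_const _).abs fun x => abs_sub_le_two (hb x) hm₀
  have i1 : Integrable (fun x => |V * f x - lm H G r f x|) (lam H) :=
    integrable_bdd ((hf.const_mul V).sub (measurable_lm H r hf)).abs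
      fun x => abs_sub_le_two (hb x) (abs_lm_le H r hM x)
  have a1 : ∫ x in S, |V * f x - m₀| ∂lam H ≤ V * (2 * κ) + deg H * (6 * κ * (N + 1)) := by
    calc _ ≤ ∫ x in S, (|V * f x - lm H G r f x| + 6 * κ * (N + 1)) ∂lam H := by
          refine setIntegral_mono_on i0.integrableOn (i1.add (integrable_const _)).integrableOn hS
            fun x hx => ?_
          have o1 := lm_osc H hG hr hs' hf hM hκ0 hΓ' hN hx hx₀
          have o2 := lm_osc H hG hr hs' hf hM hκ0 hΓ' hN hx₀ hx
          have : |lm H G r f x - m₀| ≤ 6 * κ * (N + 1) := abs_le.2 ⟨by linarith, o2⟩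
          linarith [abs_sub_le (V * f x) (lm H G r f x) m₀]
      _ ≤ _ := by
          rw [integral_add i1.integrableOn (integrable_const _)]
          refine add_le_add (int_good_le H hr hf hM hΓ') ?_
          rw [setIntegral_const, smul_eq_mul, ← lam_real_univ H]
          exact mul_le_mul_of_nonneg_right (measureReal_mono (subset_univ _)) (by positivity)
  have a2 : ∫ x in Sᶜ, |V * f x - m₀| ∂lam H ≤ V * (ε / 4) := by
    have h1 := norm_setIntegral_le_of_norm_le_const (μ := lam H) (s := Sᶜ)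
      (f := fun x => |V * f x - m₀|) (measure_lt_top _ _) fun x _ => abs_sub_le_two (hb x) hm₀
    have h2 := lam_bad_le (G := G) H hG (5 * r)
    rw [volume_ball_real (by linarith)] at h2
    have h3 : 2 * (M * V) * (lam H).real Sᶜ ≤
        2 * (M * V) * (deg H * (P.ncard * (4 * (5 * r) ^ 2))) := by gcongr
    have h4 := mul_le_mul_of_nonneg_left hrε hV0.le
    linarith [le_abs_self (∫ x in Sᶜ, |V * f x - m₀| ∂lam H), Real.norm_eq_abs
      (∫ x in Sᶜ, |V * f x - m₀| ∂lam H)]
  have a3 : ∫ x, |V * f x - m₀| ∂lam H ≤ V * (ε / 2) := by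
    rw [← integral_add_compl hS i0]; nlinarith
  have if0 : Integrable f (lam H) := integrable_bdd hf hM
  have a4 : deg H * |m₀| ≤ V * (ε / 2) := by
    refine le_trans (le_of_eq ?_) (abs_integral_le_integral_abs.trans a3)
    rw [integral_sub (if0.const_mul V) (integrable_const _), integral_const_mul, h0]
    simp [lam_real_univ, abs_mul]
  have a5 : V * ∫ x, |f x| ∂lam H ≤ ∫ x, (|V * f x - m₀| + |m₀|) ∂lam H := by
    rw [← integral_const_mul]
    refine integral_mono (if0.abs.const_mul V) (i0.add (integrable_const _)) fun x => ?_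
    have := abs_add_le (V * f x - m₀) m₀
    rw [sub_add_cancel, abs_mul, abs_of_pos hV0] at this
    exact this
  rw [integral_add i0 (integrable_const _), integral_const, lam_real_univ, smul_eq_mul] at a5
  have : V * ∫ x, |f x| ∂lam H ≤ V * ε := by linarith
  exact le_of_mul_le_mul_left this hV0

end Pool.Agent.MP_d0b2d2_an
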