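import Pool.Agent.MP_d0b2d2_an.Meas

open MeasureTheory Set Filter Topology ENNReal Metric

namespace Pool.Agent.MP_d0b2d2_an

/-- separation of the branch points and of the lattice in the coordinates `G` -/
def Sep (P : Set Tor) (G : (ℝ × ℝ) ≃L[ℝ] (ℝ × ℝ)) (δ : ℝ) : Prop :=
  ∀ c, (proj (G c) = 0 ∨ ∃ q ∈ P, ∃ q' ∈ P, proj (G c) = q - q') → c = 0 ∨ δ ≤ ‖c‖

lemma Sep.mono {P : Set Tor} {G : (ℝ × ℝ) ≃L[ℝ] (ℝ × ℝ)} {δ δ' : ℝ} (h : Sep P G δ)
    (hle : δ' ≤ δ) : Sep P G δ' := fun c hc => (h c hc).imp id hle.trans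

def Good (P : Set Tor) (G : (ℝ × ℝ) ≃L[ℝ] (ℝ × ℝ)) (ρ : ℝ) (z : Tor) : Prop :=
  ∀ c : ℝ × ℝ, ‖c‖ < ρ → z + proj (G c) ∉ P

variable {X : Type} [TopologicalSpace X] {π : X → Tor} {P : Set Tor}
  {G : (ℝ × ℝ) ≃L[ℝ] (ℝ × ℝ)} {ρ : ℝ}

lemma convex_img (G : (ℝ × ℝ) ≃L[ℝ] (ℝ × ℝ)) (ρ : ℝ) : Convex ℝ (G '' ball 0 ρ) :=
  (convex_ball 0 ρ).linear_image (G : (ℝ × ℝ) →ₗ[ℝ] (ℝ × ℝ))

lemma Good.avoid {z : Tor} (h : Good P G ρ z) : ∀ c ∈ G '' ball 0 ρ, z + proj c ∉ P := by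
  rintro _ ⟨c, hc, rfl⟩
  exact h c (by simpa using hc)

lemma Good.ok {z : Tor} (h : Good P G ρ z) {c : ℝ × ℝ} (hc : ‖c‖ < ρ) : Ok P z (G c) :=
  ok_of_convex₀ (convex_img G ρ) ⟨0, by simpa using (norm_nonneg c).trans_lt hc, map_zero G⟩
    h.avoid ⟨c, by simpa using hc, rfl⟩

lemma Good.cocycle (H : IsTorusCover π P) {x : X} (h : Good P G ρ (π x)) {c c' : ℝ × ℝ}
    (hc : ‖c‖ < ρ) (hc' : ‖c + c'‖ < ρ) : mv H (mv H x (G c)) (G c') = mv H x (G (c + c')) := by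
  rw [map_add]
  exact mv_mv H (convex_img G ρ) ⟨0, by simpa using (norm_nonneg c).trans_lt hc, map_zero G⟩
    h.avoid ⟨c, by simpa using hc, rfl⟩ ⟨c + c', by simpa using hc', map_add G c c'⟩

lemma isOpenMap_chart (G : (ℝ × ℝ) ≃L[ℝ] (ℝ × ℝ)) (z : Tor) :
    IsOpenMap fun c => z + proj (G c) :=
  (isOpenMap_add_left z).comp (isOpenMap_proj.comp G.isOpenMap)

lemma Good.nhds (H : IsTorusCover π P) {x : X} (h : Good P G ρ (π x)) (hρ : 0 < ρ) {η : ℝ}
    (hη : 0 < η) : ∀ᶠ y in 𝓝 x, ∃ c, ‖c‖ < η ∧ y = mv H x (G c) := by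
  have hx : π x ∉ P := by simpa [proj_zero] using h 0 (by simpa using hρ)
  obtain ⟨e, he, hπ⟩ := H.cov.isLocalHomeomorphOn x hx
  have hinj : InjOn π e.source := hπ ▸ e.injOn
  have hc : ContinuousAt (fun c => mv H x (G c)) 0 :=
    (mv_continuousAt H (h.ok (c := 0) (by simpa using hρ))).comp_of_eq (f := fun c => (x, G c))
      (Continuous.continuousAt (by fun_prop)) rfl
  have hW : ∀ᶠ c in 𝓝 (0 : ℝ × ℝ), mv H x (G c) ∈ e.source := by
    apply hc.preimage_mem_nhds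
    simpa [mv_zero] using e.open_source.mem_nhds he
  obtain ⟨η', hη', hb⟩ := Metric.eventually_nhds_iff.1 hW
  have hN : (fun c => π x + proj (G c)) '' ball 0 (min η' (min η ρ)) ∈ 𝓝 (π x) := by
    refine (isOpenMap_chart G (π x) _ isOpen_ball).mem_nhds ⟨0, ?_, by simp [proj_zero]⟩
    simp [hη, hη', hρ]
  filter_upwards [e.open_source.mem_nhds he, H.cont.continuousAt.preimage_mem_nhds hN] with y hy hy'
  obtain ⟨c, hc, hcy⟩ := hy'
  simp only [mem_ball, dist_zero_right, lt_min_iff] at hc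
  refine ⟨c, hc.2.1, hinj hy (hb (by simpa using hc.1)) ?_⟩
  rw [mv_proj H (h.ok hc.2.2)]
  exact hcy.symm

noncomputable def psi (ρ : ℝ) (d : ℝ × ℝ) : ℝ × ℝ := (max (ρ / ‖d‖) 1 - 1) • d

lemma psi_of_le {d : ℝ × ℝ} (hρ : 0 < ρ) (h : ρ ≤ ‖d‖) : psi ρ d = 0 := by
  have : ρ / ‖d‖ ≤ 1 := (div_le_one (hρ.trans_le h)).2 h
  simp [psi, max_eq_right this]

lemma psi_of_lt {d : ℝ × ℝ} (hd : d ≠ 0) (h : ‖d‖ < ρ) : psi ρ d = (ρ / ‖d‖ - 1) • d := by
  have : 1 ≤ ρ / ‖d‖ := (one_le_div (norm_pos_iff.2 hd)).2 h.le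
  simp [psi, max_eq_left this]

lemma continuousAt_psi {d : ℝ × ℝ} (hd : d ≠ 0) : ContinuousAt (psi ρ) d := by
  unfold psi
  have h : ContinuousAt (fun d : ℝ × ℝ => ρ / ‖d‖) d :=
    continuousAt_const.div continuous_norm.continuousAt (norm_ne_zero_iff.2 hd)
  refine ContinuousAt.smul (ContinuousAt.sub (Filter.Tendsto.max h tendsto_const_nhds)
    continuousAt_const) continuousAt_id

open Classical in
noncomputable def Uf (P : Set Tor) (G : (ℝ × ℝ) ≃L[ℝ] (ℝ × ℝ)) (ρ : ℝ) (z : Tor) : ℝ × ℝ :=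
  if h : ∃ d, ‖d‖ < ρ ∧ z - proj (G d) ∈ P then psi ρ h.choose else 0

lemma Uf_eq (hs : Sep P G (4 * ρ)) (hρ : 0 < ρ) {z : Tor} {d : ℝ × ℝ} (hd : ‖d‖ < 3 * ρ)
    (hP : z - proj (G d) ∈ P) : Uf P G ρ z = psi ρ d := by
  unfold Uf
  split_ifs with h
  · obtain ⟨h1, h2⟩ := h.choose_spec
    congr 1
    rcases hs (d - h.choose) (Or.inr ⟨_, h2, _, hP, by rw [map_sub, proj_sub]; abel⟩) with h3 | h3
    · exact (sub_eq_zero.1 h3).symm
    · linarith [norm_sub_le d h.choose]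
  · rw [psi_of_le hρ]
    by_contra hn
    exact h ⟨d, not_le.1 hn, hP⟩

lemma continuousAt_Uf (hs : Sep P G (4 * ρ)) (hρ : 0 < ρ) {z : Tor} (hz : z ∉ P) :
    ContinuousAt (Uf P G ρ) z := by
  have hc : Continuous fun c => z + proj (G c) :=
    continuous_const.add (continuous_proj.comp G.continuous)
  have hm := (isOpenMap_chart G z).map_nhds_eq (x := 0) hc.continuousAt
  simp only [map_zero, proj_zero, add_zero] at hm
  have hb : ∀ᶠ e in 𝓝 (0 : ℝ × ℝ), ‖e‖ < ρ := by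
    filter_upwards [ball_mem_nhds (0 : ℝ × ℝ) hρ] with e he using by simpa using he
  rw [ContinuousAt, ← hm, tendsto_map'_iff]
  by_cases h : ∃ d, ‖d‖ < 2 * ρ ∧ z - proj (G d) ∈ P
  · obtain ⟨d, hd, hdP⟩ := h
    have hd0 : d ≠ 0 := by rintro rfl; simp [proj_zero] at hdP; exact hz hdP
    rw [Uf_eq hs hρ (by linarith) hdP]
    have : Tendsto (fun e => psi ρ (d + e)) (𝓝 0) (𝓝 (psi ρ d)) := by
      refine (continuousAt_psi hd0).tendsto.comp ?_
      exact Continuous.tendsto' (by fun_prop) _ _ (by simp)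
    refine this.congr' ?_
    filter_upwards [hb] with e he
    refine (Uf_eq hs hρ (by linarith [norm_add_le d e]) ?_).symm
    rw [map_add, proj_add]
    have : z + proj (G e) - (proj (G d) + proj (G e)) = z - proj (G d) := by abel
    rw [this]; exact hdP
  · have h0 : ∀ e, ‖e‖ < ρ → Uf P G ρ (z + proj (G e)) = 0 := by
      intro e he
      unfold Uf
      rw [dif_neg]
      rintro ⟨d, hd, hdP⟩
      refine h ⟨d - e, by linarith [norm_sub_le d e], ?_⟩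
      rw [map_sub, proj_sub]
      convert hdP using 1
      abel
    have := h0 0 (by simpa using hρ)
    simp only [map_zero, proj_zero, add_zero] at this
    rw [this]
    refine tendsto_const_nhds.congr' ?_
    filter_upwards [hb] with e he
    exact (h0 e he).symm

lemma Uf_spec (hs : Sep P G (4 * ρ)) (hρ : 0 < ρ) {z : Tor} (hz : z ∉ P) :
    Ok P z (G (Uf P G ρ z)) ∧ Good P G ρ (z + proj (G (Uf P G ρ z))) := by
  by_cases h : ∃ d, ‖d‖ < ρ ∧ z - proj (G d) ∈ P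
  · obtain ⟨d, hd, hdP⟩ := h
    have hd0 : d ≠ 0 := by rintro rfl; simp [proj_zero] at hdP; exact hz hdP
    have hn : 0 < ‖d‖ := norm_pos_iff.2 hd0
    rw [Uf_eq hs hρ (by linarith) hdP, psi_of_lt hd0 hd]
    have h1 : 1 ≤ ρ / ‖d‖ := (one_le_div hn).2 hd.le
    constructor
    · intro s hs' hq
      rcases hs ((1 + s * (ρ / ‖d‖ - 1)) • d) (Or.inr ⟨_, hq, _, hdP, by
        rw [add_smul, one_smul, map_add, proj_add, ← map_smul, smul_smul]; abel⟩) with h3 | h3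
      · rcases smul_eq_zero.1 h3 with h4 | h4
        · nlinarith [hs'.1]
        · exact hd0 h4
      · rw [norm_smul, Real.norm_eq_abs, abs_of_nonneg (by nlinarith [hs'.1])] at h3
        have : (1 + s * (ρ / ‖d‖ - 1)) * ‖d‖ ≤ ρ / ‖d‖ * ‖d‖ := by
          refine mul_le_mul_of_nonneg_right ?_ hn.le
          nlinarith [hs'.2]
        rw [div_mul_cancel₀ _ hn.ne'] at this
        linarith
    · intro c hc hq
      have hnorm : ‖(ρ / ‖d‖) • d‖ = ρ := by
        rw [norm_smul, Real.norm_eq_abs, abs_of_nonneg (by linarith), div_mul_cancel₀ _ hn.ne']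
      rcases hs ((ρ / ‖d‖) • d + c) (Or.inr ⟨_, hq, _, hdP, by
        rw [sub_smul, one_smul, map_add, proj_add, map_sub, proj_sub]; abel⟩) with h3 | h3
      · have : c = -((ρ / ‖d‖) • d) := by rw [eq_neg_iff_add_eq_zero, add_comm]; exact h3
        rw [this, norm_neg, hnorm] at hc
        exact lt_irrefl _ hc
      · linarith [norm_add_le ((ρ / ‖d‖) • d) c]
  · have : Uf P G ρ z = 0 := by unfold Uf; rw [dif_neg h]
    rw [this]
    simp only [map_zero, proj_zero, add_zero]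
    refine ⟨fun s _ => by simpa [proj_zero] using hz, fun c hc hq => h ⟨-c, by simpa, ?_⟩⟩
    rw [map_neg, proj_neg]; simpa using hq

lemma Uf_of_good {z : Tor} (h : Good P G ρ z) : Uf P G ρ z = 0 := by
  unfold Uf
  rw [dif_neg]
  rintro ⟨d, hd, hdP⟩
  refine h (-d) (by simpa) ?_
  rw [map_neg, proj_neg]; simpa [sub_eq_add_neg] using hdP

lemma exists_push (H : IsTorusCover π P) (hs : Sep P G (4 * ρ)) (hρ : 0 < ρ) :
    ∃ push : X → X, (∀ x, π x ∉ P → Good P G ρ (π (push x)) ∧ ContinuousAt push x) ∧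
      ∀ x, Good P G ρ (π x) → push x = x := by
  refine ⟨fun x => mv H x (G (Uf P G ρ (π x))), fun x hx => ⟨?_, ?_⟩, fun x hx => ?_⟩
  · rw [mv_proj H (Uf_spec hs hρ hx).1]
    exact (Uf_spec hs hρ hx).2
  · refine (mv_continuousAt H (Uf_spec hs hρ hx).1).comp_of_eq
      (f := fun x => (x, G (Uf P G ρ (π x)))) ?_ rfl
    exact continuousAt_id.prodMk (G.continuous.continuousAt.comp
      ((continuousAt_Uf hs hρ hx).comp H.cont.continuousAt))
  · simp [Uf_of_good hx, mv_zero]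

/-- discrete intermediate value property -/
lemma discrete_ivt {S : Set X} (hS : IsPreconnected S) {μ : X → ℝ} {κ : ℝ}
    (hμ : ∀ x ∈ S, ∀ᶠ y in 𝓝 x, |μ y - μ x| ≤ κ) {x x' : X} (hx : x ∈ S) (hx' : x' ∈ S) {u : ℝ}
    (h1 : μ x < u) (h2 : u + κ < μ x') (hκ : 0 ≤ κ) : ∃ y ∈ S, u ≤ μ y ∧ μ y ≤ u + κ := by
  by_contra hn
  push Not at hn
  have hc : ContinuousOn (fun y => decide (μ y < u)) S := by
    intro y hy
    rw [ContinuousWithinAt, nhds_discrete, tendsto_pure]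
    filter_upwards [nhdsWithin_le_nhds (hμ y hy), self_mem_nhdsWithin] with y' h' hy'
    rw [abs_le] at h'
    by_cases e : μ y < u
    · have : μ y' < u := by
        by_contra e'
        linarith [hn y' hy' (not_lt.1 e'), h'.2]
      simp [e, this]
    · have : ¬ μ y' < u := by
        intro e'
        linarith [hn y hy (not_lt.1 e), h'.1]
      simp [e, this]
  have := hS.constant hc hx hx'
  simp only [h1, decide_true] at this
  have h3 : μ x' < u := by simpa using this.symm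
  linarith

end Pool.Agent.MP_d0b2d2_an
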