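import Pool.Agent.MP_d0b2d2_an.Equi

open MeasureTheory Set Filter Topology Metric

namespace Pool.Agent.MP_d0b2d2_an

lemma card_Icc_le (u : ℝ) {l : ℝ} (hl : 0 ≤ l) :
    ((Finset.Icc ⌈u⌉ ⌊u + l⌋).card : ℝ) ≤ l + 1 := by
  rw [Int.card_Icc]
  rcases le_total (⌊u + l⌋ + 1 - ⌈u⌉) 0 with h | h
  · rw [Int.toNat_of_nonpos h]; simp; linarith
  · have : (((⌊u + l⌋ + 1 - ⌈u⌉).toNat : ℤ) : ℝ) = ((⌊u + l⌋ + 1 - ⌈u⌉ : ℤ) : ℝ) := by
      rw [Int.toNat_of_nonneg h]
    push_cast at this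
    rw [this]
    linarith [Int.floor_le (u + l), Int.le_ceil u]

def Near (c β ρ : ℝ) : Set ℝ := {t | ∃ m : ℤ, |c + β * t - m| ≤ ρ}

lemma measurableSet_near (c β ρ : ℝ) : MeasurableSet (Near c β ρ) := by
  have : Near c β ρ = ⋃ m : ℤ, {t | |c + β * t - m| ≤ ρ} := by ext t; simp [Near]
  rw [this]
  exact MeasurableSet.iUnion fun m => (isClosed_le (by fun_prop) continuous_const).measurableSet

lemma volume_near_le (c : ℝ) {β ρ : ℝ} (hβ : β ≠ 0) (hρ : 0 ≤ ρ) (a : ℝ) {T : ℝ} (hT : 0 ≤ T) :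
    (volume : Measure ℝ).real (Near c β ρ ∩ Icc a (a + T)) ≤
      (|β| * T + 2 * ρ + 1) * (2 * ρ / |β|) := by
  have hb : 0 < |β| := abs_pos.2 hβ
  set u := min (c + β * a) (c + β * (a + T)) - ρ with hu
  have hsub : Near c β ρ ∩ Icc a (a + T) ⊆
      ⋃ m ∈ Finset.Icc ⌈u⌉ ⌊u + (|β| * T + 2 * ρ)⌋, closedBall ((m - c) / β) (ρ / |β|) := by
    rintro t ⟨⟨m, hm⟩, ht⟩
    refine mem_biUnion (x := m) ?_ ?_
    · rw [abs_le] at hm
      simp only [Finset.coe_Icc, mem_Icc, Int.ceil_le, Int.le_floor]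
      rcases le_total 0 β with h | h
      · rw [abs_of_nonneg h, hu, min_eq_left (by nlinarith)]
        constructor <;> nlinarith [ht.1, ht.2, hm.1, hm.2]
      · rw [abs_of_nonpos h, hu, min_eq_right (by nlinarith)]
        constructor <;> nlinarith [ht.1, ht.2, hm.1, hm.2]
    · rw [mem_closedBall, Real.dist_eq, le_div_iff₀ hb, ← abs_mul]
      have : (t - (m - c) / β) * β = c + β * t - m := by field_simp; ring
      rw [this]; exact hm
  refine (measureReal_mono hsub (by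
    refine ne_top_of_le_ne_top ?_ (measure_biUnion_finset_le _ _)
    exact ENNReal.sum_ne_top.2 fun _ _ => measure_closedBall_lt_top.ne)).trans
    ((measureReal_biUnion_finset_le _ _).trans ?_)
  have : ∀ x : ℝ, (volume : Measure ℝ).real (closedBall x (ρ / |β|)) = 2 * ρ / |β| := fun x => by
    rw [Measure.real, Real.volume_closedBall, ENNReal.toReal_ofReal (by positivity)]; ring
  simp only [this, Finset.sum_const, nsmul_eq_mul]
  exact mul_le_mul_of_nonneg_right (card_Icc_le u (by positivity)) (by positivity)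

variable {X : Type} [TopologicalSpace X] {π : X → Tor} {P : Set Tor} [CompactSpace X]

lemma mv_periodic (H : IsTorusCover π P) {v : ℝ × ℝ} (hv : proj v = 0) {x : X}
    (hx : Line P v (π x)) (j : ℕ) : mv H x (((j * (deg H).factorial : ℕ) : ℝ) • v) = x := by
  have hz : π x ∉ P := by simpa [proj_zero] using hx 0
  have hn : ∀ n : ℕ, proj ((n : ℝ) • v) = 0 := by
    intro n
    induction n with
    | zero => simp [proj_zero]
    | succ n ih => rw [Nat.cast_succ, add_smul, proj_add, ih, one_smul, hv, add_zero]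
  obtain ⟨a, ha, b, hb, hab, he⟩ := Finset.exists_ne_map_eq_of_card_lt_of_maps_to
    (s := Finset.range (deg H + 1)) (t := fib H (π x)) (by rw [card_fib H hz]; simp)
    (f := fun n : ℕ => mv H x ((n : ℝ) • v))
    (fun n _ => by
      simp only [Finset.mem_coe, mem_fib]
      rw [mv_proj H (hx.ok _), hn, add_zero])
  wlog hlt : a < b generalizing a b
  · exact this b hb a ha hab.symm he.symm (lt_of_le_of_ne (not_lt.1 hlt) hab.symm)
  have h1 : mv H x (((b - a : ℕ) : ℝ) • v) = x := by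
    have := congrArg (fun y => mv H y ((-(a : ℝ)) • v)) he
    simp only [hx.flow H] at this
    rw [Nat.cast_sub hlt.le, sub_eq_add_neg, ← this]
    simp [mv_zero]
  have h2 : ∀ m : ℕ, mv H x (((m * (b - a) : ℕ) : ℝ) • v) = x := by
    intro m
    induction m with
    | zero => simp [mv_zero]
    | succ m ih => rw [Nat.succ_mul, Nat.cast_add, ← hx.flow H, ih, h1]
  obtain ⟨c, hc⟩ : (b - a) ∣ (deg H).factorial :=
    Nat.dvd_factorial (by omega) (by have := Finset.mem_range.1 hb; omega)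
  have := h2 (j * c)
  rwa [mul_assoc, mul_comm c, ← hc] at this

variable [MeasurableSpace X] [BorelSpace X] [SecondCountableTopology X] [T2Space X]

theorem rigidity (H : IsTorusCover π P) {h : X → ℝ} (hh : Continuous h) {M : ℝ}
    (hM : ∀ x, |h x| ≤ M) {ε : ℝ} (hε : 0 < ε) : ∃ δ > 0, ∀ (w : ℝ × ℝ) (z₀ : Tor) (g : ℝ → X),
      Traj π P w z₀ g → ∀ (k l : ℤ) (τ : ℝ), 0 < τ → k * w.2 - l * w.1 ≠ 0 → ∀ j n : ℕ,
      n = j * (deg H).factorial → n * ‖τ • w - ((k : ℝ), (l : ℝ))‖ < δ → ∃ K, ∀ T, 0 ≤ T →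
      ∫ t in (0 : ℝ)..T, |h (g (t + n * τ)) - h (g t)| ≤
        (ε + 4 * M * P.ncard * (n * τ * |k * w.2 - l * w.1|)) * T + K := by
  obtain ⟨δ, hδ, hu⟩ := unif H hh hε
  refine ⟨δ, hδ, fun w z₀ g hg k l τ hτ hβ j n hn he => ?_⟩
  have hM0 : 0 ≤ M := (abs_nonneg _).trans (hM (g 0))
  set β := k * w.2 - l * w.1 with hβd
  set v : ℝ × ℝ := ((k : ℝ), (l : ℝ)) with hv
  set e := τ • w - v with hed
  set ρ := n * τ * |β| with hρ
  have hb : 0 < |β| := abs_pos.2 hβ
  have hρ0 : 0 ≤ ρ := by positivity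
  let c : Tor → ℝ := fun q => k * (rep z₀ - rep q).2 - l * (rep z₀ - rep q).1
  let Bad : Set ℝ := ⋃ q ∈ H.finP.toFinset, Near (c q) β ρ
  have hBad : MeasurableSet Bad := Finset.measurableSet_biUnion _ fun q _ => measurableSet_near _ _ _
  have good : ∀ t, 0 < t → t ∉ Bad → |h (g (t + n * τ)) - h (g t)| ≤ ε := by
    intro t ht hnb
    have hπ := hg.pr t ht.le
    let C : Set (ℝ × ℝ) := (fun a : ℝ × ℝ => a.1 • v + a.2 • e) '' (univ ×ˢ Icc (0 : ℝ) n)
    have hC : Convex ℝ C := (convex_univ.prod (convex_Icc _ _)).is_linear_image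
      ⟨fun a b => by simp only [Prod.fst_add, Prod.snd_add, add_smul]; abel,
        fun r a => by simp only [Prod.smul_fst, Prod.smul_snd, smul_eq_mul, smul_add, smul_smul]⟩
    have hmem : ∀ s σ : ℝ, 0 ≤ σ → σ ≤ n → s • v + σ • e ∈ C := fun s σ h1 h2 =>
      ⟨(s, σ), ⟨mem_univ _, h1, h2⟩, rfl⟩
    have hn0 : (0 : ℝ) ≤ n := Nat.cast_nonneg n
    have h0 : (0 : ℝ × ℝ) ∈ C := by simpa using hmem 0 0 le_rfl hn0
    have hCP : ∀ y ∈ C, π (g t) + proj y ∉ P := by
      rintro _ ⟨⟨s, σ⟩, ⟨-, h1, h2⟩, rfl⟩ hq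
      refine hnb (mem_biUnion (x := π (g t) + proj (s • v + σ • e)) (by simpa using hq) ?_)
      set q := π (g t) + proj (s • v + σ • e) with hqd
      have : proj (rep z₀ - rep q + t • w + (s • v + σ • e)) = 0 := by
        rw [proj_add, proj_add, proj_sub, proj_rep, proj_rep, hqd, hπ]; abel
      obtain ⟨a, b, hab⟩ := (proj_eq_zero_iff _).1 this
      refine ⟨k * b - l * a, ?_⟩
      have ha := congrArg Prod.fst hab
      have hb' := congrArg Prod.snd hab
      simp only [hed, hv, Prod.fst_add, Prod.snd_add, Prod.smul_fst, Prod.smul_snd, Prod.fst_sub,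
        Prod.snd_sub, smul_eq_mul] at ha hb'
      have : c q + β * t - ((k * b - l * a : ℤ) : ℝ) = -(σ * τ * β) := by
        simp only [c, hβd, Prod.fst_sub, Prod.snd_sub]
        push_cast
        rw [← ha, ← hb']; ring
      rw [this, abs_neg, abs_mul, abs_of_nonneg (mul_nonneg h1 hτ.le), hρ]
      exact mul_le_mul_of_nonneg_right (mul_le_mul_of_nonneg_right h2 hτ.le) hb.le
    have hline : Line P v (π (g t)) := fun s => hCP _ (by simpa using hmem s 0 le_rfl hn0)
    have e1 : g (t + n * τ) = mv H (g t) ((n : ℝ) • e) := by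
      rw [hg.eq_mv H ht (by positivity)]
      have : (n * τ) • w = (n : ℝ) • v + (n : ℝ) • e := by
        rw [hed, smul_sub, smul_smul]; abel
      rw [this, ← mv_mv H hC h0 hCP (by simpa using hmem n 0 le_rfl hn0) (hmem n n hn0 le_rfl)]
      congr 1
      rw [hn]; exact mv_periodic H (proj_int k l) hline j
    have hm' : ∀ σ ∈ Icc (0 : ℝ) n, σ • e ∈ C := fun σ hσ => by simpa using hmem 0 σ hσ.1 hσ.2
    have hZ : IsPreconnected ((fun σ : ℝ => mv H (g t) (σ • e)) '' Icc 0 n) :=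
      isPreconnected_Icc.image _ ((mv_continuousOn_convex H hC h0 hCP).comp (by fun_prop) hm')
    refine (hu _ hZ (π (g t)) ?_ _ ⟨n, ⟨hn0, le_rfl⟩, e1.symm⟩ _
      ⟨0, ⟨le_rfl, hn0⟩, by simp [mv_zero]⟩).le
    rintro _ ⟨σ, hσ, rfl⟩
    rw [mv_proj H (ok_of_convex₀ hC h0 hCP (hm' σ hσ)), dist_self_add_left]
    refine (norm_proj_le _).trans_lt (lt_of_le_of_lt ?_ he)
    rw [norm_smul, Real.norm_eq_abs, abs_of_nonneg hσ.1]
    exact mul_le_mul_of_nonneg_right hσ.2 (norm_nonneg _)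
  refine ⟨2 * M * (P.ncard * ((2 * ρ + 1) * (2 * ρ / |β|))), fun T hT => ?_⟩
  have hv : (volume : Measure ℝ).real (Bad ∩ Icc 0 (0 + T)) ≤
      P.ncard * ((|β| * T + 2 * ρ + 1) * (2 * ρ / |β|)) := by
    simp only [Bad]
    rw [iUnion₂_inter]
    refine (measureReal_biUnion_finset_le _ _).trans ?_
    rw [ncard_eq_toFinset_card P H.finP, ← nsmul_eq_mul]
    exact Finset.sum_le_card_nsmul _ _ _ fun q _ => volume_near_le _ hβ hρ0 0 hT
  rw [zero_add] at hv
  have hi : IntegrableOn (Bad.indicator fun _ => 2 * M) (Ioc 0 T) :=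
    (integrable_const _).indicator hBad
  calc _ ≤ ∫ t in Ioc 0 T, (ε + Bad.indicator (fun _ => 2 * M) t) := by
        rw [intervalIntegral.integral_of_le hT]
        refine integral_mono_of_nonneg (ae_of_all _ fun _ => abs_nonneg _)
          ((integrable_const _).add hi) ?_
        filter_upwards [ae_restrict_mem measurableSet_Ioc] with t ht
        by_cases hb : t ∈ Bad
        · rw [indicator_of_mem hb]
          linarith [abs_sub (h (g (t + n * τ))) (h (g t)), hM (g (t + n * τ)), hM (g t)]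
        · rw [indicator_of_notMem hb, add_zero]; exact good t ht.1 hb
    _ ≤ _ := by
        rw [integral_add (integrable_const _) hi, integral_indicator hBad, setIntegral_const,
          setIntegral_const, smul_eq_mul, smul_eq_mul, measureReal_restrict_apply hBad]
        have h1 : (volume : Measure ℝ).real (Bad ∩ Ioc 0 T) ≤ (volume : Measure ℝ).real (Bad ∩ Icc 0 T) :=
          measureReal_mono (inter_subset_inter_right _ Ioc_subset_Icc_self)
            (ne_top_of_le_ne_top measure_Icc_lt_top.ne (measure_mono inter_subset_right))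
        have h2 : (|β| * T + 2 * ρ + 1) * (2 * ρ / |β|) = 2 * ρ * T + (2 * ρ + 1) * (2 * ρ / |β|) := by
          field_simp; ring
        rw [h2] at hv
        rw [Real.volume_real_Ioc_of_le hT]
        nlinarith [mul_le_mul_of_nonneg_left (h1.trans hv) hM0]

end Pool.Agent.MP_d0b2d2_an
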