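import Pool.Agent.MP_d0b2d2_an.Final

open MeasureTheory Set Filter Topology Pool.Agent.MP_d0b2d2_an

namespace Pool.Agent.MP_d0b2d2_an.TorusCoversOld

theorem result (X : Type) [TopologicalSpace X] [CompactSpace X] [T2Space X]
    [SecondCountableTopology X] [MeasurableSpace X] [BorelSpace X]
    (π : X → Tor) (P : Set Tor) (H : IsTorusCover π P)
    (a b c d : ℝ) (hdet : a * d - b * c ≠ 0) (p : X) :
    (∃ γ : ℝ → ℝ → X, IsRayFamily π a b c d p γ) ∧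
    ∀ γ : ℝ → ℝ → X, IsRayFamily π a b c d p γ → ∃ G : Set ℝ, MeasurableSet G ∧
      Tendsto (fun N : ℝ => (volume (G ∩ Icc (-N) N)).toReal / (2 * N)) atTop (𝓝 1) ∧
      ∀ h : C(X, ℝ), Tendsto (fun t : ℝ => ∫ θ in (0 : ℝ)..1, h (γ θ t)) (atTop ⊓ 𝓟 G)
        (𝓝 (areaMean π h)) :=
  ⟨exists_ray H hdet p, fun _ hγ => weakly_illuminated H hdet hγ⟩

end Pool.Agent.MP_d0b2d2_an.TorusCoversOld
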